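import Pool.Agent.Helper52.Tao.Props
import Pool.Agent.Helper8.ND.Flow
import Pool.Agent.Helper28.POSB.Inv

/-!
# Level of distribution of invariant sets: the intermediate statements

* `FourierDecayS` (LDA): the decay of the exponential sums with a few more levels than non-zero digits
  (`N ≤ S / (1 - κ)`).
* `MixS` (LDB): the distribution modulo `m ^ (S + k)` of `F w`, `sg w = S`, is close to the lift of the distribution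
  modulo `m ^ S`, for `k ≤ κ S`.
* `ClassFlow` (LDC): the integers `n ≡ a (mod m ^ k)` of `[X, 2X)` are sent by `T^[t]` to every set `G` in the same
  proportion for all `a`, `k ≤ κ t`.
* `level` (LDD): level of distribution of the invariant sets, for the moduli `d ^ i * m ^ j ≤ x ^ θ`.
-/

set_option autoImplicit false

namespace Pool.Agent.Helper8.PW

open Pool.Agent.Helper68.Moeller Pool.Agent.Helper52.Tao Pool.Agent.Helper8.ND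

/-- Decay of the exponential sums, with more levels than non-zero digits. -/
def FourierDecayS (d m : ℕ) (r : ℤ → ℤ) : Prop :=
  ∀ A : ℝ, ∃ κ C : ℝ, 0 < κ ∧ κ < 1 ∧ 0 < C ∧ ∀ N : ℕ, 1 ≤ N → ∀ e : ℤ, (m : ℤ) ^ N ∣ (d : ℤ) * e - 1 →
    ∀ ζ : ℤ, ¬ (m : ℤ) ∣ ζ → ∀ t S : ℕ, (1 - κ) * N ≤ (S : ℝ) →
      ‖Gs d m r e t 0 S ((ζ : ℝ) / (m : ℝ) ^ N)‖ ≤ C * (d : ℝ) ^ t * (N : ℝ) ^ (-A)

/-- One step of the mixing, with more levels than non-zero digits. -/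
def MixS (d m : ℕ) (r : ℤ → ℤ) : Prop :=
  ∀ A : ℝ, ∃ κ C : ℝ, 0 < κ ∧ 0 < C ∧ ∀ S k : ℕ, 1 ≤ S → (k : ℝ) ≤ κ * S →
    ∀ e : ℤ, (m : ℤ) ^ (S + k) ∣ (d : ℤ) * e - 1 → ∀ t : ℕ,
      Osc d m r e t S (S + k) S ≤ C * (d : ℝ) ^ t * (S : ℝ) ^ (-A)

/-- The number of the `n ∈ [a, 2a)`, `n ≡ b (mod N)`, `n ∈ G`, divided by `a / N`. -/
noncomputable def fdc (G : Set ℤ) (N : ℕ) (b : ℤ) (a : ℝ) : ℝ :=
  ({n : ℤ | a ≤ n ∧ (n : ℝ) < 2 * a ∧ (N : ℤ) ∣ n - b ∧ n ∈ G}.ncard : ℝ) * N / a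

/-- The classes modulo `m ^ k`: for every set `G` of integers. -/
def ClassFlow (d m : ℕ) (r : ℤ → ℤ) : Prop :=
  ∀ A : ℝ, ∃ κ C : ℝ, 0 < κ ∧ 0 < C ∧ ∀ t : ℕ, 1 ≤ t → ∀ k : ℕ, (k : ℝ) ≤ κ * t → ∀ b : ℤ,
    ∀ a : ℝ, C * ((d : ℝ) * m) ^ (8 * t) ≤ a → ∀ G : Set ℤ,
      |fdc {n | (T d m r)^[t] n ∈ G} (m ^ k) b a - fd {n | (T d m r)^[t] n ∈ G} a| ≤
        C * (t : ℝ) ^ (-A)

/-- (LDD) Level of distribution `θ`: the sets which are invariant beyond `z` are equidistributed in all residue classes modulo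
all `d ^ i * m ^ j ≤ x ^ θ`, in `[x, 2x)`, uniformly in the set. -/
def LevelD (d m : ℕ) (r : ℤ → ℤ) : Prop :=
  ∃ θ : ℝ, 0 < θ ∧ ∀ z ε : ℝ, 0 < ε → ∃ X : ℝ, ∀ G : Set ℤ, TInv d m r G z → ∃ δ : ℝ, 0 ≤ δ ∧
    ∀ x : ℝ, X ≤ x → |fd G x - δ| ≤ ε ∧ ∀ i j : ℕ, (d : ℝ) ^ i * (m : ℝ) ^ j ≤ x ^ θ →
      ∀ b : ℤ, |fdc G (d ^ i * m ^ j) b x - δ| ≤ ε

end Pool.Agent.Helper8.PW
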