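import Pool.Agent.Helper8.PW.XDef
import Pool.Agent.Helper8.PW.LDef
import Pool.Agent.Helper8.CO.Eqv
import Pool.Agent.Helper28.POSB.Basins

/-!
# Whole windows: the consequences

* `swr`: windows to the right.
* `blocks`: a set `G` which is invariant beyond `z` and has a positive density contains, with many `n ∈ [x, 2x)`, all `n + h`,
  `0 ≤ h ≤ n ^ δ`, `ρ ∣ h`.
* `exc_iffp`, `three_p`: the exceptional set, the `3x + 1` map.
* `level_dens`: the level of distribution with the natural density.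
-/

set_option autoImplicit false

namespace Pool.Agent.Helper8.PW

open Pool.Agent.Helper68.Moeller Pool.Agent.Helper52.Tao Pool.Agent.Helper8.ND Pool.Agent.Helper8.CO
  Pool.Agent.Helper28 Pool.Agent.Helper91 Filter Topology

variable {ρ : ℤ}

/-- Windows to the right. -/
def SWr (ρ : ℤ) : Prop := ∃ K : ℕ, 0 < K ∧ ∀ᶠ t : ℕ in atTop, ∃ a : ℤ,
  ∀ h : ℤ, 0 ≤ h → ρ ∣ h → (h : ℝ) ≤ Real.exp (t / K) → MM ρ (K * t) 0 a (a + h)

theorem swr (hρ : Odd ρ) (hs : SW ρ) : SWr ρ := by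
  obtain ⟨K, hK, hev⟩ := hs
  refine ⟨K, hK, hev.mono ?_⟩
  rintro t ⟨a, ha⟩
  have hρ0 : ρ ≠ 0 := by
    rintro rfl
    exact absurd hρ (by decide)
  rcases lt_or_gt_of_ne hρ0 with hneg | hpos
  · set J : ℕ := ⌊Real.exp ((t : ℝ) / K)⌋₊ with hJ
    have hJle : (J : ℝ) ≤ Real.exp ((t : ℝ) / K) := Nat.floor_le (Real.exp_pos _).le
    refine ⟨a + ρ * J, ?_⟩
    rintro h hh ⟨e, rfl⟩ hle
    have he : e ≤ 0 := by
      by_contra hcon
      push Not at hcon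
      nlinarith
    obtain ⟨i, hi⟩ := Int.eq_ofNat_of_zero_le (neg_nonneg.mpr he)
    have e1 : e = -(i : ℤ) := by omega
    subst e1
    have hi1 : (i : ℝ) ≤ ((ρ * -(i : ℤ) : ℤ) : ℝ) := by
      have h1 : (i : ℤ) ≤ ρ * -(i : ℤ) := by
        have : (0 : ℤ) ≤ i := Int.natCast_nonneg i
        nlinarith
      exact_mod_cast h1
    have hi2 : i ≤ J := Nat.le_floor (hi1.trans hle)
    have h1 := ha J hJle
    have h2 := ha (J - i) (by
      have : ((J - i : ℕ) : ℝ) ≤ J := by exact_mod_cast Nat.sub_le J i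
      linarith)
    have h3 := MM_trans (MM_symm h1) h2
    rw [Nat.cast_sub hi2] at h3
    have e2 : a + ρ * J + ρ * -(i : ℤ) = a + ρ * ((J : ℤ) - i) := by ring
    rw [e2]
    exact h3
  · refine ⟨a, ?_⟩
    rintro h hh ⟨e, rfl⟩ hle
    have he : 0 ≤ e := by
      by_contra hcon
      push Not at hcon
      nlinarith
    obtain ⟨i, rfl⟩ := Int.eq_ofNat_of_zero_le he
    have hi1 : (i : ℝ) ≤ ((ρ * (i : ℤ) : ℤ) : ℝ) := by
      have h1 : (i : ℤ) ≤ ρ * (i : ℤ) := by nlinarith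
      exact_mod_cast h1
    exact ha i (hi1.trans hle)

theorem mem_iterz (hρ : Odd ρ) {G : Set ℤ} {z : ℝ} (hz : 0 ≤ z) (hG : TInv 2 3 (fun _ => ρ) G z)
    {k : ℕ} {n : ℤ} (hn : (2 : ℝ) ^ k * (|(ρ : ℝ)| + z + 1) ≤ n) :
    n ∈ G ↔ (T 2 3 (fun _ => ρ))^[k] n ∈ G := by
  have h1 : ∀ i, i ≤ k → (n ∈ G ↔ (T 2 3 (fun _ => ρ))^[i] n ∈ G) := by
    intro i
    induction i with
    | zero => intro _; rfl
    | succ i ih =>
      intro hi
      rw [ih (by omega), Function.iterate_succ', Function.comp_apply]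
      exact hG _ (orb_gt hρ hz hn (by omega))
  exact h1 k le_rfl

theorem MM_memz (hρ : Odd ρ) {G : Set ℤ} {z : ℝ} (hz : 0 ≤ z) (hG : TInv 2 3 (fun _ => ρ) G z)
    {k : ℕ} {n h : ℤ} (hn : (2 : ℝ) ^ k * (|(ρ : ℝ)| + z + 1) ≤ n) (hh : 0 ≤ h)
    (h' : MM ρ k 0 n (n + h)) : n ∈ G ↔ n + h ∈ G := by
  have hn' : (2 : ℝ) ^ k * (|(ρ : ℝ)| + z + 1) ≤ ((n + h : ℤ) : ℝ) := by
    have : (0 : ℝ) ≤ h := by exact_mod_cast hh
    push_cast
    linarith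
  rw [mem_iterz hρ hz hG hn, mem_iterz hρ hz hG hn', h'.1]

/-- The integers `n` of `[x, 2x)` such that the whole window is contained in `G` and its orbits meet that of `n` at one time. -/
def WinM (ρ : ℤ) (ε δ : ℝ) (G : Set ℤ) (x : ℝ) : Set ℤ :=
  {n : ℤ | x ≤ n ∧ (n : ℝ) < 2 * x ∧ ∃ t : ℕ, (2 : ℝ) ^ t ≤ x ^ ε ∧ (2 : ℝ) ^ t ≤ Real.sqrt x ∧
    ∀ h : ℤ, 0 ≤ h → ρ ∣ h → (h : ℝ) ≤ (n : ℝ) ^ δ → n + h ∈ G ∧ MM ρ t 0 n (n + h)}

theorem WinM_finite (ε δ : ℝ) (G : Set ℤ) (x : ℝ) : (WinM ρ ε δ G x).Finite := by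
  refine (Set.finite_Icc ⌈x⌉ ⌊2 * x⌋).subset ?_
  rintro n ⟨h1, h2, -⟩
  exact ⟨Int.ceil_le.2 h1, Int.le_floor.2 h2.le⟩

theorem WinM_mono {ε δ δ' : ℝ} (h : δ' ≤ δ) (G : Set ℤ) {x : ℝ} (hx : 1 ≤ x) :
    WinM ρ ε δ G x ⊆ WinM ρ ε δ' G x := by
  rintro n ⟨h1, h2, t, ht, ht', h3⟩
  refine ⟨h1, h2, t, ht, ht', fun k hk hk' hk'' => h3 k hk hk' (hk''.trans ?_)⟩
  exact Real.rpow_le_rpow_of_exponent_le (hx.trans h1) h

/-- The integers of `[x, 2x)` such that the whole window is contained in `G`. -/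
def Win (ρ : ℤ) (δ : ℝ) (G : Set ℤ) (x : ℝ) : Set ℤ :=
  {n : ℤ | x ≤ n ∧ (n : ℝ) < 2 * x ∧ ∀ h : ℤ, 0 ≤ h → ρ ∣ h → (h : ℝ) ≤ (n : ℝ) ^ δ → n + h ∈ G}

theorem Win_finite (δ : ℝ) (G : Set ℤ) (x : ℝ) : (Win ρ δ G x).Finite := by
  refine (Set.finite_Icc ⌈x⌉ ⌊2 * x⌋).subset ?_
  rintro n ⟨h1, h2, -⟩
  exact ⟨Int.ceil_le.2 h1, Int.le_floor.2 h2.le⟩

theorem Win_mono {δ δ' : ℝ} (h : δ' ≤ δ) (G : Set ℤ) {x : ℝ} (hx : 1 ≤ x) :
    Win ρ δ G x ⊆ Win ρ δ' G x := by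
  rintro n ⟨h1, h2, h3⟩
  refine ⟨h1, h2, fun k hk hk' hk'' => h3 k hk hk' (hk''.trans ?_)⟩
  exact Real.rpow_le_rpow_of_exponent_le (hx.trans h1) h

theorem WinM_sub (ε δ : ℝ) (G : Set ℤ) (x : ℝ) : WinM ρ ε δ G x ⊆ Win ρ δ G x := by
  rintro n ⟨h1, h2, t, -, -, h3⟩
  exact ⟨h1, h2, fun k hk hk' hk'' => (h3 k hk hk' hk'').1⟩

theorem blocks (hρ : Odd ρ) (hs : SWr ρ) (hl : LevelD 2 3 (fun _ => ρ)) {ε : ℝ} (hε : 0 < ε) :
    ∃ δ : ℝ, 0 < δ ∧ ∀ z η : ℝ, 0 ≤ z → 0 < η → ∃ X : ℝ, ∀ G : Set ℤ, TInv 2 3 (fun _ => ρ) G z →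
      (∀ᶠ x in atTop, η ≤ fd G x) → ∀ x : ℝ, X ≤ x → x ^ (1 - ε) ≤ ((WinM ρ ε δ G x).ncard : ℝ) := by
  obtain ⟨θ, hθ, hl⟩ := hl
  obtain ⟨K, hK, hs⟩ := hs
  set θ₁ : ℝ := min θ (min (ε / 2) (1 / 2)) with hθ₁
  have hθ₁0 : 0 < θ₁ := by positivity
  have hθ₁θ : θ₁ ≤ θ := min_le_left _ _
  have hθ₁ε : θ₁ ≤ ε / 2 := (min_le_right _ _).trans (min_le_left _ _)
  have hθ₁h : θ₁ ≤ 1 / 2 := (min_le_right _ _).trans (min_le_right _ _)
  have hKR : (0 : ℝ) < K := by exact_mod_cast hK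
  have hK1 : (1 : ℝ) ≤ K := by exact_mod_cast hK
  set δ : ℝ := θ₁ / (2 * K ^ 2) with hδ
  have hδ0 : 0 < δ := by positivity
  refine ⟨δ, hδ0, fun z η hz hη => ?_⟩
  obtain ⟨X₁, hX₁⟩ := hl z (η / 4) (by linarith)
  have hl2 : 0 < Real.log 2 := Real.log_pos (by norm_num)
  have hl21 : Real.log 2 < 1 := by
    have := Real.log_two_lt_d9
    linarith
  -- the number of steps
  have hT : Tendsto (fun x : ℝ => ⌊θ₁ * Real.log x / (K * Real.log 2)⌋₊) atTop atTop := by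
    refine tendsto_nat_floor_atTop.comp ?_
    refine Tendsto.atTop_div_const (by positivity) ?_
    exact Real.tendsto_log_atTop.const_mul_atTop hθ₁0
  have hev1 := hT.eventually hs
  have hev2 : ∀ᶠ x : ℝ in atTop, δ * Real.log 2 + 1 ≤ δ * Real.log x := by
    have : Tendsto (fun x : ℝ => δ * Real.log x) atTop atTop := Real.tendsto_log_atTop.const_mul_atTop hδ0
    exact this.eventually_ge_atTop _
  have hev3 : ∀ᶠ x : ℝ in atTop, 2 / η ≤ x ^ (ε / 2) :=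
    (tendsto_rpow_atTop (by linarith : 0 < ε / 2)).eventually_ge_atTop _
  obtain ⟨X₂, hX₂⟩ := eventually_atTop.1 (hev1.and (hev2.and hev3))
  set M : ℝ := |(ρ : ℝ)| + z + 1 with hM
  have hM1 : 1 ≤ M := by
    have := abs_nonneg (ρ : ℝ)
    linarith
  refine ⟨max (max X₁ X₂) (M ^ 2), fun G hG hfd x hx => ?_⟩
  have hxX₁ : X₁ ≤ x := ((le_max_left _ _).trans (le_max_left _ _)).trans hx
  have hxX₂ : X₂ ≤ x := ((le_max_right _ _).trans (le_max_left _ _)).trans hx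
  have hxM : M ^ 2 ≤ x := (le_max_right _ _).trans hx
  have hx1 : 1 ≤ x := le_trans (one_le_pow₀ hM1) hxM
  have hx0 : 0 < x := by linarith
  have hlx : 0 ≤ Real.log x := Real.log_nonneg hx1
  obtain ⟨⟨a, ha⟩, hx2, hx3⟩ := hX₂ x hxX₂
  set t : ℕ := ⌊θ₁ * Real.log x / (K * Real.log 2)⌋₊ with ht
  have ht1 : (t : ℝ) ≤ θ₁ * Real.log x / (K * Real.log 2) := Nat.floor_le (by positivity)
  have ht2 : θ₁ * Real.log x / (K * Real.log 2) < t + 1 := Nat.lt_floor_add_one _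
  -- the modulus
  have hmod : (2 : ℝ) ^ (K * t) ≤ x ^ θ₁ := by
    rw [← Real.rpow_natCast, Real.rpow_def_of_pos (by norm_num), Real.rpow_def_of_pos hx0]
    apply Real.exp_le_exp.2
    rw [le_div_iff₀ (by positivity)] at ht1
    push_cast
    linarith
  have hmodθ : ((2 : ℕ) : ℝ) ^ (K * t) * ((3 : ℕ) : ℝ) ^ 0 ≤ x ^ θ := by
    rw [pow_zero, mul_one]
    push_cast
    exact hmod.trans (Real.rpow_le_rpow_of_exponent_le hx1 hθ₁θ)
  -- the window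
  have hwin : (2 * x) ^ δ ≤ Real.exp ((t : ℝ) / K) := by
    rw [Real.rpow_def_of_pos (by positivity), Real.log_mul (by norm_num) hx0.ne']
    apply Real.exp_le_exp.2
    have h1 : θ₁ * Real.log x / (K * Real.log 2) - 1 ≤ t := by linarith
    have h2 : θ₁ * Real.log x / K ≤ θ₁ * Real.log x / (K * Real.log 2) := by
      apply div_le_div_of_nonneg_left (by positivity) (by positivity)
      nlinarith
    have h3 : (θ₁ * Real.log x / K - 1) / K ≤ t / K := by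
      apply div_le_div_of_nonneg_right _ hKR.le
      linarith
    have h4 : (θ₁ * Real.log x / K - 1) / K = 2 * δ * Real.log x - 1 / K := by
      rw [hδ]
      field_simp
    have h5 : 1 / (K : ℝ) ≤ 1 := by
      rw [div_le_one hKR]
      exact hK1
    rw [h4] at h3
    linarith
  -- the level of distribution
  obtain ⟨D, hD0, hD⟩ := hX₁ G hG
  have hDη : η * (3 / 4) ≤ D := by
    obtain ⟨y, hy1, hy2⟩ := (hfd.and (eventually_ge_atTop X₁)).exists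
    have := (abs_le.1 (hD y hy2).1).2
    linarith
  have hcl := ((hD x hxX₁).2 (K * t) 0 hmodθ a)
  have hcl2 : η / 2 ≤ fdc G (2 ^ (K * t) * 3 ^ 0) a x := by
    have := (abs_le.1 hcl).1
    linarith
  rw [pow_zero, mul_one] at hcl2
  unfold fdc at hcl2
  set S : Set ℤ := {n : ℤ | x ≤ n ∧ (n : ℝ) < 2 * x ∧ ((2 ^ (K * t) : ℕ) : ℤ) ∣ n - a ∧ n ∈ G} with hS
  have h2S : (2 : ℝ) ^ (K * t) ≤ x ^ ε :=
    hmod.trans (Real.rpow_le_rpow_of_exponent_le hx1 (by linarith))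
  have h2S' : (2 : ℝ) ^ (K * t) ≤ Real.sqrt x := by
    rw [Real.sqrt_eq_rpow]
    exact hmod.trans (Real.rpow_le_rpow_of_exponent_le hx1 hθ₁h)
  have hsub : S ⊆ WinM ρ ε δ G x := by
    rintro n ⟨h1, h2, ⟨j, hj⟩, h4⟩
    refine ⟨h1, h2, K * t, h2S, h2S', fun h hh hd hle => ?_⟩
    have h5 : MM ρ (K * t) 0 a (a + h) := by
      refine ha h hh hd (hle.trans (le_trans ?_ hwin))
      exact Real.rpow_le_rpow (by linarith) h2.le hδ0.le
    obtain ⟨β, rfl⟩ := hd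
    have h6 := (MM_periodic hρ (K * t) 0 β a j).2 (by
      rw [pow_zero, one_mul]
      exact h5)
    have e1 : a + 2 ^ (K * t) * j = n := by
      have : ((2 ^ (K * t) : ℕ) : ℤ) = 2 ^ (K * t) := by push_cast; rfl
      rw [this] at hj
      linarith
    rw [pow_zero, one_mul, e1] at h6
    refine ⟨(MM_memz hρ hz hG ?_ hh h6).1 h4, h6⟩
    have h7 : x ^ θ₁ * M ≤ x := by
      have h8 : x ^ θ₁ ≤ Real.sqrt x := by
        rw [Real.sqrt_eq_rpow]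
        exact Real.rpow_le_rpow_of_exponent_le hx1 hθ₁h
      have h9 : M ≤ Real.sqrt x := Real.le_sqrt_of_sq_le hxM
      calc x ^ θ₁ * M ≤ Real.sqrt x * Real.sqrt x := mul_le_mul h8 h9 (by linarith) (Real.sqrt_nonneg x)
        _ = x := Real.mul_self_sqrt hx0.le
    have h8 := mul_le_mul_of_nonneg_right hmod (by linarith : 0 ≤ M)
    linarith
  have hcard : (S.ncard : ℝ) ≤ ((WinM ρ ε δ G x).ncard : ℝ) := by
    exact_mod_cast Set.ncard_le_ncard hsub (WinM_finite ε δ G x)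
  refine le_trans ?_ hcard
  rw [le_div_iff₀ hx0] at hcl2
  have hmodN : ((2 ^ (K * t) : ℕ) : ℝ) = 2 ^ (K * t) := by push_cast; rfl
  rw [hmodN] at hcl2
  -- `x ^ (1 - ε) * x ^ θ₁ ≤ η / 2 * x`
  have h1 : x ^ (1 - ε) * x ^ θ₁ ≤ η / 2 * x := by
    rw [← Real.rpow_add hx0]
    have h2 : x ^ (1 - ε + θ₁) ≤ x ^ (1 - ε / 2) :=
      Real.rpow_le_rpow_of_exponent_le hx1 (by linarith)
    have h3 : x ^ (1 - ε / 2) * x ^ (ε / 2) = x := by
      rw [← Real.rpow_add hx0, sub_add_cancel, Real.rpow_one]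
    have h4 : 0 < x ^ (1 - ε / 2) := Real.rpow_pos_of_pos hx0 _
    have h5 : x ^ (1 - ε / 2) * (2 / η) ≤ x :=
      (mul_le_mul_of_nonneg_left hx3 h4.le).trans h3.le
    have h6 : x ^ (1 - ε / 2) ≤ η / 2 * x := by
      have h7 : x ^ (1 - ε / 2) = η / 2 * (x ^ (1 - ε / 2) * (2 / η)) := by
        field_simp
      rw [h7]
      exact mul_le_mul_of_nonneg_left h5 (by linarith)
    linarith
  have h2 : 0 < x ^ θ₁ := Real.rpow_pos_of_pos hx0 _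
  have h3 : (S.ncard : ℝ) * 2 ^ (K * t) ≤ S.ncard * x ^ θ₁ :=
    mul_le_mul_of_nonneg_left hmod (Nat.cast_nonneg _)
  have h4 : x ^ (1 - ε) * x ^ θ₁ ≤ S.ncard * x ^ θ₁ := by linarith
  exact le_of_mul_le_mul_right h4 h2

/-- The contradiction from an orbit which goes below `B`: if `n` is large then the whole orbit of `n + h` is `> B` as soon as that of `n` is. -/
theorem exc_iffp {r : ℤ → ℤ} (hr : Admissible 2 3 r) (hs : SWr (r 1)) (hl : LevelD 2 3 (fun _ => r 1))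
    {ε : ℝ} (hε : 0 < ε) : ∃ δ₀ : ℝ, 0 < δ₀ ∧
    (∀ z η : ℝ, 0 ≤ z → 0 < η → ∃ X : ℝ, ∀ G : Set ℤ, TInv 2 3 r G z → η ≤ PL.dens G →
      ∀ δ : ℝ, δ ≤ δ₀ → ∀ x : ℝ, X ≤ x → x ^ (1 - ε) ≤ ((WinM (r 1) ε δ G x).ncard : ℝ)) ∧
    (∀ z η : ℝ, 0 ≤ z → 0 < η → ∃ X : ℝ, ∀ G : Set ℤ, TInv 2 3 r G z → η ≤ PL.dens G →
      ∀ δ : ℝ, δ ≤ δ₀ → ∀ x : ℝ, X ≤ x → x ^ (1 - ε) ≤ ((Win (r 1) δ G x).ncard : ℝ)) ∧
    ∀ δ : ℝ, δ ≤ δ₀ → ((E 2 3 r).Finite ↔ ∃ B N : ℝ, ∀ n : ℤ, N ≤ n → ∃ (h : ℤ) (t : ℕ), 0 ≤ h ∧ r 1 ∣ h ∧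
      (h : ℝ) ≤ (n : ℝ) ^ δ ∧ ((T 2 3 r)^[t] (n + h) : ℝ) ≤ B) := by
  have hρ : Odd (r 1) := odd_of_adm hr
  have hstd : POSB.Std 2 3 r := ⟨le_refl 2, by norm_num, by norm_num, POS.three_hyp.1, hr⟩
  obtain ⟨δ₀, hδ₀, hb⟩ := blocks hρ hs hl hε
  have hTc : T 2 3 r = T 2 3 (fun _ => r 1) := T_eq
  have keyM : ∀ z η : ℝ, 0 ≤ z → 0 < η → ∃ X : ℝ, ∀ G : Set ℤ, TInv 2 3 r G z → η ≤ PL.dens G →
      ∀ δ : ℝ, δ ≤ δ₀ → ∀ x : ℝ, X ≤ x → x ^ (1 - ε) ≤ ((WinM (r 1) ε δ G x).ncard : ℝ) := by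
    intro z η hz hη
    obtain ⟨X, hX⟩ := hb z (η / 2) hz (by linarith)
    refine ⟨max X 1, fun G hG hd δ hδ x hx => ?_⟩
    have hG' : TInv 2 3 (fun _ => r 1) G z := fun n hn => by
      rw [hG n hn, hTc]
    have hfd := (PL.stab_tendsto hstd.hd hstd.hdm hstd.hco hstd.hr hstd.gam hstd.mix hG).eventually
      (lt_mem_nhds (by linarith : η / 2 < PL.dens G))
    have h1 := hX G hG' (hfd.mono fun x hx => hx.le) x ((le_max_left _ _).trans hx)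
    refine h1.trans ?_
    exact_mod_cast Set.ncard_le_ncard (WinM_mono hδ G ((le_max_right _ _).trans hx)) (WinM_finite ε δ G x)
  have key : ∀ z η : ℝ, 0 ≤ z → 0 < η → ∃ X : ℝ, ∀ G : Set ℤ, TInv 2 3 r G z → η ≤ PL.dens G →
      ∀ δ : ℝ, δ ≤ δ₀ → ∀ x : ℝ, X ≤ x → x ^ (1 - ε) ≤ ((Win (r 1) δ G x).ncard : ℝ) := by
    intro z η hz hη
    obtain ⟨X, hX⟩ := keyM z η hz hη
    refine ⟨X, fun G hG hd δ hδ x hx => (hX G hG hd δ hδ x hx).trans ?_⟩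
    exact_mod_cast Set.ncard_le_ncard (WinM_sub ε δ G x) (Win_finite δ G x)
  refine ⟨δ₀, hδ₀, keyM, key, fun δ hδ => ?_⟩
  constructor
  · intro hfin
    obtain ⟨B, hB⟩ := PRE.stay_empty (le_refl 2) hr hfin
    refine ⟨B, 1, fun n hn => ?_⟩
    have h1 := hB n
    push Not at h1
    obtain ⟨t, -, ht⟩ := h1 0
    refine ⟨0, t, le_refl _, dvd_zero _, ?_, ?_⟩
    · push_cast
      exact Real.rpow_nonneg (by linarith) _
    · rw [add_zero]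
      exact ht
  · rintro ⟨B, N, hBN⟩
    by_contra hinf
    obtain ⟨β, hβ, hE⟩ := POSB.above hstd
    have hβ0 : β (max B 0) ≠ 0 := fun h0 => hinf (hE.2 ⟨_, h0⟩)
    have hβ1 : 0 < β (max B 0) := by
      refine lt_of_le_of_ne (ge_of_tendsto (hβ (max B 0)) ?_) hβ0.symm
      filter_upwards [eventually_gt_atTop 0] with x hx
      exact div_nonneg (cN_nonneg _ x) hx.le
    have hti := POSB.tinv_Above (d := 2) (m := 3) (r := r) (max B 0)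
    have hdens : PL.dens (POSB.Above 2 3 r (max B 0)) = β (max B 0) :=
      tendsto_nhds_unique (POSB.tendsto_dens hstd hti) (hβ (max B 0))
    obtain ⟨X, hX⟩ := key (max B 0) (β (max B 0)) (le_max_right _ _) hβ1
    have h1 := hX _ hti hdens.ge δ hδ (max (max X N) 1) ((le_max_left _ _).trans (le_max_left _ _))
    have h2 : (0 : ℝ) < (max (max X N) 1) ^ (1 - ε) := Real.rpow_pos_of_pos (by positivity) _
    have h3 : (Win (r 1) δ (POSB.Above 2 3 r (max B 0)) (max (max X N) 1)).Nonempty := by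
      by_contra hcon
      rw [Set.not_nonempty_iff_eq_empty] at hcon
      rw [hcon, Set.ncard_empty, Nat.cast_zero] at h1
      linarith
    obtain ⟨n, hn1, hn2, hn3⟩ := h3
    have hnN : N ≤ n := ((le_max_right X N).trans (le_max_left _ _)).trans hn1
    obtain ⟨h, t, hh0, hhd, hhc, ht⟩ := hBN n hnN
    have h4 := hn3 h hh0 hhd hhc t
    have := le_max_left B 0
    linarith

/-- The invariance of the set of the integers which reach `1`. -/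
theorem inv_reach : POSB.Inv 2 3 (fun _ => (-1 : ℤ)) {n : ℤ | ∃ t : ℕ, (T 2 3 (fun _ => -1))^[t] n = 1} := by
  have hT1 : T 2 3 (fun _ => -1) 1 = 2 := by decide
  have hT2 : T 2 3 (fun _ => -1) 2 = 1 := by decide
  intro n _
  constructor
  · rintro ⟨_ | t, e⟩
    · rw [Function.iterate_zero, id_eq] at e
      subst e
      exact ⟨1, by rw [hT1, Function.iterate_one, hT2]⟩
    · exact ⟨t, by rwa [Function.iterate_succ_apply] at e⟩
  · rintro ⟨t, e⟩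
    exact ⟨t + 1, by rwa [Function.iterate_succ_apply]⟩

/-- The orbits which meet reach `1` after the same number of steps. -/
theorem same_height {t s : ℕ} {n h : ℤ} (hn : (2 : ℝ) ^ t * 3 ≤ n) (hh : 0 ≤ h) (hM : MM (-1) t 0 n (n + h))
    (hs : (T 2 3 (fun _ => -1))^[s] n = 1) (hs' : ∀ i < s, (T 2 3 (fun _ => -1))^[i] n ≠ 1) :
    (T 2 3 (fun _ => -1))^[s] (n + h) = 1 ∧ ∀ i < s, (T 2 3 (fun _ => -1))^[i] (n + h) ≠ 1 := by
  have hodd : Odd (-1 : ℤ) := by decide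
  have e3 : |(((-1 : ℤ) : ℤ) : ℝ)| + 1 + 1 = 3 := by norm_num
  have hn1 : (2 : ℝ) ^ t * (|(((-1 : ℤ) : ℤ) : ℝ)| + 1 + 1) ≤ n := by rw [e3]; exact hn
  have hn2 : (2 : ℝ) ^ t * (|(((-1 : ℤ) : ℤ) : ℝ)| + 1 + 1) ≤ ((n + h : ℤ) : ℝ) := by
    have : (0 : ℝ) ≤ h := by exact_mod_cast hh
    push_cast at hn1 ⊢
    linarith
  have hlow : ∀ i ≤ t, (T 2 3 (fun _ => (-1 : ℤ)))^[i] n ≠ 1 := by
    intro i hi he
    have := orb_gt hodd zero_le_one hn1 hi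
    rw [he] at this
    norm_num at this
  have hlow' : ∀ i ≤ t, (T 2 3 (fun _ => (-1 : ℤ)))^[i] (n + h) ≠ 1 := by
    intro i hi he
    have := orb_gt hodd zero_le_one hn2 hi
    rw [he] at this
    norm_num at this
  have hhigh : ∀ i, t ≤ i → (T 2 3 (fun _ => (-1 : ℤ)))^[i] (n + h) = (T 2 3 (fun _ => (-1 : ℤ)))^[i] n := by
    intro i hi
    obtain ⟨k, rfl⟩ := Nat.exists_eq_add_of_le hi
    rw [Nat.add_comm t k, Function.iterate_add_apply, Function.iterate_add_apply, hM.1]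
  have hst : t ≤ s := by
    by_contra hcon
    exact hlow s (by omega) hs
  refine ⟨(hhigh s hst).trans hs, fun i hi => ?_⟩
  rcases le_total i t with h1 | h1
  · exact hlow' i h1
  · rw [hhigh i h1]
    exact hs' i hi

theorem three_p (hs : SWr (-1)) (hl : LevelD 2 3 (fun _ => (-1 : ℤ))) {ε : ℝ} (hε : 0 < ε) :
    ∃ δ₀ : ℝ, 0 < δ₀ ∧ ∀ δ : ℝ, δ ≤ δ₀ →
      -- whole intervals which reach `1`
      (∃ X : ℝ, ∀ x : ℝ, X ≤ x → x ^ (1 - ε) ≤ ({n : ℤ | x ≤ n ∧ (n : ℝ) < 2 * x ∧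
        ∃ s : ℕ, ∀ h : ℤ, 0 ≤ h → (h : ℝ) ≤ (n : ℝ) ^ δ → (T 2 3 (fun _ => -1))^[s] (n + h) = 1 ∧
          ∀ i < s, (T 2 3 (fun _ => -1))^[i] (n + h) ≠ 1}.ncard : ℝ)) ∧
      -- one integer in every interval
      ((∀ n : ℤ, 0 < n → ∃ t : ℕ, (T 2 3 (fun _ => -1))^[t] n = 1) ↔
        ∃ N : ℝ, ∀ n : ℤ, N ≤ n → ∃ (h : ℤ) (t : ℕ), 0 ≤ h ∧ (h : ℝ) ≤ (n : ℝ) ^ δ ∧
          (T 2 3 (fun _ => -1))^[t] (n + h) = 1) ∧
      -- whole intervals which do not reach `1`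
      ((∀ n : ℤ, 0 < n → ∃ t : ℕ, (T 2 3 (fun _ => -1))^[t] n = 1) ∨
        ∃ X : ℝ, ∀ x : ℝ, X ≤ x → x ^ (1 - ε) ≤ ({n : ℤ | x ≤ n ∧ (n : ℝ) < 2 * x ∧
        ∀ h : ℤ, 0 ≤ h → (h : ℝ) ≤ (n : ℝ) ^ δ → ∀ t : ℕ, (T 2 3 (fun _ => -1))^[t] (n + h) ≠ 1}.ncard : ℝ)) := by
  have hstd := POSB.std_three
  obtain ⟨δ₀, hδ₀, hbM, hb, -⟩ := exc_iffp (r := fun _ => (-1 : ℤ)) hstd.hr hs hl hε
  set G : Set ℤ := {n : ℤ | ∃ t : ℕ, (T 2 3 (fun _ => -1))^[t] n = 1} with hGd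
  have hG : POSB.Inv 2 3 (fun _ => (-1 : ℤ)) G := inv_reach
  obtain ⟨p, hp0, hp, hp1⟩ := POSB.three
  have hpG : PL.dens G = p := tendsto_nhds_unique (POSB.tendsto_dens hstd hG.tinv) hp
  refine ⟨δ₀, hδ₀, fun δ hδ => ?_⟩
  have hneg : (∀ n : ℤ, 0 < n → ∃ t : ℕ, (T 2 3 (fun _ => -1))^[t] n = 1) ∨
        ∃ X : ℝ, ∀ x : ℝ, X ≤ x → x ^ (1 - ε) ≤ ({n : ℤ | x ≤ n ∧ (n : ℝ) < 2 * x ∧
        ∀ h : ℤ, 0 ≤ h → (h : ℝ) ≤ (n : ℝ) ^ δ → ∀ t : ℕ, (T 2 3 (fun _ => -1))^[t] (n + h) ≠ 1}.ncard : ℝ) := by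
    by_cases hall : ∀ n : ℤ, 0 < n → ∃ t : ℕ, (T 2 3 (fun _ => -1))^[t] n = 1
    · exact Or.inl hall
    · right
      have hpne : p ≠ 1 := fun h => hall (hp1.1 h)
      have hple : p ≤ 1 := by
        refine le_of_tendsto hp ?_
        filter_upwards [eventually_gt_atTop 0] with x hx
        rw [div_le_one hx]
        exact cN_le G hx.le
      have hplt : 0 < 1 - p := by
        have := lt_of_le_of_ne hple hpne
        linarith
      have hA : Tendsto (fun x : ℝ => cN Gᶜ x / x) atTop (𝓝 (1 - p)) := by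
        have h1 := (POSB.cN_univ_tendsto (G := G ∪ Gᶜ) fun n _ => by
          rw [Set.union_compl_self]
          exact Set.mem_univ n).sub hp
        refine h1.congr fun x => ?_
        rw [POSB.cN_union disjoint_compl_right]
        ring
      have hdc : PL.dens Gᶜ = 1 - p :=
        tendsto_nhds_unique (POSB.tendsto_dens hstd hG.tinv.compl) hA
      obtain ⟨X, hX⟩ := hb 0 (1 - p) le_rfl hplt
      refine ⟨X, fun x hx => ?_⟩
      have h1 := hX Gᶜ hG.tinv.compl hdc.ge δ hδ x hx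
      refine h1.trans (le_of_eq ?_)
      congr 2
      ext n
      simp only [Win, Set.mem_ofPred_eq, hGd, Set.mem_compl_iff, not_exists]
      have hdv : ∀ h : ℤ, (-1 : ℤ) ∣ h := fun h => ⟨-h, by ring⟩
      simp only [hdv, true_implies]
  refine ⟨?_, ?_, hneg⟩
  · obtain ⟨X, hX⟩ := hbM 0 p le_rfl hp0
    refine ⟨max X 9, fun x hx => ?_⟩
    have hx9 : 9 ≤ x := (le_max_right _ _).trans hx
    have h1 := hX G hG.tinv hpG.ge δ hδ x ((le_max_left _ _).trans hx)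
    refine h1.trans ?_
    have hfin : {n : ℤ | x ≤ n ∧ (n : ℝ) < 2 * x ∧
        ∃ s : ℕ, ∀ h : ℤ, 0 ≤ h → (h : ℝ) ≤ (n : ℝ) ^ δ → (T 2 3 (fun _ => -1))^[s] (n + h) = 1 ∧
          ∀ i < s, (T 2 3 (fun _ => -1))^[i] (n + h) ≠ 1}.Finite := by
      refine (Set.finite_Icc ⌈x⌉ ⌊2 * x⌋).subset ?_
      rintro n ⟨h1, h2, -⟩
      exact ⟨Int.ceil_le.2 h1, Int.le_floor.2 h2.le⟩
    have hsub : WinM ((fun _ => (-1 : ℤ)) 1) ε δ G x ⊆ {n : ℤ | x ≤ n ∧ (n : ℝ) < 2 * x ∧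
        ∃ s : ℕ, ∀ h : ℤ, 0 ≤ h → (h : ℝ) ≤ (n : ℝ) ^ δ → (T 2 3 (fun _ => -1))^[s] (n + h) = 1 ∧
          ∀ i < s, (T 2 3 (fun _ => -1))^[i] (n + h) ≠ 1} := by
      rintro n ⟨h2, h3, t, -, ht, h4⟩
      have hdv : ∀ h : ℤ, (-1 : ℤ) ∣ h := fun h => ⟨-h, by ring⟩
      have hn0 : (0 : ℝ) ≤ n := by linarith
      have hnG : ∃ s : ℕ, (T 2 3 (fun _ => (-1 : ℤ)))^[s] n = 1 := by
        have h5 := (h4 0 le_rfl (hdv 0) (by
          push_cast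
          exact Real.rpow_nonneg hn0 _)).1
        rw [add_zero] at h5
        exact h5
      have hnt : (2 : ℝ) ^ t * 3 ≤ n := by
        have h5 : (3 : ℝ) ≤ Real.sqrt x := by
          rw [show (3 : ℝ) = Real.sqrt 9 by rw [show (9 : ℝ) = 3 ^ 2 by norm_num, Real.sqrt_sq (by norm_num)]]
          exact Real.sqrt_le_sqrt hx9
        calc (2 : ℝ) ^ t * 3 ≤ Real.sqrt x * Real.sqrt x := mul_le_mul ht h5 (by norm_num) (Real.sqrt_nonneg x)
          _ = x := Real.mul_self_sqrt (by linarith)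
          _ ≤ n := h2
      refine ⟨h2, h3, Nat.find hnG, fun h hh hle => ?_⟩
      exact same_height hnt hh (h4 h hh (hdv h) hle).2 (Nat.find_spec hnG) fun i hi => Nat.find_min hnG hi
    exact_mod_cast Set.ncard_le_ncard hsub hfin
  · constructor
    · intro hall
      refine ⟨1, fun n hn => ?_⟩
      obtain ⟨t, ht⟩ := hall n (by
        have : (1 : ℤ) ≤ n := by exact_mod_cast hn
        omega)
      refine ⟨0, t, le_refl _, ?_, ?_⟩
      · push_cast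
        exact Real.rpow_nonneg (by linarith) _
      · rw [add_zero]
        exact ht
    · rintro ⟨N, hN⟩
      rcases hneg with h | ⟨X, hX⟩
      · exact h
      · exfalso
        have h1 := hX (max (max X N) 1) ((le_max_left _ _).trans (le_max_left _ _))
        have h2 : (0 : ℝ) < (max (max X N) 1) ^ (1 - ε) := Real.rpow_pos_of_pos (by positivity) _
        have h3 : ({n : ℤ | max (max X N) 1 ≤ n ∧ (n : ℝ) < 2 * max (max X N) 1 ∧
            ∀ h : ℤ, 0 ≤ h → (h : ℝ) ≤ (n : ℝ) ^ δ → ∀ t : ℕ, (T 2 3 (fun _ => -1))^[t] (n + h) ≠ 1}).Nonempty := by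
          by_contra hcon
          rw [Set.not_nonempty_iff_eq_empty] at hcon
          rw [hcon, Set.ncard_empty, Nat.cast_zero] at h1
          linarith
        obtain ⟨n, hn1, hn2, hn3⟩ := h3
        obtain ⟨h, t, hh0, hhc, ht⟩ := hN n (((le_max_right X N).trans (le_max_left _ _)).trans hn1)
        exact hn3 h hh0 hhc t ht

end Pool.Agent.Helper8.PW
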