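import Pool.Agent.Helper8.PW.XDef
import Pool.Agent.Helper8.CO.Wt

/-!
# The potential of a pair for the biased digits

`X (c, β) = ∑_{j < c} b j + wt (c, β)` for `c ≥ 1`, `X (0, β) = 0`, where `b n = (49 / 51) b (n + 1) + 2 (vv n + vv (n + 2) + 3)`.
-/

set_option autoImplicit false

namespace Pool.Agent.Helper8.PW

open Pool.Agent.Helper68.Moeller Pool.Agent.Helper8.CO Finset

private theorem three_pow15 {c : ℕ} (hc : 1 ≤ c) : 3 ^ c - 1 ≠ 0 := by
  have h : 3 ^ 1 ≤ 3 ^ c := Nat.pow_le_pow_right (by norm_num) hc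
  omega

private theorem vv_dvd15 (c : ℕ) : (2 : ℤ) ^ vv c ∣ (3 : ℤ) ^ c - 1 := by
  have h : 2 ^ vv c ∣ 3 ^ c - 1 := pow_padicValNat_dvd
  have h1 : 1 ≤ 3 ^ c := Nat.one_le_pow _ _ (by norm_num)
  have h2 := Int.natCast_dvd_natCast.2 h
  rw [Nat.cast_sub h1] at h2
  push_cast at h2
  exact h2

private theorem vv_not15 {c : ℕ} (hc : 1 ≤ c) : ¬ (2 : ℤ) ^ (vv c + 1) ∣ (3 : ℤ) ^ c - 1 := by
  intro h
  have h1 : 1 ≤ 3 ^ c := Nat.one_le_pow _ _ (by norm_num)
  have h2 : ((2 ^ (vv c + 1) : ℕ) : ℤ) ∣ ((3 ^ c - 1 : ℕ) : ℤ) := by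
    rw [Nat.cast_sub h1]
    push_cast
    exact h
  exact pow_succ_padicValNat_not_dvd (three_pow15 hc) (Int.natCast_dvd_natCast.1 h2)

private theorem dvd_two15 {j : ℕ} {x : ℤ} : (2 : ℤ) ^ (j + 1) ∣ 2 * x ↔ (2 : ℤ) ^ j ∣ x := by
  rw [pow_succ', mul_dvd_mul_iff_left (by norm_num)]

private theorem dvd_three15 {j : ℕ} {x : ℤ} : (2 : ℤ) ^ j ∣ 3 * x ↔ (2 : ℤ) ^ j ∣ x := by
  constructor
  · intro h
    have h23 : IsCoprime (2 : ℤ) 3 := by
      refine ⟨-1, 1, by norm_num⟩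
    exact (h23.pow_left).dvd_of_dvd_mul_left h
  · intro h
    exact Dvd.dvd.mul_left h 3

private theorem val_eq15 {b : ℤ} {i : ℕ} (h1 : (2 : ℤ) ^ i ∣ b) (h2 : ¬ (2 : ℤ) ^ (i + 1) ∣ b) :
    padicValInt 2 b = i := by
  have hb : b ≠ 0 := by
    rintro rfl
    exact h2 (dvd_zero _)
  have e1 := (padicValInt_dvd_iff (p := 2) i b).1 (by exact_mod_cast h1)
  have e2 : ¬ (i + 1 ≤ padicValInt 2 b) := fun h => h2 (by
    have h3 := (padicValInt_dvd_iff (p := 2) (i + 1) b).2 (Or.inr h)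
    exact_mod_cast h3)
  rcases e1 with e1 | e1
  · exact absurd e1 hb
  · omega

private theorem val_spec15 {b : ℤ} (hb : b ≠ 0) :
    (2 : ℤ) ^ padicValInt 2 b ∣ b ∧ ¬ (2 : ℤ) ^ (padicValInt 2 b + 1) ∣ b := by
  constructor
  · have h3 := (padicValInt_dvd_iff (p := 2) (padicValInt 2 b) b).2 (Or.inr le_rfl)
    exact_mod_cast h3
  · intro h
    have h3 := (padicValInt_dvd_iff (p := 2) (padicValInt 2 b + 1) b).1 (by exact_mod_cast h)
    rcases h3 with h3 | h3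
    · exact hb h3
    · omega

private theorem wt_dvd15 {c : ℕ} {b : ℤ} (hc : 1 ≤ c) (h : (2 : ℤ) ^ vv c ∣ b) :
    wt (c, b) = (vv c : ℝ) + 1 := by
  unfold wt
  rw [if_neg (by change ¬ c = 0; omega), if_pos h]

private theorem wt_not15 {c : ℕ} {b : ℤ} (hc : 1 ≤ c) (h : ¬ (2 : ℤ) ^ vv c ∣ b) :
    wt (c, b) = (padicValInt 2 b : ℝ) := by
  unfold wt
  rw [if_neg (by change ¬ c = 0; omega), if_neg h]

private theorem wt_val15 {c : ℕ} {b : ℤ} {i : ℕ} (hc : 1 ≤ c) (h1 : (2 : ℤ) ^ i ∣ b)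
    (h2 : ¬ (2 : ℤ) ^ (i + 1) ∣ b) (hi : i < vv c) : wt (c, b) = (i : ℝ) := by
  rw [wt_not15 hc fun h => h2 (dvd_trans (pow_dvd_pow 2 hi) h), val_eq15 h1 h2]

private theorem vv_log15 {c : ℕ} (hc : 1 ≤ c) : ((vv c : ℕ) : ℝ) ≤ 2 + 3 / 2 * Real.log c := by
  have h1 : (2 : ℝ) ^ vv c ≤ 4 * c := by exact_mod_cast two_pow_vv_le hc
  have hc1 : (1 : ℝ) ≤ c := by exact_mod_cast hc
  have h2 : Real.log ((2 : ℝ) ^ vv c) ≤ Real.log (4 * c) := Real.log_le_log (by positivity) h1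
  have h4 : Real.log 4 = 2 * Real.log 2 := by
    rw [show (4 : ℝ) = 2 ^ 2 by norm_num, Real.log_pow]
    norm_num
  rw [Real.log_pow, Real.log_mul (by norm_num) (by positivity), h4] at h2
  have h3 := Real.log_two_gt_d9
  have h5 := Real.log_nonneg hc1
  by_contra hcon
  push Not at hcon
  have h6 : 3 / 2 * Real.log c < (vv c : ℝ) - 2 := by linarith
  have h7 : 3 / 2 * Real.log c * Real.log 2 < ((vv c : ℝ) - 2) * Real.log 2 :=
    mul_lt_mul_of_pos_right h6 (by linarith)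
  nlinarith

/-! ### The waiting time under the bias -/

private theorem wt_diff15 {s : ℕ × ℤ} (hs : Even s.2) (h0 : 1 ≤ s.1) : wt (nx0 s) ≤ wt (nx1 s) + 2 := by
  obtain ⟨c, b⟩ := s
  change Even b at hs
  change 1 ≤ c at h0
  obtain ⟨t, ht⟩ := hs
  have hb : b = 2 * t := by omega
  subst hb
  clear ht
  have n0 : nx0 (c, 2 * t) = (c, t) := by
    rw [nx0_even (even_two_mul t), Int.mul_ediv_cancel_left _ (by norm_num)]
  obtain ⟨u, hu⟩ : ∃ u, vv c = u + 1 := ⟨vv c - 1, by have := vv_pos h0; omega⟩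
  have g1 := vv_dvd15 c
  have g2 := vv_not15 h0
  obtain ⟨r, hr⟩ : ∃ r, (3 : ℤ) ^ c - 1 = 2 * r :=
    dvd_trans (dvd_pow_self 2 (by omega)) g1
  rw [hr, hu] at g1 g2
  have r1 : (2 : ℤ) ^ u ∣ r := dvd_two15.1 g1
  have r2 : ¬ (2 : ℤ) ^ (u + 1) ∣ r := fun h => g2 (dvd_two15.2 h)
  have n1 : nx1 (c, 2 * t) = (c, 3 * t + r) := by
    rw [nx1_even (even_two_mul t)]
    have : 3 * (2 * t) + (3 : ℤ) ^ c - 1 = 2 * (3 * t + r) := by
      linarith
    rw [this, Int.mul_ediv_cancel_left _ (by norm_num)]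
  rw [n0, n1]
  have hvR : (vv c : ℝ) = (u : ℝ) + 1 := by
    rw [hu]
    push_cast
    ring
  by_cases hA : (2 : ℤ) ^ vv c ∣ 2 * t
  · rw [hu] at hA
    have t1 : (2 : ℤ) ^ u ∣ t := dvd_two15.1 hA
    by_cases hB : (2 : ℤ) ^ (u + 1) ∣ t
    · rw [wt_dvd15 h0 (by rw [hu]; exact hB)]
      have k1 : (2 : ℤ) ^ u ∣ 3 * t + r := dvd_add (dvd_three15.2 t1) r1
      have k2 : ¬ (2 : ℤ) ^ (u + 1) ∣ 3 * t + r := fun h =>
        r2 ((dvd_add_right (dvd_three15.2 hB)).1 h)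
      rw [wt_val15 h0 k1 k2 (by omega)]
      linarith
    · rw [wt_val15 h0 t1 hB (by omega)]
      have k1 : (2 : ℤ) ^ u ∣ 3 * t + r := dvd_add (dvd_three15.2 t1) r1
      by_cases hC : (2 : ℤ) ^ vv c ∣ 3 * t + r
      · rw [wt_dvd15 h0 hC]
        linarith
      · rw [wt_val15 h0 k1 (by rw [hu] at hC; exact hC) (by omega)]
        linarith
  · have ht : t ≠ 0 := by
      rintro rfl
      exact hA (by rw [mul_zero]; exact dvd_zero _)
    obtain ⟨h1, h2⟩ := val_spec15 ht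
    have hlt : padicValInt 2 t + 1 < vv c := by
      by_contra hcon
      exact hA (dvd_trans (pow_dvd_pow 2 (not_lt.1 hcon)) (dvd_two15.2 h1))
    have k1 : (2 : ℤ) ^ padicValInt 2 t ∣ 3 * t + r :=
      dvd_add (dvd_three15.2 h1) (dvd_trans (pow_dvd_pow 2 (by omega)) r1)
    have k2 : ¬ (2 : ℤ) ^ (padicValInt 2 t + 1) ∣ 3 * t + r := fun h =>
      h2 (dvd_three15.1 ((dvd_add_left (dvd_trans (pow_dvd_pow 2 (by omega)) r1)).1 h))
    rw [wt_val15 h0 h1 h2 (by omega), wt_val15 h0 k1 k2 (by omega)]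
    linarith

private theorem wt_avb15 {s : ℕ × ℤ} (hs : Even s.2) (h0 : 1 ≤ s.1) :
    (51 * wt (nx0 s) + 49 * wt (nx1 s)) / 100 ≤ wt s - 1 / 2 := by
  have h1 := wt_diff15 hs h0
  have h2 := wt_step hs (by
    rintro rfl
    simp at h0)
  rw [av] at h2
  linarith

/-! ### Sums of `vv` -/

private theorem vv_zero15 : vv 0 = 0 := by
  unfold vv
  simp

private theorem vv_le15 {c : ℕ} (hc : 1 ≤ c) : vv c ≤ padicValNat 2 c + 2 := by
  rcases Nat.even_or_odd c with he | ho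
  · have h1 := padicValNat.pow_two_sub_pow (x := 3) (y := 1) (by norm_num) (by norm_num)
      (by norm_num) (n := c) (by omega) he
    have h2 : padicValNat 2 (3 + 1) = 2 := by
      have : (3 + 1 : ℕ) = 2 ^ 2 := by norm_num
      rw [this, padicValNat.prime_pow]
    have h3 : padicValNat 2 (3 - 1) = 1 := by
      have : (3 - 1 : ℕ) = 2 := by norm_num
      rw [this]
      exact padicValNat.self (by norm_num)
    rw [one_pow, h2, h3] at h1
    unfold vv
    omega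
  · have h1 : vv c ≤ 1 := by
      by_contra hcon
      have h2 : 2 ^ vv c ∣ 3 ^ c - 1 := pow_padicValNat_dvd
      have h3 : 2 ^ 2 ∣ 3 ^ c - 1 := dvd_trans (pow_dvd_pow 2 (by omega)) h2
      obtain ⟨k, hk⟩ := ho
      have h4 : 3 ^ c % 4 = 3 := by
        rw [hk, pow_succ, pow_mul, Nat.mul_mod, Nat.pow_mod]
        norm_num
      have h5 : (2 : ℕ) ^ 2 = 4 := by norm_num
      rw [h5] at h3
      clear hk h2 hcon
      generalize 3 ^ c = X at h3 h4
      omega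
    omega

private theorem fact15 (n : ℕ) : padicValNat 2 n.factorial ≤ n := by
  have h := sub_one_mul_padicValNat_factorial (p := 2) n
  omega

private theorem sum_vv15 (n : ℕ) : ∑ j ∈ range n, vv (j + 1) ≤ padicValNat 2 n.factorial + 2 * n := by
  induction n with
  | zero => simp
  | succ n ih =>
    rw [sum_range_succ, Nat.factorial_succ, padicValNat.mul (by omega) (Nat.factorial_ne_zero n)]
    have := vv_le15 (c := n + 1) (by omega)
    omega

private theorem sum_vv15' (n i : ℕ) : ∑ j ∈ range n, vv (j + i) ≤ 3 * (n + i) := by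
  have h1 : ∑ j ∈ range n, vv (j + i) ≤ ∑ j ∈ range (n + i), vv j := by
    rw [Finset.range_eq_Ico, Finset.sum_Ico_add' (fun j => vv j) 0 n i]
    refine Finset.sum_le_sum_of_subset fun x hx => ?_
    rw [Finset.mem_Ico] at hx
    rw [Finset.mem_range]
    omega
  have h2 : ∑ j ∈ range (n + i), vv j ≤ ∑ j ∈ range (n + i), vv (j + 1) := by
    rcases Nat.eq_zero_or_pos (n + i) with h | h
    · rw [h]
      simp
    · obtain ⟨m, hm⟩ : ∃ m, n + i = m + 1 := ⟨n + i - 1, by omega⟩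
      rw [hm, sum_range_succ' (fun j => vv j), vv_zero15, sum_range_succ (fun j => vv (j + 1))]
      omega
  have h3 := sum_vv15 (n + i)
  have h4 := fact15 (n + i)
  omega

private theorem log_ge15 (n : ℕ) : 1 ≤ Real.log ((n : ℝ) + 3) := by
  rw [Real.le_log_iff_exp_le (by positivity)]
  have := Real.exp_one_lt_d9
  have h : (0 : ℝ) ≤ n := Nat.cast_nonneg n
  linarith

private theorem vv_log' (c : ℕ) : ((vv c : ℕ) : ℝ) ≤ 2 + 3 / 2 * Real.log (c + 1) := by
  rcases Nat.eq_zero_or_pos c with rfl | hc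
  · rw [vv_zero15]
    simp
  · have h := vv_log15 hc
    have h1 : Real.log (c : ℝ) ≤ Real.log (c + 1) :=
      Real.log_le_log (by exact_mod_cast hc) (by linarith)
    linarith

/-! ### The increments -/

private noncomputable def tm15 (n i : ℕ) : ℝ := (49 / 51 : ℝ) ^ i * (2 * ((vv (n + i) : ℝ) + vv (n + i + 2) + 3))

private noncomputable def bb15 (n : ℕ) : ℝ := ∑' i, tm15 n i

private theorem tm_nonneg15 (n i : ℕ) : 0 ≤ tm15 n i := by unfold tm15; positivity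

private theorem dom_summable15 : Summable fun i : ℕ => (49 / 51 : ℝ) ^ i * (40 + 12 * i) := by
  have h1 : Summable fun i : ℕ => (49 / 51 : ℝ) ^ i := summable_geometric_of_lt_one (by norm_num) (by norm_num)
  have h2 : Summable fun i : ℕ => ((i : ℝ) ^ 1) * (49 / 51 : ℝ) ^ i :=
    summable_pow_mul_geometric_of_norm_lt_one 1 (by norm_num)
  have h3 := (h1.mul_left 40).add (h2.mul_left 12)
  refine h3.congr fun i => ?_
  ring

private theorem tm_le15 (n i : ℕ) : tm15 n i ≤ (49 / 51 : ℝ) ^ i * (40 + 12 * i) * Real.log (n + 3) := by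
  unfold tm15
  rw [mul_assoc]
  refine mul_le_mul_of_nonneg_left ?_ (by positivity)
  have h1 := vv_log' (n + i)
  have h2 := vv_log' (n + i + 2)
  have hn : (0 : ℝ) ≤ n := Nat.cast_nonneg n
  have hi : (0 : ℝ) ≤ i := Nat.cast_nonneg i
  have h3 : Real.log (((n + i + 2 : ℕ) : ℝ) + 1) ≤ Real.log (n + 3) + (i + 1) := by
    have h4 : (((n + i + 2 : ℕ) : ℝ) + 1) ≤ (n + 3) * (i + 2) := by
      push_cast
      nlinarith
    have h5 := Real.log_le_log (by positivity) h4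
    rw [Real.log_mul (by positivity) (by positivity)] at h5
    have h6 : Real.log ((i : ℝ) + 2) ≤ i + 1 := by
      have := Real.log_le_sub_one_of_pos (show (0 : ℝ) < i + 2 by positivity)
      linarith
    linarith
  have h4 : Real.log (((n + i : ℕ) : ℝ) + 1) ≤ Real.log (((n + i + 2 : ℕ) : ℝ) + 1) :=
    Real.log_le_log (by positivity) (by push_cast; linarith)
  have h5 := log_ge15 n
  nlinarith

private theorem tm_summable15 (n : ℕ) : Summable (tm15 n) :=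
  Summable.of_nonneg_of_le (tm_nonneg15 n) (tm_le15 n) (dom_summable15.mul_right _)

private theorem bb_nonneg15 (n : ℕ) : 0 ≤ bb15 n := tsum_nonneg (tm_nonneg15 n)

private theorem bb_rec15 (n : ℕ) : bb15 n = 2 * ((vv n : ℝ) + vv (n + 2) + 3) + 49 / 51 * bb15 (n + 1) := by
  have h := (tm_summable15 n).tsum_eq_zero_add
  unfold bb15
  rw [h, ← tsum_mul_left]
  congr 1
  · unfold tm15
    simp
  · refine tsum_congr fun i => ?_
    unfold tm15
    rw [pow_succ, show n + (i + 1) = n + 1 + i by ring]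
    ring

private theorem bb_log15 : ∃ C : ℝ, 1 ≤ C ∧ ∀ n : ℕ, bb15 n ≤ C * Real.log (n + 3) := by
  refine ⟨max 1 (∑' i : ℕ, (49 / 51 : ℝ) ^ i * (40 + 12 * i)), le_max_left _ _, fun n => ?_⟩
  have h1 : bb15 n ≤ (∑' i : ℕ, (49 / 51 : ℝ) ^ i * (40 + 12 * i)) * Real.log (n + 3) := by
    rw [← tsum_mul_right]
    exact (tm_summable15 n).tsum_le_tsum (tm_le15 n) (dom_summable15.mul_right _)
  have h2 := log_ge15 n
  have h3 := le_max_right 1 (∑' i : ℕ, (49 / 51 : ℝ) ^ i * (40 + 12 * i))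
  nlinarith

private theorem bb_sum15 : ∃ C : ℝ, 1 ≤ C ∧ ∀ c : ℕ, ∑ j ∈ range c, bb15 j ≤ C * c := by
  refine ⟨max 1 (∑' i : ℕ, (49 / 51 : ℝ) ^ i * (40 + 12 * i)), le_max_left _ _, fun c => ?_⟩
  have h3 := le_max_right 1 (∑' i : ℕ, (49 / 51 : ℝ) ^ i * (40 + 12 * i))
  rcases Nat.eq_zero_or_pos c with rfl | hc
  · simp
  have hc1 : (1 : ℝ) ≤ c := by exact_mod_cast hc
  have h1 : ∑ j ∈ range c, bb15 j = ∑' i, ∑ j ∈ range c, tm15 j i := by
    unfold bb15
    exact (Summable.tsum_finsetSum fun j _ => tm_summable15 j).symm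
  have h2 : ∀ i, ∑ j ∈ range c, tm15 j i ≤ (49 / 51 : ℝ) ^ i * (40 + 12 * i) * c := by
    intro i
    have e1 : ∑ j ∈ range c, tm15 j i =
        (49 / 51 : ℝ) ^ i * (2 * (((∑ j ∈ range c, vv (j + i) : ℕ) : ℝ) + ((∑ j ∈ range c, vv (j + (i + 2)) : ℕ) : ℝ) + 3 * c)) := by
      unfold tm15
      rw [← mul_sum, ← mul_sum, sum_add_distrib, sum_add_distrib]
      push_cast
      rw [sum_const, card_range, nsmul_eq_mul]
      ring_nf
    rw [e1, mul_assoc]
    refine mul_le_mul_of_nonneg_left ?_ (by positivity)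
    have e2 : ((∑ j ∈ range c, vv (j + i) : ℕ) : ℝ) ≤ 3 * (c + i) := by exact_mod_cast sum_vv15' c i
    have e3 : ((∑ j ∈ range c, vv (j + (i + 2)) : ℕ) : ℝ) ≤ 3 * (c + (i + 2)) := by exact_mod_cast sum_vv15' c (i + 2)
    have hi : (0 : ℝ) ≤ i := Nat.cast_nonneg i
    nlinarith
  have hs : Summable fun i => ∑ j ∈ range c, tm15 j i := summable_sum fun j _ => tm_summable15 j
  have h4 : ∑ j ∈ range c, bb15 j ≤ (∑' i : ℕ, (49 / 51 : ℝ) ^ i * (40 + 12 * i)) * c := by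
    rw [h1, ← tsum_mul_right]
    exact hs.tsum_le_tsum h2 (dom_summable15.mul_right _)
  nlinarith

/-! ### The potential -/

private noncomputable def XX15 (s : ℕ × ℤ) : ℝ := if s.1 = 0 then 0 else ∑ j ∈ range s.1, bb15 j + wt s

private theorem sum_nonneg15 (c : ℕ) : 0 ≤ ∑ j ∈ range c, bb15 j := sum_nonneg fun j _ => bb_nonneg15 j

private theorem XX_nonneg15 (s : ℕ × ℤ) : 0 ≤ XX15 s := by
  unfold XX15
  split_ifs
  · exact le_refl _
  · have := sum_nonneg15 s.1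
    have := wt_nonneg s
    linarith

private theorem XX_ge15 (s : ℕ × ℤ) : ∑ j ∈ range s.1, bb15 j ≤ XX15 s := by
  unfold XX15
  split_ifs with h
  · rw [h]
    simp
  · linarith [wt_nonneg s]

private theorem XX_le15 (s : ℕ × ℤ) : XX15 s ≤ ∑ j ∈ range s.1, bb15 j + (vv s.1 + 1) := by
  unfold XX15
  split_ifs with h
  · have := sum_nonneg15 s.1
    positivity
  · linarith [wt_le_vv (s := s) (by omega)]

private theorem avb_XX15 (s : ℕ × ℤ) (hs : s.1 ≠ 0) : avb XX15 s ≤ XX15 s - 1 / 2 := by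
  obtain ⟨c, b⟩ := s
  change c ≠ 0 at hs
  unfold avb
  by_cases hb : Even b
  · rw [if_pos hb]
    have h1 := wt_avb15 (s := (c, b)) hb (by change 1 ≤ c; omega)
    have h2 : XX15 (nx0 (c, b)) = ∑ j ∈ range c, bb15 j + wt (nx0 (c, b)) := by
      rw [nx0_even hb]
      exact if_neg hs
    have h3 : XX15 (nx1 (c, b)) = ∑ j ∈ range c, bb15 j + wt (nx1 (c, b)) := by
      rw [nx1_even hb]
      exact if_neg hs
    have h4 : XX15 (c, b) = ∑ j ∈ range c, bb15 j + wt (c, b) := if_neg hs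
    rw [h2, h3, h4]
    linarith
  · rw [if_neg hb]
    obtain ⟨n, rfl⟩ : ∃ n, c = n + 1 := ⟨c - 1, by omega⟩
    have h2 := XX_le15 (nx0 (n + 1, b))
    have h3 := XX_le15 (nx1 (n + 1, b))
    rw [nx0_odd hb] at h2 ⊢
    rw [nx1_odd hb hs] at h3 ⊢
    have h4 := XX_ge15 (n + 1, b)
    change XX15 (n + 1 + 1, (3 * b - 1) / 2) ≤ ∑ j ∈ range (n + 1 + 1), bb15 j + (vv (n + 2) + 1) at h2
    change XX15 (n, (b + (3 : ℤ) ^ n) / 2) ≤ ∑ j ∈ range n, bb15 j + (vv n + 1) at h3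
    change ∑ j ∈ range (n + 1), bb15 j ≤ XX15 (n + 1, b) at h4
    change (49 * XX15 (n + 1 + 1, (3 * b - 1) / 2) + 51 * XX15 (n, (b + (3 : ℤ) ^ n) / 2)) / 100 ≤ _
    rw [sum_range_succ, sum_range_succ] at h2
    rw [sum_range_succ] at h4
    have h5 := bb_rec15 n
    have h6 : (0 : ℝ) ≤ vv n := Nat.cast_nonneg _
    have h7 : (0 : ℝ) ≤ vv (n + 2) := Nat.cast_nonneg _
    linarith

/-- The potential. -/
theorem exists_X : ∃ (X : ℕ × ℤ → ℝ) (κ C : ℝ), 0 < κ ∧ 1 ≤ C ∧ (∀ s, 0 ≤ X s) ∧ (∀ b, X (0, b) = 0) ∧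
    (∀ s, s.1 ≠ 0 → avb X s ≤ X s - κ) ∧ (∀ s, X s ≤ C * s.1) ∧
    (∀ (s s' : ℕ × ℤ) (k : ℕ), s'.1 ≤ s.1 + k → X s' ≤ X s + C * (k + 1) * Real.log (s.1 + k + 3)) := by
  obtain ⟨C1, hC1, hl⟩ := bb_log15
  obtain ⟨C2, hC2, hs⟩ := bb_sum15
  refine ⟨XX15, 1 / 2, C1 + C2 + 5, by norm_num, by linarith, XX_nonneg15, fun b => if_pos rfl, avb_XX15, ?_, ?_⟩
  · rintro ⟨c, b⟩
    change XX15 (c, b) ≤ (C1 + C2 + 5) * (c : ℝ)
    rcases Nat.eq_zero_or_pos c with rfl | hc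
    · rw [show XX15 (0, b) = 0 from if_pos rfl]
      simp
    · have h1 := XX_le15 (c, b)
      have h2 := hs c
      have h3 : ((vv c : ℕ) : ℝ) ≤ 4 * c := by
        have h4 := two_pow_vv_le hc
        have h5 : vv c < 2 ^ vv c := Nat.lt_two_pow_self
        have h6 : vv c ≤ 4 * c := by omega
        exact_mod_cast h6
      have hc1 : (1 : ℝ) ≤ c := by exact_mod_cast hc
      change XX15 (c, b) ≤ ∑ j ∈ range c, bb15 j + (vv c + 1) at h1
      nlinarith
  · intro s s' k hk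
    have h1 := XX_le15 s'
    have h2 := XX_ge15 s
    have hk0 : (0 : ℝ) ≤ k := Nat.cast_nonneg k
    have hs0 : (0 : ℝ) ≤ s.1 := Nat.cast_nonneg s.1
    have hL : 1 ≤ Real.log ((s.1 : ℝ) + k + 3) := by
      have := log_ge15 (s.1 + k)
      push_cast at this
      exact this
    have h3 : ∑ j ∈ range s'.1, bb15 j ≤ ∑ j ∈ range (s.1 + k), bb15 j :=
      sum_le_sum_of_subset_of_nonneg (range_mono hk) fun j _ _ => bb_nonneg15 j
    have h4 : ∑ j ∈ range (s.1 + k), bb15 j ≤ ∑ j ∈ range s.1, bb15 j + k * (C1 * Real.log (s.1 + k + 3)) := by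
      rw [sum_range_add]
      have e1 : ∑ x ∈ range k, bb15 (s.1 + x) ≤ ∑ _x ∈ range k, C1 * Real.log (s.1 + k + 3) := by
        refine sum_le_sum fun x hx => ?_
        rw [mem_range] at hx
        have e2 := hl (s.1 + x)
        have e3 : Real.log (((s.1 + x : ℕ) : ℝ) + 3) ≤ Real.log (s.1 + k + 3) := by
          have e4 : (x : ℝ) ≤ k := by exact_mod_cast hx.le
          push_cast
          exact Real.log_le_log (by positivity) (by linarith)
        nlinarith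
      rw [sum_const, card_range, nsmul_eq_mul] at e1
      linarith
    have h5 : ((vv s'.1 : ℕ) : ℝ) ≤ 2 + 3 / 2 * Real.log (s.1 + k + 3) := by
      have e1 := vv_log' s'.1
      have e2 : Real.log ((s'.1 : ℝ) + 1) ≤ Real.log (s.1 + k + 3) := by
        have e3 : (s'.1 : ℝ) ≤ s.1 + k := by exact_mod_cast hk
        exact Real.log_le_log (by positivity) (by linarith)
      linarith
    set L := Real.log ((s.1 : ℝ) + k + 3) with hLd
    have h6 : C1 * k * L ≤ (C1 + C2 + 5) * k * L := by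
      have : 0 ≤ k * L := by positivity
      nlinarith
    have h7 : 3 + 3 / 2 * L ≤ (C1 + C2 + 5) * L := by nlinarith
    nlinarith

end Pool.Agent.Helper8.PW
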