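import Pool.Agent.Helper8.PW.LDef

/-!
# The classes modulo `m ^ k`

`class_flow`: the integers `n ≡ b (mod m ^ k)` of `[a, 2a)` are sent by `T^[t]` to every set `G` in the same
proportion for all `b`, `k ≤ κ t` (LDC).
-/

set_option autoImplicit false

namespace Pool.Agent.Helper8.PW

open Pool.Agent.Helper68.Moeller Pool.Agent.Helper52.Tao Pool.Agent.Helper8.ND

/-- Counting the points of a class modulo `m ^ k` of `[A, 2A)` whose `t`-th iterate is in `G`. -/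
theorem card_image_class {d m : ℕ} (hd : 2 ≤ d) (hdm : d < m) (hco : Nat.Coprime m d) {r : ℤ → ℤ}
    (hr : Admissible d m r) {B : ℕ} (hB : ∀ j : ℤ, 0 < j → j < (d : ℤ) → |r j| ≤ B)
    {e : ℤ} {t k : ℕ} (he : (m : ℤ) ^ (t + k) ∣ (d : ℤ) * e - 1) (G : Set ℤ) (b : ℤ) (A : ℝ) :
    |(({n : ℤ | A ≤ n ∧ (n : ℝ) < 2 * A ∧ (m : ℤ) ^ k ∣ n - b ∧ (T d m r)^[t] n ∈ G}.ncard : ℕ) : ℝ) -
      ∑ w ∈ W d t, cG G (A * (m : ℝ) ^ sg w / (d : ℝ) ^ t) ((m : ℤ) ^ (sg w + k))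
        (F m r e w + (m : ℤ) ^ sg w * e ^ t * b)| ≤
      2 * (d : ℝ) ^ t * (B * (m : ℝ) ^ t + 1) := by
  classical
  have hdR : (0 : ℝ) < (d : ℝ) ^ t := by positivity
  have hd1 : (1 : ℝ) ≤ (d : ℝ) ^ t := one_le_pow₀ (by exact_mod_cast (by omega : 1 ≤ d))
  -- the points with a given word
  let S : List ℕ → Set ℤ := fun w => {n : ℤ | (A ≤ n ∧ (n : ℝ) < 2 * A ∧ (m : ℤ) ^ k ∣ n - b ∧
    (T d m r)^[t] n ∈ G) ∧ wd d m r t n = w}
  have hSf : ∀ w, (S w).Finite := fun w =>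
    (finite_Ico A (2 * A)).subset (fun k hk => ⟨hk.1.1, hk.1.2.1⟩)
  have hf : {n : ℤ | A ≤ n ∧ (n : ℝ) < 2 * A ∧ (m : ℤ) ^ k ∣ n - b ∧ (T d m r)^[t] n ∈ G}.Finite :=
    (finite_Ico A (2 * A)).subset (fun k hk => ⟨hk.1, hk.2.1⟩)
  have hcard : (({n : ℤ | A ≤ n ∧ (n : ℝ) < 2 * A ∧ (m : ℤ) ^ k ∣ n - b ∧
      (T d m r)^[t] n ∈ G}.ncard : ℕ) : ℝ) = ∑ w ∈ W d t, ((S w).ncard : ℝ) := by
    have h1 : {n : ℤ | A ≤ n ∧ (n : ℝ) < 2 * A ∧ (m : ℤ) ^ k ∣ n - b ∧
        (T d m r)^[t] n ∈ G}.ncard = ∑ w ∈ W d t, (S w).ncard := by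
      rw [Set.ncard_eq_toFinset_card _ hf]
      rw [Finset.card_eq_sum_card_fiberwise (f := wd d m r t) (t := W d t)
        (fun n _ => wd_mem hd r t n)]
      refine Finset.sum_congr rfl fun w _ => ?_
      rw [Set.ncard_eq_toFinset_card _ (hSf w)]
      congr 1
      ext n
      simp only [Finset.mem_filter, Set.Finite.mem_toFinset, S, Set.mem_ofPred_eq]
    rw [h1]
    push_cast
    rfl
  rw [hcard, ← Finset.sum_sub_distrib]
  refine (Finset.abs_sum_le_sum_abs _ _).trans ?_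
  have hterm : ∀ w ∈ W d t, |((S w).ncard : ℝ) -
      cG G (A * (m : ℝ) ^ sg w / (d : ℝ) ^ t) ((m : ℤ) ^ (sg w + k))
        (F m r e w + (m : ℤ) ^ sg w * e ^ t * b)| ≤ 2 * (B * (m : ℝ) ^ t + 1) := by
    intro w hw
    have hm0 : (0 : ℝ) < (m : ℝ) ^ sg w := by
      have : 0 < m := by omega
      positivity
    have hmz : (m : ℤ) ^ sg w ≠ 0 := pow_ne_zero _ (by omega)
    have hlen := length_of_mem_W hw
    -- congruences
    have hcong : ∀ y : ℤ, (m : ℤ) ^ (sg w + k) ∣ y - (F m r e w + (m : ℤ) ^ sg w * e ^ t * b) ↔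
        (m : ℤ) ^ (sg w + k) ∣ (d : ℤ) ^ t * y + Off d m r w - (m : ℤ) ^ sg w * b := by
      intro y
      have hst : (m : ℤ) ^ (sg w + k) ∣ (m : ℤ) ^ (t + k) := by
        have := sg_le_length w
        exact pow_dvd_pow _ (by omega)
      have h1 : (m : ℤ) ^ (sg w + k) ∣ F m r e w + e ^ t * Off d m r w := by
        have := F_modEq (m := m) (r := r) he w
        rw [hlen] at this
        exact hst.trans this
      have h2 : (m : ℤ) ^ (sg w + k) ∣ (d : ℤ) ^ t * e ^ t - 1 := by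
        rw [← mul_pow]
        exact hst.trans (he.trans (by simpa using sub_dvd_pow_sub_pow ((d : ℤ) * e) 1 t))
      constructor
      · intro h
        have h3 : (d : ℤ) ^ t * y + Off d m r w - (m : ℤ) ^ sg w * b =
            (d : ℤ) ^ t * (y - (F m r e w + (m : ℤ) ^ sg w * e ^ t * b)) +
            (d : ℤ) ^ t * (F m r e w + e ^ t * Off d m r w) -
              ((d : ℤ) ^ t * e ^ t - 1) * (Off d m r w - (m : ℤ) ^ sg w * b) := by ring
        rw [h3]
        exact _root_.dvd_sub (dvd_add (h.mul_left _) (h1.mul_left _)) (h2.mul_right _)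
      · intro h
        have h3 : y - (F m r e w + (m : ℤ) ^ sg w * e ^ t * b) =
            e ^ t * ((d : ℤ) ^ t * y + Off d m r w - (m : ℤ) ^ sg w * b) -
            ((d : ℤ) ^ t * e ^ t - 1) * y - (F m r e w + e ^ t * Off d m r w) := by ring
        rw [h3]
        exact _root_.dvd_sub (_root_.dvd_sub (h.mul_left _) (h2.mul_right _)) h1
    -- the class of `n`
    have hcl : ∀ n y : ℤ, (m : ℤ) ^ sg w * n = (d : ℤ) ^ t * y + Off d m r w →
        ((m : ℤ) ^ k ∣ n - b ↔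
          (m : ℤ) ^ (sg w + k) ∣ y - (F m r e w + (m : ℤ) ^ sg w * e ^ t * b)) := by
      intro n y h
      rw [hcong y, ← h, ← mul_sub, pow_add]
      exact (mul_dvd_mul_iff_left hmz).symm
    -- the image of the points with word `w`
    have himage : (T d m r)^[t] '' S w =
        {y : ℤ | A * (m : ℝ) ^ sg w / (d : ℝ) ^ t - (Off d m r w : ℝ) / (d : ℝ) ^ t ≤ y ∧
          (y : ℝ) < 2 * (A * (m : ℝ) ^ sg w / (d : ℝ) ^ t) - (Off d m r w : ℝ) / (d : ℝ) ^ t ∧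
          y ∈ {y : ℤ | y ∈ G ∧
            (m : ℤ) ^ (sg w + k) ∣ y - (F m r e w + (m : ℤ) ^ sg w * e ^ t * b)}} := by
      have hkey : ∀ n y : ℤ, (m : ℤ) ^ sg w * n = (d : ℤ) ^ t * y + Off d m r w →
          ((A ≤ n ↔ A * (m : ℝ) ^ sg w / (d : ℝ) ^ t - (Off d m r w : ℝ) / (d : ℝ) ^ t ≤ y) ∧
          ((n : ℝ) < 2 * A ↔ (y : ℝ) < 2 * (A * (m : ℝ) ^ sg w / (d : ℝ) ^ t) -
            (Off d m r w : ℝ) / (d : ℝ) ^ t)) := by
        intro n y h
        have h' : (m : ℝ) ^ sg w * n = (d : ℝ) ^ t * y + Off d m r w := by exact_mod_cast h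
        have e1 : A * (m : ℝ) ^ sg w / (d : ℝ) ^ t - (Off d m r w : ℝ) / (d : ℝ) ^ t - y =
            (A - n) * ((m : ℝ) ^ sg w / (d : ℝ) ^ t) := by
          field_simp
          linear_combination h'
        have e2 : 2 * (A * (m : ℝ) ^ sg w / (d : ℝ) ^ t) - (Off d m r w : ℝ) / (d : ℝ) ^ t - y =
            (2 * A - n) * ((m : ℝ) ^ sg w / (d : ℝ) ^ t) := by
          field_simp
          linear_combination h'
        have h0 : 0 < (m : ℝ) ^ sg w / (d : ℝ) ^ t := div_pos hm0 hdR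
        constructor
        · rw [← sub_nonpos, ← sub_nonpos (b := (y : ℝ)), e1]
          constructor
          · intro h; exact mul_nonpos_of_nonpos_of_nonneg h h0.le
          · intro h; exact nonpos_of_mul_nonpos_left h h0
        · rw [← sub_pos, ← sub_pos (b := (y : ℝ)), e2]
          exact (mul_pos_iff_of_pos_right h0).symm
      ext y
      simp only [Set.mem_image, S, Set.mem_ofPred_eq]
      constructor
      · rintro ⟨n, ⟨⟨a1, a2, a5, a3⟩, a4⟩, rfl⟩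
        have h1 := wd_spec hd hr t n
        rw [a4] at h1
        have h2 : (m : ℤ) ^ sg w * n = (d : ℤ) ^ t * (T d m r)^[t] n + Off d m r w := by
          rw [h1]; ring
        obtain ⟨h3, h4⟩ := hkey n _ h2
        exact ⟨h3.mp a1, h4.mp a2, a3, (hcl n _ h2).mp a5⟩
      · rintro ⟨a1, a2, a3, a4⟩
        have h5 : (m : ℤ) ^ sg w ∣ (d : ℤ) ^ t * y + Off d m r w := by
          have h6 := (pow_dvd_pow (m : ℤ) (Nat.le_add_right (sg w) k)).trans ((hcong y).mp a4)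
          have h7 : (d : ℤ) ^ t * y + Off d m r w =
              ((d : ℤ) ^ t * y + Off d m r w - (m : ℤ) ^ sg w * b) + (m : ℤ) ^ sg w * b := by ring
          rw [h7]
          exact dvd_add h6 (dvd_mul_right _ _)
        obtain ⟨n, hn⟩ := h5
        obtain ⟨h3, h4⟩ := hkey n y hn.symm
        obtain ⟨h5, h6⟩ := wd_unique hd hco hr hw hn.symm
        exact ⟨n, ⟨⟨h3.mpr a1, h4.mpr a2, (hcl n y hn.symm).mpr a4, by rw [h6]; exact a3⟩, h5⟩, h6⟩
    have hinj : Set.InjOn (T d m r)^[t] (S w) := by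
      intro n hn n' hn' h
      have h1 := wd_spec hd hr t n
      have h2 := wd_spec hd hr t n'
      rw [hn.2] at h1
      rw [hn'.2, ← h, h1] at h2
      have h3 : (m : ℤ) ^ sg w * n = (m : ℤ) ^ sg w * n' := by linear_combination h2
      exact mul_left_cancel₀ hmz h3
    have h1 : (S w).ncard = ((T d m r)^[t] '' S w).ncard := hinj.ncard_image.symm
    rw [h1, himage]
    unfold cG
    refine (ncard_shift {y : ℤ | y ∈ G ∧
        (m : ℤ) ^ (sg w + k) ∣ y - (F m r e w + (m : ℤ) ^ sg w * e ^ t * b)}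
      (A * (m : ℝ) ^ sg w / (d : ℝ) ^ t) (2 * (A * (m : ℝ) ^ sg w / (d : ℝ) ^ t))
      ((Off d m r w : ℝ) / (d : ℝ) ^ t)).trans ?_
    have h2 : |(Off d m r w : ℝ)| ≤ B * (m : ℝ) ^ t := by
      have := abs_Off_le hd hdm hB hw
      exact_mod_cast this
    have h3 : |(Off d m r w : ℝ) / (d : ℝ) ^ t| ≤ B * (m : ℝ) ^ t := by
      rw [abs_div, abs_of_pos hdR, div_le_iff₀ hdR]
      have h4 : (0 : ℝ) ≤ B * (m : ℝ) ^ t := by positivity
      nlinarith
    have h5 : (0 : ℝ) ≤ B * (m : ℝ) ^ t := by positivity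
    linarith
  refine (Finset.sum_le_sum hterm).trans ?_
  rw [Finset.sum_const, card_W, nsmul_eq_mul]
  push_cast
  apply le_of_eq
  ring

/-- Sums of shifted periodic functions over sets of integers in `[α, 2 α)`. -/
theorem sum_periodic_shift_le (G : Set ℤ) {α : ℝ} (hα : 0 ≤ α) (M : ℕ) (hM : 0 < M) (h : ℤ → ℝ)
    (hh : ∀ y, h y = h (y % (M : ℤ))) (c : ℤ) :
    ∑ y ∈ (finite_Y G α).toFinset, |h (y - c)| ≤ (α / M + 1) * ∑ X ∈ Finset.range M, |h X| := by
  classical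
  have hM' : (0 : ℤ) < (M : ℤ) := by exact_mod_cast hM
  have hmaps : ∀ y ∈ (finite_Y G α).toFinset, ((y - c) % (M : ℤ)).toNat ∈ Finset.range M := by
    intro y _
    rw [Finset.mem_range]
    have h1 := Int.emod_nonneg (y - c) hM'.ne'
    have h2 := Int.emod_lt_of_pos (y - c) hM'
    omega
  rw [← Finset.sum_fiberwise_of_maps_to hmaps, Finset.mul_sum]
  refine Finset.sum_le_sum fun X _ => ?_
  have h1 : ∀ y ∈ (finite_Y G α).toFinset.filter (fun y => ((y - c) % (M : ℤ)).toNat = X),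
      |h (y - c)| = |h X| := by
    intro y hy
    have h2 := (Finset.mem_filter.mp hy).2
    have h3 := Int.emod_nonneg (y - c) hM'.ne'
    have h4 : (y - c) % (M : ℤ) = X := by omega
    rw [hh (y - c), h4]
  rw [Finset.sum_congr rfl h1, Finset.sum_const, nsmul_eq_mul]
  refine mul_le_mul_of_nonneg_right ?_ (abs_nonneg _)
  have h2 := ncard_class_le hα hM' ((X : ℤ) + c)
  have hf : {y : ℤ | α ≤ y ∧ (y : ℝ) < 2 * α ∧ (M : ℤ) ∣ y - ((X : ℤ) + c)}.Finite :=
    (finite_Ico α (2 * α)).subset (fun _ hk => ⟨hk.1, hk.2.1⟩)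
  refine le_trans ?_ h2
  rw [Set.ncard_eq_toFinset_card _ hf]
  have h3 : (finite_Y G α).toFinset.filter (fun y => ((y - c) % (M : ℤ)).toNat = X) ⊆
      hf.toFinset := by
    intro y hy
    obtain ⟨h4, h5⟩ := Finset.mem_filter.mp hy
    rw [Set.Finite.mem_toFinset] at h4 ⊢
    refine ⟨h4.1, h4.2.1, ?_⟩
    have h6 := Int.emod_nonneg (y - c) hM'.ne'
    have h7 : (y - c) % (M : ℤ) = X := by omega
    have h8 : y - ((X : ℤ) + c) = (y - c) - (y - c) % (M : ℤ) := by rw [h7]; ring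
    rw [h8]
    exact Int.dvd_self_sub_emod
  exact_mod_cast Finset.card_le_card h3

theorem sum_cG_shift_eq {d m : ℕ} {r : ℤ → ℤ} {e : ℤ} {G : Set ℤ} (α : ℝ) (L s j : ℕ) (c : ℤ) :
    ∑ w ∈ (W d L).filter (fun w => sg w = s), cG G α ((m : ℤ) ^ j) (F m r e w + c) =
      ∑ y ∈ (finite_Y G α).toFinset,
        cW d L (fun w => sg w = s ∧ (m : ℤ) ^ j ∣ (y - c) - F m r e w) := by
  classical
  simp only [cG_eq_sum, cW_eq_sum]
  rw [Finset.sum_comm]
  refine Finset.sum_congr rfl fun y _ => ?_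
  rw [Finset.sum_filter]
  refine Finset.sum_congr rfl fun w _ => ?_
  have h3 : y - (F m r e w + c) = (y - c) - F m r e w := by ring
  rw [h3]
  by_cases h1 : sg w = s <;> by_cases h2 : (m : ℤ) ^ j ∣ (y - c) - F m r e w <;> simp [h1, h2]

/-- The words with `s` non-zero digits. -/
theorem mix_class {d m : ℕ} {r : ℤ → ℤ} {e : ℤ} {G : Set ℤ} (hm : 0 < m) {a : ℝ} (ha : 0 ≤ a)
    {α : ℝ} (L s k : ℕ) (hα : α = a * (m : ℝ) ^ s) (b : ℤ) :
    |∑ w ∈ (W d L).filter (fun w => sg w = s),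
      (cG G α ((m : ℤ) ^ (s + k)) (F m r e w + (m : ℤ) ^ s * b) -
        cG G α ((m : ℤ) ^ s) (F m r e w) / (m : ℝ) ^ k)| ≤
      (a / (m : ℝ) ^ k + 1) * Osc d m r e L s (s + k) s := by
  classical
  have hmR : (0 : ℝ) < (m : ℝ) ^ s := by positivity
  have hmk : (0 : ℝ) < (m : ℝ) ^ k := by positivity
  have hα0 : 0 ≤ α := by rw [hα]; positivity
  have hc : ∀ w : List ℕ, cG G α ((m : ℤ) ^ s) (F m r e w) =
      cG G α ((m : ℤ) ^ s) (F m r e w + (m : ℤ) ^ s * b) := by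
    intro w
    apply cG_congr
    rw [sub_add_cancel_left]
    exact (dvd_mul_right _ _).neg_right
  have hrw : ∑ w ∈ (W d L).filter (fun w => sg w = s),
      (cG G α ((m : ℤ) ^ (s + k)) (F m r e w + (m : ℤ) ^ s * b) -
        cG G α ((m : ℤ) ^ s) (F m r e w) / (m : ℝ) ^ k) =
      ∑ w ∈ (W d L).filter (fun w => sg w = s),
      (cG G α ((m : ℤ) ^ (s + k)) (F m r e w + (m : ℤ) ^ s * b) -
        cG G α ((m : ℤ) ^ s) (F m r e w + (m : ℤ) ^ s * b) / (m : ℝ) ^ k) :=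
    Finset.sum_congr rfl fun w _ => by rw [hc w]
  rw [hrw, Finset.sum_sub_distrib, ← Finset.sum_div, sum_cG_shift_eq, sum_cG_shift_eq,
    Finset.sum_div, ← Finset.sum_sub_distrib]
  refine (Finset.abs_sum_le_sum_abs _ _).trans ?_
  have h1 := sum_periodic_shift_le G hα0 (m ^ (s + k)) (by positivity)
    (fun y => cW d L (fun w => sg w = s ∧ (m : ℤ) ^ (s + k) ∣ y - F m r e w) -
      cW d L (fun w => sg w = s ∧ (m : ℤ) ^ s ∣ y - F m r e w) / (m : ℝ) ^ k) (by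
    intro y
    have hdv : ∀ j ≤ s + k, ∀ w, ((m : ℤ) ^ j ∣ y - F m r e w ↔
        (m : ℤ) ^ j ∣ y % ((m ^ (s + k) : ℕ) : ℤ) - F m r e w) := by
      intro j hj w
      have h2 : (m : ℤ) ^ j ∣ y - y % ((m ^ (s + k) : ℕ) : ℤ) := by
        have h3 : ((m ^ (s + k) : ℕ) : ℤ) ∣ y - y % ((m ^ (s + k) : ℕ) : ℤ) :=
          Int.dvd_self_sub_emod
        refine dvd_trans ?_ h3
        push_cast
        exact pow_dvd_pow _ hj
      constructor
      · intro h
        have : y % ((m ^ (s + k) : ℕ) : ℤ) - F m r e w = (y - F m r e w) -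
          (y - y % ((m ^ (s + k) : ℕ) : ℤ)) := by ring
        rw [this]; exact _root_.dvd_sub h h2
      · intro h
        have : y - F m r e w = (y % ((m ^ (s + k) : ℕ) : ℤ) - F m r e w) +
          (y - y % ((m ^ (s + k) : ℕ) : ℤ)) := by ring
        rw [this]; exact dvd_add h h2
    congr 1
    · exact cW_congr fun w _ => and_congr_right fun _ => hdv (s + k) le_rfl w
    · congr 1
      exact cW_congr fun w _ => and_congr_right fun _ => hdv s (by omega) w) ((m : ℤ) ^ s * b)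
  refine h1.trans (le_of_eq ?_)
  unfold Osc
  rw [Nat.add_sub_cancel_left]
  congr 1
  rw [hα]
  push_cast
  rw [pow_add]
  field_simp

/-- All words. -/
theorem mix_class_all {d m : ℕ} {r : ℤ → ℤ} {e : ℤ} {G : Set ℤ} (hd : 0 < d) (hm : 0 < m) {a : ℝ}
    (ha : 0 ≤ a) (L k j : ℕ) (b : ℤ) {E : ℝ} (hE0 : 0 ≤ E)
    (hE : ∀ s, j ≤ s → s ≤ L → Osc d m r e L s (s + k) s ≤ E) :
    |∑ w ∈ W d L, (cG G (a * (m : ℝ) ^ sg w / (d : ℝ) ^ L) ((m : ℤ) ^ (sg w + k))
        (F m r e w + (m : ℤ) ^ sg w * b) -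
      cG G (a * (m : ℝ) ^ sg w / (d : ℝ) ^ L) ((m : ℤ) ^ sg w) (F m r e w) / (m : ℝ) ^ k)| ≤
      (L + 1) * ((a / (d : ℝ) ^ L / (m : ℝ) ^ k + 1) * E) +
        cW d L (fun w => sg w < j) * (a / (d : ℝ) ^ L / (m : ℝ) ^ k + 1) := by
  classical
  have hdR : (0 : ℝ) < (d : ℝ) ^ L := by positivity
  have hmk : (0 : ℝ) < (m : ℝ) ^ k := by positivity
  have hmk1 : (1 : ℝ) ≤ (m : ℝ) ^ k := one_le_pow₀ (by exact_mod_cast hm)
  set f : List ℕ → ℝ := fun w => cG G (a * (m : ℝ) ^ sg w / (d : ℝ) ^ L) ((m : ℤ) ^ (sg w + k))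
        (F m r e w + (m : ℤ) ^ sg w * b) -
      cG G (a * (m : ℝ) ^ sg w / (d : ℝ) ^ L) ((m : ℤ) ^ sg w) (F m r e w) / (m : ℝ) ^ k with hf
  rw [← Finset.sum_filter_add_sum_filter_not (W d L) (fun w => j ≤ sg w)]
  refine (abs_add_le _ _).trans (add_le_add ?_ ?_)
  · have hmaps : ∀ w ∈ (W d L).filter (fun w => j ≤ sg w), sg w ∈ Finset.range (L + 1) := by
      intro w hw
      rw [Finset.mem_range]
      have h1 := length_of_mem_W (Finset.mem_filter.mp hw).1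
      have h2 := sg_le_length w
      omega
    rw [← Finset.sum_fiberwise_of_maps_to hmaps]
    refine (Finset.abs_sum_le_sum_abs _ _).trans ?_
    have h1 : ∀ s ∈ Finset.range (L + 1),
        |∑ w ∈ ((W d L).filter (fun w => j ≤ sg w)).filter (fun w => sg w = s), f w| ≤
          (a / (d : ℝ) ^ L / (m : ℝ) ^ k + 1) * E := by
      intro s hs
      rw [Finset.mem_range] at hs
      have h0 : 0 ≤ (a / (d : ℝ) ^ L / (m : ℝ) ^ k + 1) * E := by positivity
      by_cases hks : j ≤ s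
      · have h2 : ((W d L).filter (fun w => j ≤ sg w)).filter (fun w => sg w = s) =
            (W d L).filter (fun w => sg w = s) := by
          ext w
          simp only [Finset.mem_filter]
          constructor
          · rintro ⟨⟨h3, _⟩, h4⟩; exact ⟨h3, h4⟩
          · rintro ⟨h3, h4⟩; exact ⟨⟨h3, by omega⟩, h4⟩
        rw [h2]
        have h3 := mix_class (d := d) (r := r) (e := e) (G := G) hm
          (a := a / (d : ℝ) ^ L) (by positivity) (α := a * (m : ℝ) ^ s / (d : ℝ) ^ L) L s k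
          (by ring) b
        have h4 : ∑ w ∈ (W d L).filter (fun w => sg w = s), f w =
            ∑ w ∈ (W d L).filter (fun w => sg w = s),
            (cG G (a * (m : ℝ) ^ s / (d : ℝ) ^ L) ((m : ℤ) ^ (s + k))
              (F m r e w + (m : ℤ) ^ s * b) -
            cG G (a * (m : ℝ) ^ s / (d : ℝ) ^ L) ((m : ℤ) ^ s) (F m r e w) / (m : ℝ) ^ k) := by
          refine Finset.sum_congr rfl fun w hw => ?_
          rw [hf]
          simp only
          rw [(Finset.mem_filter.mp hw).2]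
        rw [h4]
        refine h3.trans ?_
        exact mul_le_mul_of_nonneg_left (hE s hks (by omega)) (by positivity)
      · have h2 : ((W d L).filter (fun w => j ≤ sg w)).filter (fun w => sg w = s) = ∅ := by
          rw [Finset.filter_eq_empty_iff]
          intro w hw h3
          have h4 := (Finset.mem_filter.mp hw).2
          omega
        rw [h2, Finset.sum_empty, abs_zero]
        exact h0
    refine (Finset.sum_le_sum h1).trans ?_
    rw [Finset.sum_const, Finset.card_range, nsmul_eq_mul]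
    push_cast
    exact le_rfl
  · refine (Finset.abs_sum_le_sum_abs _ _).trans ?_
    have h1 : ∀ w ∈ (W d L).filter (fun w => ¬ j ≤ sg w), |f w| ≤
        a / (d : ℝ) ^ L / (m : ℝ) ^ k + 1 := by
      intro w _
      have hms : (0 : ℝ) < (m : ℝ) ^ sg w := by positivity
      have h2 := cG_le G (α := a * (m : ℝ) ^ sg w / (d : ℝ) ^ L) (by positivity)
        (M := (m : ℤ) ^ (sg w + k)) (by positivity) (F m r e w + (m : ℤ) ^ sg w * b)
      have h3 : cG G (a * (m : ℝ) ^ sg w / (d : ℝ) ^ L) ((m : ℤ) ^ (sg w + k))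
          (F m r e w + (m : ℤ) ^ sg w * b) ≤ a / (d : ℝ) ^ L / (m : ℝ) ^ k + 1 := by
        refine h2.trans (le_of_eq ?_)
        push_cast
        rw [pow_add]
        field_simp
      have h4 := cG_term_le (G := G) hd hm ha L (sg w) (F m r e w)
      have h5 : cG G (a * (m : ℝ) ^ sg w / (d : ℝ) ^ L) ((m : ℤ) ^ sg w) (F m r e w) /
          (m : ℝ) ^ k ≤ a / (d : ℝ) ^ L / (m : ℝ) ^ k + 1 := by
        rw [div_le_iff₀ hmk]
        refine h4.trans ?_
        rw [add_mul, div_mul_cancel₀ _ hmk.ne', one_mul]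
        linarith
      have h6 := cG_nonneg G (a * (m : ℝ) ^ sg w / (d : ℝ) ^ L) ((m : ℤ) ^ (sg w + k))
          (F m r e w + (m : ℤ) ^ sg w * b)
      have h7 : 0 ≤ cG G (a * (m : ℝ) ^ sg w / (d : ℝ) ^ L) ((m : ℤ) ^ sg w) (F m r e w) /
          (m : ℝ) ^ k := div_nonneg (cG_nonneg _ _ _ _) hmk.le
      rw [hf, abs_le]
      constructor
      · simp only; linarith
      · simp only; linarith
    refine (Finset.sum_le_card_nsmul _ _ _ h1).trans (le_of_eq ?_)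
    rw [nsmul_eq_mul]
    congr 1
    unfold cW
    congr 2
    ext w
    simp only [Finset.mem_filter, not_le]

theorem ncard_class_ge {a : ℝ} (ha : 0 ≤ a) {N : ℕ} (hN : 0 < N) (hNa : (N : ℝ) ≤ a) (G : Set ℤ)
    (b : ℤ) : fdc G N b a ≤ 2 := by
  have hN0 : (0 : ℝ) < N := by exact_mod_cast hN
  have ha0 : 0 < a := lt_of_lt_of_le hN0 hNa
  unfold fdc
  rw [div_le_iff₀ ha0]
  have h1 := ncard_class_le ha (M := (N : ℤ)) (by exact_mod_cast hN) b
  have hf : {n : ℤ | a ≤ n ∧ (n : ℝ) < 2 * a ∧ (N : ℤ) ∣ n - b}.Finite :=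
    (finite_Ico a (2 * a)).subset (fun _ hk => ⟨hk.1, hk.2.1⟩)
  have h2 : {n : ℤ | a ≤ n ∧ (n : ℝ) < 2 * a ∧ (N : ℤ) ∣ n - b ∧ n ∈ G} ⊆
      {n : ℤ | a ≤ n ∧ (n : ℝ) < 2 * a ∧ (N : ℤ) ∣ n - b} := fun _ hn => ⟨hn.1, hn.2.1, hn.2.2.1⟩
  have h3 : ({n : ℤ | a ≤ n ∧ (n : ℝ) < 2 * a ∧ (N : ℤ) ∣ n - b ∧ n ∈ G}.ncard : ℝ) ≤
      a / N + 1 := by
    refine le_trans ?_ h1
    exact_mod_cast Set.ncard_le_ncard h2 hf
  calc ({n : ℤ | a ≤ n ∧ (n : ℝ) < 2 * a ∧ (N : ℤ) ∣ n - b ∧ n ∈ G}.ncard : ℝ) * N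
      ≤ (a / N + 1) * N := mul_le_mul_of_nonneg_right h3 hN0.le
    _ = a + N := by field_simp
    _ ≤ 2 * a := by linarith

theorem fdc_nonneg (G : Set ℤ) (N : ℕ) (b : ℤ) {a : ℝ} (ha : 0 ≤ a) : 0 ≤ fdc G N b a := by
  unfold fdc; positivity

/-- (LDC) The classes modulo `m ^ k`. -/
theorem class_flow {d m : ℕ} (hd : 2 ≤ d) (hdm : d < m) (hco : Nat.Coprime m d) {r : ℤ → ℤ}
    (hr : Admissible d m r) (h : MixS d m r) : ClassFlow d m r := by
  intro A
  obtain ⟨κ₀, C0, hκ₀, hC0, hmix⟩ := h (|A| + 1)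
  obtain ⟨B, hB⟩ := FL_exists_B d r
  obtain ⟨C3, hC3, hexp⟩ := exists_C3 |A|
  have h10 : (0 : ℝ) < (10 : ℝ) ^ (|A| + 1) := by positivity
  have h5 : (0 : ℝ) < (5 : ℝ) ^ |A| := by positivity
  refine ⟨min (κ₀ / 10) 1,
    3 * C3 + 4 * C0 * (10 : ℝ) ^ (|A| + 1) + 4 * (B + 1) + 2 * (5 : ℝ) ^ |A|, by positivity,
    by positivity, ?_⟩
  set C : ℝ := 3 * C3 + 4 * C0 * (10 : ℝ) ^ (|A| + 1) + 4 * (B + 1) + 2 * (5 : ℝ) ^ |A| with hCdef
  have hCB : 4 * ((B : ℝ) + 1) ≤ C := by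
    have : (0 : ℝ) < 4 * C0 * (10 : ℝ) ^ (|A| + 1) := by positivity
    rw [hCdef]; linarith
  have hC4 : 4 ≤ C := by
    have : (0 : ℝ) ≤ (B : ℝ) := by positivity
    linarith
  intro t ht k hk b a ha G
  have ht1 : (1 : ℝ) ≤ t := by exact_mod_cast ht
  have ht0 : (0 : ℝ) < t := by linarith
  have hkt : k ≤ t := by
    have h1 : (k : ℝ) ≤ 1 * t := hk.trans (mul_le_mul_of_nonneg_right (min_le_right _ _) ht0.le)
    rw [one_mul] at h1
    exact_mod_cast h1
  have hd0 : 0 < d := by omega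
  have hm0 : 0 < m := by omega
  have hd1R : (1 : ℝ) ≤ d := by exact_mod_cast (by omega : 1 ≤ d)
  have hm1R : (1 : ℝ) ≤ m := by exact_mod_cast (by omega : 1 ≤ m)
  have hd2R : (2 : ℝ) ≤ d := by exact_mod_cast hd
  have hm2R : (2 : ℝ) ≤ m := by exact_mod_cast (by omega : 2 ≤ m)
  obtain ⟨D, hD⟩ : ∃ D : ℝ, D = (d : ℝ) ^ t := ⟨_, rfl⟩
  obtain ⟨M, hM⟩ : ∃ M : ℝ, M = (m : ℝ) ^ t := ⟨_, rfl⟩
  obtain ⟨K, hK⟩ : ∃ K : ℝ, K = (m : ℝ) ^ k := ⟨_, rfl⟩
  have hD1 : 1 ≤ D := hD ▸ one_le_pow₀ hd1R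
  have hM1 : 1 ≤ M := hM ▸ one_le_pow₀ hm1R
  have hK1 : 1 ≤ K := hK ▸ one_le_pow₀ hm1R
  have hKM : K ≤ M := by rw [hK, hM]; exact pow_le_pow_right₀ hm1R hkt
  have hD0 : 0 < D := by linarith
  have hM0 : 0 < M := by linarith
  have hK0 : 0 < K := by linarith
  have hB0 : (0 : ℝ) ≤ (B : ℝ) := by positivity
  have hDM1 : 1 ≤ D * M := one_le_mul_of_one_le_of_one_le hD1 hM1
  have hDM0 : 0 < D * M := by linarith
  have hP8 : ((d : ℝ) * m) ^ (8 * t) = (D * M) ^ 8 := by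
    rw [hD, hM, ← mul_pow, ← pow_mul, mul_comm 8 t]
  rw [hP8] at ha
  have hC0' : 0 < C := by linarith
  have ha8 : (D * M) ^ 8 ≤ a := le_trans (le_mul_of_one_le_left (by positivity) (by linarith)) ha
  have haDM : D * M ≤ a := by
    refine le_trans ?_ ha8
    calc D * M = (D * M) ^ 1 := (pow_one _).symm
      _ ≤ (D * M) ^ 8 := pow_le_pow_right₀ hDM1 (by norm_num)
  have haone : 1 ≤ a := hDM1.trans haDM
  have ha0 : 0 < a := by linarith
  have haK : K ≤ a := by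
    refine (hKM.trans ?_).trans haDM
    exact le_mul_of_one_le_left hM0.le hD1
  have hTA : (t : ℝ) ^ (-|A|) ≤ (t : ℝ) ^ (-A) :=
    Real.rpow_le_rpow_of_exponent_le ht1 (neg_le_neg (le_abs_self A))
  obtain ⟨G', hG'⟩ : ∃ G' : Set ℤ, G' = {n : ℤ | (T d m r)^[t] n ∈ G} := ⟨_, rfl⟩
  rw [← hG']
  by_cases ht5 : t < 5
  · -- small `t`
    have h2 := fd_le_two G' haone
    have h2' := fd_nonneg G' ha0.le
    have h1 := ncard_class_ge ha0.le (N := m ^ k) (by positivity)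
      (by push_cast; rw [← hK]; exact haK) G' b
    have h1' := fdc_nonneg G' (m ^ k) b ha0.le
    have h3 : ((5 : ℝ) ^ |A|)⁻¹ ≤ (t : ℝ) ^ (-|A|) := by
      rw [← Real.rpow_neg (by norm_num)]
      apply Real.rpow_le_rpow_of_nonpos ht0
      · exact_mod_cast ht5.le
      · exact neg_nonpos.mpr (abs_nonneg A)
    have h4 : 2 ≤ C * (t : ℝ) ^ (-A) := by
      have h6 : 2 * (5 : ℝ) ^ |A| ≤ C := by
        have : (0 : ℝ) < 4 * C0 * (10 : ℝ) ^ (|A| + 1) := by positivity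
        rw [hCdef]; linarith
      calc (2 : ℝ) = 2 * (5 : ℝ) ^ |A| * ((5 : ℝ) ^ |A|)⁻¹ := by field_simp
        _ ≤ C * (t : ℝ) ^ (-A) := by
            apply mul_le_mul h6 (h3.trans hTA) (by positivity) hC0'.le
    rw [abs_le]
    constructor <;> linarith
  push Not at ht5
  -- large `t`
  set j := t / 5 with hj
  have hj1 : 1 ≤ j := by omega
  have hj5 : 5 * j ≤ t := by omega
  have hj10 : t ≤ 10 * j := by omega
  obtain ⟨e, he⟩ := exists_e hco (t + t)
  set q : ℝ := (j : ℝ) ^ (-(|A| + 1)) with hq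
  have hj0 : (0 : ℝ) < j := by exact_mod_cast hj1
  have hq0 : 0 < q := Real.rpow_pos_of_pos hj0 _
  have hosc : ∀ s, j ≤ s → s ≤ t → Osc d m r e t s (s + k) s ≤ C0 * D * q := by
    intro s h2 h3
    have hs1 : 1 ≤ s := hj1.trans h2
    have hs0 : (0 : ℝ) < s := by exact_mod_cast hs1
    have hks : (k : ℝ) ≤ κ₀ * s := by
      have h6 : (k : ℝ) ≤ κ₀ / 10 * t :=
        hk.trans (mul_le_mul_of_nonneg_right (min_le_left _ _) ht0.le)
      have h7 : (t : ℝ) ≤ 10 * s := by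
        have : t ≤ 10 * s := by omega
        exact_mod_cast this
      have h8 : κ₀ / 10 * t ≤ κ₀ / 10 * (10 * s) := mul_le_mul_of_nonneg_left h7 (by positivity)
      linarith
    have h6 := hmix s k hs1 hks e ((pow_dvd_pow _ (by omega)).trans he) t
    rw [← hD] at h6
    refine h6.trans (mul_le_mul_of_nonneg_left ?_ (by positivity))
    rw [hq]
    apply Real.rpow_le_rpow_of_nonpos hj0
    · exact_mod_cast h2
    · have := abs_nonneg A
      linarith
  -- the two counts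
  have e1 := card_image_class hd hdm hco hr hB (k := k) (t := t)
    ((pow_dvd_pow _ (by omega)).trans he) G b a
  have e2 := card_image hd hdm hco hr hB (t := t) ((pow_dvd_pow _ (by omega)).trans he) G ha0
  have e3 := mix_class_all (r := r) (e := e) (G := G) hd0 hm0 ha0.le t k j (e ^ t * b)
    (E := C0 * D * q) (by positivity) hosc
  have hfew := few_nonzero hd (t := t) (k := j) hj5
  rw [← hD, ← hM] at e1 e2
  rw [← hD, ← hK] at e3
  rw [← hD] at hfew
  obtain ⟨N1, hN1⟩ : ∃ N1 : ℝ, N1 = (({n : ℤ | a ≤ n ∧ (n : ℝ) < 2 * a ∧ (m : ℤ) ^ k ∣ n - b ∧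
    (T d m r)^[t] n ∈ G}.ncard : ℕ) : ℝ) := ⟨_, rfl⟩
  obtain ⟨N2, hN2⟩ : ∃ N2 : ℝ, N2 = (({n : ℤ | a ≤ n ∧ (n : ℝ) < 2 * a ∧
    (T d m r)^[t] n ∈ G}.ncard : ℕ) : ℝ) := ⟨_, rfl⟩
  obtain ⟨S1, hS1⟩ : ∃ S1 : ℝ, S1 = ∑ w ∈ W d t, cG G (a * (m : ℝ) ^ sg w / D)
    ((m : ℤ) ^ (sg w + k)) (F m r e w + (m : ℤ) ^ sg w * e ^ t * b) := ⟨_, rfl⟩
  obtain ⟨S2, hS2⟩ : ∃ S2 : ℝ, S2 = ∑ w ∈ W d t, cG G (a * (m : ℝ) ^ sg w / D)
    ((m : ℤ) ^ sg w) (F m r e w) := ⟨_, rfl⟩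
  have e3' : |S1 - S2 / K| ≤ (t + 1) * ((a / D / K + 1) * (C0 * D * q)) +
      cW d t (fun w => sg w < j) * (a / D / K + 1) := by
    have h6 : S1 - S2 / K = ∑ w ∈ W d t, (cG G (a * (m : ℝ) ^ sg w / D) ((m : ℤ) ^ (sg w + k))
        (F m r e w + (m : ℤ) ^ sg w * (e ^ t * b)) -
        cG G (a * (m : ℝ) ^ sg w / D) ((m : ℤ) ^ sg w) (F m r e w) / K) := by
      rw [Finset.sum_sub_distrib, ← Finset.sum_div, hS1, hS2]
      congr 1
      refine Finset.sum_congr rfl fun w _ => ?_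
      rw [mul_assoc]
    rw [h6]
    exact e3
  have e1' : |N1 - S1| ≤ 2 * D * (B * M + 1) := by rw [hN1, hS1]; exact e1
  have e2' : |N2 - S2| ≤ 2 * D * (B * M + 1) := by rw [hN2, hS2]; exact e2
  have hfdc : fdc G' (m ^ k) b a = N1 * K / a := by
    rw [hN1, hK, hG']
    unfold fdc
    push_cast
    rfl
  have hfd : fd G' a = N2 / a := by
    rw [hN2, hG']
    rfl
  -- the difference
  have hN : |N1 - N2 / K| ≤ 4 * D * (B * M + 1) +
      ((t + 1) * ((a / D / K + 1) * (C0 * D * q)) +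
        cW d t (fun w => sg w < j) * (a / D / K + 1)) := by
    have h6 : |N2 / K - S2 / K| ≤ 2 * D * (B * M + 1) := by
      rw [← sub_div, abs_div, abs_of_pos hK0, div_le_iff₀ hK0]
      refine e2'.trans (le_mul_of_one_le_right (by positivity) hK1)
    have h7 : N1 - N2 / K = (N1 - S1) + (S1 - S2 / K) - (N2 / K - S2 / K) := by ring
    rw [h7]
    have h8 := abs_sub ((N1 - S1) + (S1 - S2 / K)) (N2 / K - S2 / K)
    have h9 := abs_add_le (N1 - S1) (S1 - S2 / K)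
    linarith
  have hDK : D * K ≤ a := (mul_le_mul_of_nonneg_left hKM hD0.le).trans haDM
  have haDK : a / D / K + 1 ≤ 2 * a / (D * K) := by
    have h6 : 1 ≤ a / (D * K) := (one_le_div (mul_pos hD0 hK0)).mpr hDK
    have h7 : 2 * a / (D * K) = 2 * (a / (D * K)) := by ring
    rw [div_div, h7]
    linarith
  have hN' : |N1 - N2 / K| * K ≤ 4 * D * (B * M + 1) * K +
      ((t + 1) * (2 * a * C0 * q) + 2 * a * (9 / 10) ^ t) := by
    have h6 : (t + 1) * ((a / D / K + 1) * (C0 * D * q)) * K ≤ (t + 1) * (2 * a * C0 * q) := by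
      have h7 : (a / D / K + 1) * (C0 * D * q) * K ≤ 2 * a * C0 * q := by
        calc (a / D / K + 1) * (C0 * D * q) * K ≤ 2 * a / (D * K) * (C0 * D * q) * K := by
              gcongr
          _ = 2 * a * C0 * q := by field_simp
      calc (t + 1) * ((a / D / K + 1) * (C0 * D * q)) * K =
            (t + 1) * ((a / D / K + 1) * (C0 * D * q) * K) := by ring
        _ ≤ (t + 1) * (2 * a * C0 * q) := mul_le_mul_of_nonneg_left h7 (by positivity)
    have h8 : cW d t (fun w => sg w < j) * (a / D / K + 1) * K ≤ 2 * a * (9 / 10) ^ t := by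
      calc cW d t (fun w => sg w < j) * (a / D / K + 1) * K
          ≤ D * (9 / 10) ^ t * (2 * a / (D * K)) * K := by
            apply mul_le_mul_of_nonneg_right _ hK0.le
            exact mul_le_mul hfew haDK (by positivity) (by positivity)
        _ = 2 * a * (9 / 10) ^ t := by field_simp
    calc |N1 - N2 / K| * K ≤ (4 * D * (B * M + 1) +
          ((t + 1) * ((a / D / K + 1) * (C0 * D * q)) +
          cW d t (fun w => sg w < j) * (a / D / K + 1))) * K :=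
          mul_le_mul_of_nonneg_right hN hK0.le
      _ = 4 * D * (B * M + 1) * K + ((t + 1) * ((a / D / K + 1) * (C0 * D * q)) * K +
          cW d t (fun w => sg w < j) * (a / D / K + 1) * K) := by ring
      _ ≤ 4 * D * (B * M + 1) * K + ((t + 1) * (2 * a * C0 * q) + 2 * a * (9 / 10) ^ t) := by
          linarith
  -- the error terms
  have hexpt := hexp t ht
  have hqt : q ≤ (10 : ℝ) ^ (|A| + 1) * ((t : ℝ) ^ (-|A|) / t) := by
    have h2 : (t : ℝ) / 10 ≤ j := by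
      rw [div_le_iff₀ (by norm_num)]
      exact_mod_cast (by omega : t ≤ j * 10)
    have h3 : q ≤ ((t : ℝ) / 10) ^ (-(|A| + 1)) := by
      apply Real.rpow_le_rpow_of_nonpos (by positivity) h2
      have := abs_nonneg A
      linarith
    refine h3.trans (le_of_eq ?_)
    rw [Real.div_rpow ht0.le (by norm_num), neg_add, Real.rpow_add ht0, Real.rpow_neg_one,
      ← neg_add, Real.rpow_neg (by norm_num : (0 : ℝ) ≤ 10)]
    rw [div_inv_eq_mul]
    ring
  have htq : ((t : ℝ) + 1) * (2 * a * C0 * q) ≤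
      a * (4 * C0 * (10 : ℝ) ^ (|A| + 1) * (t : ℝ) ^ (-|A|)) := by
    have h2 : (t : ℝ) + 1 ≤ 2 * t := by linarith
    have h3 : 0 < 2 * a * C0 := by positivity
    calc ((t : ℝ) + 1) * (2 * a * C0 * q) ≤ 2 * t * (2 * a * C0 * q) :=
          mul_le_mul_of_nonneg_right h2 (by positivity)
      _ = 2 * t * (2 * a * C0) * q := by ring
      _ ≤ 2 * t * (2 * a * C0) * ((10 : ℝ) ^ (|A| + 1) * ((t : ℝ) ^ (-|A|) / t)) :=
          mul_le_mul_of_nonneg_left hqt (by positivity)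
      _ = a * (4 * C0 * (10 : ℝ) ^ (|A| + 1) * (t : ℝ) ^ (-|A|)) := by
          field_simp
          ring
  have hrem : 4 * D * (B * M + 1) * K ≤ a * (9 / 10) ^ t := by
    have h2 : 4 * D * (B * M + 1) * K ≤ 4 * (B + 1) * (D * M) ^ 2 := by
      have h3 : (B : ℝ) * M + 1 ≤ (B + 1) * M := by rw [add_mul, one_mul]; linarith
      calc 4 * D * (B * M + 1) * K ≤ 4 * D * ((B + 1) * M) * M := by gcongr
        _ = 4 * (B + 1) * (D * M ^ 2) := by ring
        _ ≤ 4 * (B + 1) * (D * M) ^ 2 := by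
            rw [mul_pow]
            have h6 : D ≤ D ^ 2 := by rw [sq]; exact le_mul_of_one_le_left hD0.le hD1
            gcongr
    have h3 : 1 ≤ (9 / 10 : ℝ) ^ t * (D * M) := by
      rw [hD, hM, ← mul_pow, ← mul_pow]
      apply one_le_pow₀
      exact one_le_nine_tenths hd2R hm2R
    have h4 : C * (D * M) ^ 3 ≤ a := by
      refine le_trans ?_ ha
      have h6 : (D * M) ^ 3 ≤ (D * M) ^ 8 := pow_le_pow_right₀ hDM1 (by norm_num)
      exact mul_le_mul_of_nonneg_left h6 hC0'.le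
    have h9 : (0 : ℝ) < (9 / 10) ^ t := by positivity
    calc 4 * D * (B * M + 1) * K ≤ 4 * (B + 1) * (D * M) ^ 2 := h2
      _ ≤ C * (D * M) ^ 2 := mul_le_mul_of_nonneg_right hCB (by positivity)
      _ ≤ C * (D * M) ^ 2 * ((9 / 10 : ℝ) ^ t * (D * M)) := by
          exact le_mul_of_one_le_right (by positivity) h3
      _ = C * (D * M) ^ 3 * (9 / 10) ^ t := by ring
      _ ≤ a * (9 / 10) ^ t := mul_le_mul_of_nonneg_right h4 h9.le
  -- conclusion
  rw [hfdc, hfd]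
  have h6 : N1 * K / a - N2 / a = (N1 - N2 / K) * K / a := by field_simp
  rw [h6, abs_div, abs_mul, abs_of_pos hK0, abs_of_pos ha0, div_le_iff₀ ha0]
  refine hN'.trans ?_
  have h7 : a * (9 / 10) ^ t ≤ a * (C3 * (t : ℝ) ^ (-|A|)) :=
    mul_le_mul_of_nonneg_left hexpt ha0.le
  have h8 : (3 * C3 + 4 * C0 * (10 : ℝ) ^ (|A| + 1)) * (t : ℝ) ^ (-|A|) ≤
      C * (t : ℝ) ^ (-A) := by
    apply mul_le_mul _ hTA (by positivity) hC0'.le
    rw [hCdef]
    have : 0 < 2 * (5 : ℝ) ^ |A| := by positivity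
    linarith
  have h9 : a * ((3 * C3 + 4 * C0 * (10 : ℝ) ^ (|A| + 1)) * (t : ℝ) ^ (-|A|)) ≤
      a * (C * (t : ℝ) ^ (-A)) := mul_le_mul_of_nonneg_left h8 ha0.le
  have h11 : a * ((3 * C3 + 4 * C0 * (10 : ℝ) ^ (|A| + 1)) * (t : ℝ) ^ (-|A|)) =
      3 * (a * (C3 * (t : ℝ) ^ (-|A|))) +
        a * (4 * C0 * (10 : ℝ) ^ (|A| + 1) * (t : ℝ) ^ (-|A|)) := by ring
  linarith

end Pool.Agent.Helper8.PW
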