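import Pool.Agent.Helper52.Tao.FD
import Pool.Agent.Helper8.PW.LDef

/-!
# Block LDA: decay of the exponential sums with more levels than non-zero digits

The proof of `Helper52.Tao.fourier_decay` (helper72), with `(1 - κ) N ≤ S` in place of `N ≤ S`: in one step
`κ_{a + c} = ϑ κ_a`.
-/

set_option autoImplicit false

namespace Pool.Agent.Helper8.PW

open Pool.Agent.Helper68.Moeller Pool.Agent.Helper52.Tao

/-- The statement of `FourierDecayS` for one exponent. -/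
def FDPs (d m : ℕ) (r : ℤ → ℤ) (A : ℝ) : Prop :=
  ∃ κ C : ℝ, 0 < κ ∧ κ < 1 ∧ 0 < C ∧ ∀ N : ℕ, 1 ≤ N → ∀ e : ℤ, (m : ℤ) ^ N ∣ (d : ℤ) * e - 1 →
    ∀ ζ : ℤ, ¬ (m : ℤ) ∣ ζ → ∀ t S : ℕ, (1 - κ) * N ≤ (S : ℝ) →
      ‖Gs d m r e t 0 S ((ζ : ℝ) / (m : ℝ) ^ N)‖ ≤ C * (d : ℝ) ^ t * (N : ℝ) ^ (-A)

theorem FDPs_zero (d m : ℕ) (r : ℤ → ℤ) : FDPs d m r 0 := by
  refine ⟨1 / 2, 1, by norm_num, by norm_num, one_pos, fun N _ e _ ζ _ t S _ => ?_⟩
  rw [neg_zero, Real.rpow_zero, one_mul, mul_one]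
  exact (FD_norm_Gs_le _ _ _ _ _ _ _ _).trans (cW_le_pow _ _ _)

theorem FDPs_mono {d m : ℕ} {r : ℤ → ℤ} {A B : ℝ} (hAB : A ≤ B) (h : FDPs d m r B) :
    FDPs d m r A := by
  obtain ⟨κ, C, hκ, hκ1, hC, h⟩ := h
  refine ⟨κ, C, hκ, hκ1, hC, fun N hN e he ζ hζ t S hS => (h N hN e he ζ hζ t S hS).trans ?_⟩
  have hN1 : (1 : ℝ) ≤ N := by exact_mod_cast hN
  gcongr

theorem FDs_step {d m : ℕ} (hd : 2 ≤ d) (hdm : d < m) {r : ℤ → ℤ}
    {K₀ n₀ : ℕ} {θ c C₁ : ℝ} (hK : 2 ≤ K₀) (hθ : 0 < θ) (hθ2 : 2 * (1 - 1 / (d : ℝ)) * θ < 1)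
    (hn₀ : ∀ ζ : ℤ, ¬ (m : ℤ) ∣ ζ → ¬ (m : ℤ) ^ n₀ ∣ ζ * (r 1 * ((d : ℤ) - 1)))
    (hC₁ : 0 < C₁)
    (h1 : ∀ N : ℕ, 1 ≤ N → ∀ g : ℤ, ¬ (m : ℤ) ^ n₀ ∣ g →
      Mj d (White (d ^ 2) m N K₀ g) (2 - 2 * Real.cos (Real.pi / K₀)) (fun _ => 1) ⌊θ * N⌋₊ 0 0 ≤
        C₁ * (d : ℝ) ^ (2 * ⌊θ * N⌋₊) * (N : ℝ) ^ (-c)) {a : ℝ} (ha : 0 ≤ a)
    (hP : FDPs d m r a) : FDPs d m r (a + c) := by
  have hd' : (2 : ℝ) ≤ d := by exact_mod_cast hd
  have hm2 : 2 ≤ m := by omega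
  have hm0 : (0 : ℝ) < m := by positivity
  obtain ⟨κ, Ca, hκ, hκ1, hCa, hP⟩ := hP
  have hε0 : 0 ≤ 2 - 2 * Real.cos (Real.pi / K₀) := by
    linarith [Real.cos_le_one (Real.pi / K₀)]
  have hε2 : 2 - 2 * Real.cos (Real.pi / K₀) ≤ 2 := by
    have : 0 ≤ Real.cos (Real.pi / K₀) := by
      have hK' : (2 : ℝ) ≤ K₀ := by exact_mod_cast hK
      refine Real.cos_nonneg_of_neg_pi_div_two_le_of_le ?_ ?_
      · have : 0 ≤ Real.pi / K₀ := by positivity
        linarith [Real.pi_pos]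
      · exact div_le_div_of_nonneg_left Real.pi_pos.le (by norm_num) hK'
    linarith
  have hq : 0 < 1 - 1 / (d : ℝ) := by
    have : 1 / (d : ℝ) ≤ 1 / 2 := one_div_le_one_div_of_le (by norm_num) hd'
    linarith
  set vt : ℝ := (1 - 2 * (1 - 1 / (d : ℝ)) * θ) / 2 with hvt
  have hvt0 : 0 < vt := by rw [hvt]; linarith
  have hvt1 : vt < 1 := by
    have : 0 < 2 * (1 - 1 / (d : ℝ)) * θ := by positivity
    rw [hvt]
    linarith
  have hκv : κ * vt ≤ vt := by nlinarith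
  have hκv0 : 0 < κ * vt := by positivity
  set a₁ : ℝ := 1 - vt with ha₁
  obtain ⟨c₁, hc₁, hch⟩ := chernoff hd (θ := 2 * θ) (a := a₁) (by positivity)
    (by rw [ha₁, hvt]; linarith)
  obtain ⟨C', hC', hexp⟩ := FD_exp_le hc₁ (a + c)
  refine ⟨κ * vt, Ca * vt ^ (-a) * C₁ + C', hκv0, by linarith, by positivity,
    fun N hN e he ζ hζ t S hS => ?_⟩
  have hN0 : (0 : ℝ) < N := by exact_mod_cast hN
  set L := ⌊θ * N⌋₊ with hL
  have hLle : (L : ℝ) ≤ θ * N := Nat.floor_le (by positivity)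
  have hSN : a₁ * N ≤ (S : ℝ) := by
    have h3 : a₁ * N ≤ (1 - κ * vt) * N := mul_le_mul_of_nonneg_right (by rw [ha₁]; linarith) hN0.le
    linarith
  rcases lt_or_ge t (2 * L) with ht | ht
  · -- short words
    have h2 : ‖Gs d m r e t 0 S ((ζ : ℝ) / (m : ℝ) ^ N)‖ ≤ (d : ℝ) ^ t * Real.exp (-(c₁ * N)) := by
      refine (FD_norm_Gs_le _ _ _ _ _ _ _ _).trans ((cW_mono fun w _ hw => ?_).trans
        (hch N t ?_))
      · have : sg w = S := by omega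
        rw [this]
        exact hSN
      · have : (t : ℝ) ≤ 2 * L := by exact_mod_cast ht.le
        linarith
    refine h2.trans ?_
    calc (d : ℝ) ^ t * Real.exp (-(c₁ * N)) ≤ (d : ℝ) ^ t * (C' * (N : ℝ) ^ (-(a + c))) := by
          gcongr; exact hexp N hN
      _ = C' * (d : ℝ) ^ t * (N : ℝ) ^ (-(a + c)) := by ring
      _ ≤ (Ca * vt ^ (-a) * C₁ + C') * (d : ℝ) ^ t * (N : ℝ) ^ (-(a + c)) := by
          gcongr
          have : 0 ≤ Ca * vt ^ (-a) * C₁ := by positivity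
          linarith
  · obtain ⟨t', rfl⟩ := Nat.exists_eq_add_of_le ht
    set φ : ℝ := Ca * (vt * N) ^ (-a) with hφ
    have hφ0 : 0 ≤ φ := by positivity
    set f₁ : ℕ → ℝ := fun s' => φ + if a₁ * N ≤ (s' : ℝ) then 1 else 0 with hf₁
    have hbase : ∀ s' : ℕ, ‖Gs d m r e t' s' S
        ((ζ : ℝ) * (e : ℝ) ^ (2 * (0 + L)) * (m : ℝ) ^ s' / (m : ℝ) ^ N)‖ ≤
          (d : ℝ) ^ t' * f₁ s' := by
      intro s'
      by_cases hs' : a₁ * N ≤ (s' : ℝ)
      · refine ((FD_norm_Gs_le _ _ _ _ _ _ _ _).trans (cW_le_pow _ _ _)).trans ?_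
        have : 1 ≤ f₁ s' := by simp only [hf₁, if_pos hs']; linarith
        exact le_mul_of_one_le_right (by positivity) this
      · have hs1 : (s' : ℝ) < a₁ * N := not_le.1 hs'
        have hs2 : s' < N := by
          have : (s' : ℝ) < N := by
            refine hs1.trans_le ?_
            have : a₁ * N ≤ 1 * N := mul_le_mul_of_nonneg_right (by rw [ha₁]; linarith) hN0.le
            linarith
          exact_mod_cast this
        have hs3 : s' < S := by exact_mod_cast hs1.trans_le hSN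
        have hcast : ((N - s' : ℕ) : ℝ) = N - s' := by push_cast [hs2.le]; ring
        have hcast2 : ((S - s' : ℕ) : ℝ) = S - s' := by push_cast [hs3.le]; ring
        have hvN : vt * N ≤ (N : ℝ) - s' := by
          rw [ha₁] at hs1
          linarith
        have hmain := hP (N - s') (by omega) e ((pow_dvd_pow _ (Nat.sub_le _ _)).trans he)
          (ζ * e ^ (2 * L)) (by
            intro hdvd
            have hcop : IsCoprime (m : ℤ) e := by
              have h5 : (m : ℤ) ∣ (d : ℤ) * e - 1 := (dvd_pow_self _ (by omega)).trans he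
              obtain ⟨q, hq⟩ := h5
              exact ⟨-q, d, by linarith⟩
            exact hζ ((hcop.pow_right (n := 2 * L)).dvd_of_dvd_mul_right hdvd)) t' (S - s')
          (by
            rw [hcast, hcast2]
            have h7 : κ * (vt * N) ≤ κ * ((N : ℝ) - s') := mul_le_mul_of_nonneg_left hvN hκ.le
            nlinarith)
        have hx : ((ζ : ℝ) * (e : ℝ) ^ (2 * (0 + L)) * (m : ℝ) ^ s' / (m : ℝ) ^ N) =
            (((ζ * e ^ (2 * L) : ℤ) : ℝ) / (m : ℝ) ^ (N - s')) := by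
          have hpow : (m : ℝ) ^ N = (m : ℝ) ^ (N - s') * (m : ℝ) ^ s' := by
            rw [← pow_add]; congr 1; omega
          rw [hpow, zero_add]
          push_cast
          have : (m : ℝ) ^ s' ≠ 0 := by positivity
          field_simp
        have hG : Gs d m r e t' s' S
            ((ζ : ℝ) * (e : ℝ) ^ (2 * (0 + L)) * (m : ℝ) ^ s' / (m : ℝ) ^ N) =
            Gs d m r e t' 0 (S - s') (((ζ * e ^ (2 * L) : ℤ) : ℝ) / (m : ℝ) ^ (N - s')) := by
          rw [hx, Gs, Gs]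
          refine Finset.sum_congr (Finset.filter_congr fun w _ => ?_) fun _ _ => rfl
          omega
        rw [hG]
        refine hmain.trans ?_
        have h6 : ((N - s' : ℕ) : ℝ) ^ (-a) ≤ (vt * N) ^ (-a) := by
          rw [hcast]
          exact Real.rpow_le_rpow_of_nonpos (by positivity) hvN (by linarith)
        calc Ca * (d : ℝ) ^ t' * ((N - s' : ℕ) : ℝ) ^ (-a)
            ≤ Ca * (d : ℝ) ^ t' * (vt * N) ^ (-a) := by gcongr
          _ = (d : ℝ) ^ t' * φ := by rw [hφ]; ring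
          _ ≤ (d : ℝ) ^ t' * f₁ s' := by
              gcongr
              simp only [hf₁, if_neg hs']
              linarith
    have hG := Gs_le_Mj hd hm2 hK (r := r) he S t' (fun s' => (d : ℝ) ^ t' * f₁ s') L 0 0 hbase
    have hx0 : ((ζ : ℝ) * (e : ℝ) ^ (2 * 0) * (m : ℝ) ^ 0 / (m : ℝ) ^ N) =
        (ζ : ℝ) / (m : ℝ) ^ N := by simp
    rw [hx0, FD_Mj_smul] at hG
    have hM := Mj_le_add hd (White (d ^ 2) m N K₀ (ζ * (r 1 * ((d : ℤ) - 1)))) hε0 hε2 hφ0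
      (f := f₁) (a := a₁ * N) (fun s => le_rfl) L 0 0
    have hO := h1 N hN (ζ * (r 1 * ((d : ℤ) - 1))) (hn₀ ζ hζ)
    have hch2 : cW d (2 * L) (fun w => a₁ * N ≤ ((0 + sg w : ℕ) : ℝ)) ≤
        (d : ℝ) ^ (2 * L) * Real.exp (-(c₁ * N)) := by
      simp only [Nat.zero_add]
      refine hch N (2 * L) ?_
      push_cast
      linarith
    calc ‖Gs d m r e (2 * L + t') 0 S ((ζ : ℝ) / (m : ℝ) ^ N)‖
        ≤ (d : ℝ) ^ t' * Mj d (White (d ^ 2) m N K₀ (ζ * (r 1 * ((d : ℤ) - 1))))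
          (2 - 2 * Real.cos (Real.pi / K₀)) f₁ L 0 0 := hG
      _ ≤ (d : ℝ) ^ t' * (φ * (C₁ * (d : ℝ) ^ (2 * L) * (N : ℝ) ^ (-c)) +
            (d : ℝ) ^ (2 * L) * (C' * (N : ℝ) ^ (-(a + c)))) := by
          gcongr
          refine hM.trans (add_le_add (mul_le_mul_of_nonneg_left hO hφ0) (hch2.trans ?_))
          gcongr
          exact hexp N hN
      _ = (Ca * vt ^ (-a) * C₁ + C') * (d : ℝ) ^ (2 * L + t') * (N : ℝ) ^ (-(a + c)) := by
          rw [hφ, Real.mul_rpow hvt0.le hN0.le, neg_add, Real.rpow_add hN0, pow_add]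
          ring

/-- Block LDA: decay of the exponential sums, faster than any power, with `(1 - κ) N ≤ S`. -/
theorem fourier_decayS {d m : ℕ} (hd : 2 ≤ d) (hdm : d < m) (hco : Nat.Coprime m d)
    (hm : (m : ℝ) ≤ (d : ℝ) ^ ((d : ℝ) / ((d : ℝ) - 1))) {r : ℤ → ℤ} (hr : Admissible d m r)
    (h1 : OneBlock d m) : FourierDecayS d m r := by
  have hm0 : m ≠ 0 := by omega
  have hr1 : r 1 ≠ 0 := by
    intro h0
    have h2 := hr 1 one_pos (by omega)
    rw [h0, mul_one] at h2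
    have h3 : (d : ℤ) ∣ (m : ℤ) := by
      have := h2.dvd
      rwa [sub_zero] at this
    have h4 : d ∣ m := by exact_mod_cast h3
    have h5 : d ∣ 1 := by
      rw [← hco.gcd_eq_one]
      exact Nat.dvd_gcd h4 dvd_rfl
    have := Nat.le_of_dvd one_pos h5
    omega
  have hρ : r 1 * ((d : ℤ) - 1) ≠ 0 := mul_ne_zero hr1 (by omega)
  obtain ⟨θ, hθ0, hθ1, hθ2⟩ := FD_exists_theta hd hdm hco hm
  obtain ⟨c, C₁, hc, hC₁, h2⟩ := h1 (m ^ 2 + d ^ 2 + 1) ((r 1 * ((d : ℤ) - 1)).natAbs + 1) θ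
    (by omega) hθ1 hθ2
  have hK : 2 ≤ m ^ 2 + d ^ 2 + 1 := by
    have : 1 ≤ d ^ 2 := Nat.one_le_pow _ _ (by omega)
    omega
  have hstep : ∀ a : ℝ, 0 ≤ a → FDPs d m r a → FDPs d m r (a + c) := fun a ha hP =>
    FDs_step hd hdm hK hθ0 hθ2
      (fun ζ hζ hdvd => hζ (FD_dvd_of_pow_dvd hm0 hρ hdvd)) hC₁ h2 ha hP
  have hall : ∀ n : ℕ, FDPs d m r (n * c) := by
    intro n
    induction n with
    | zero => rw [Nat.cast_zero, zero_mul]; exact FDPs_zero d m r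
    | succ n ih =>
      have := hstep (n * c) (by positivity) ih
      push_cast
      rwa [add_mul, one_mul]
  intro A
  obtain ⟨n, hn⟩ := exists_nat_ge (A / c)
  exact FDPs_mono ((div_le_iff₀ hc).1 hn) (hall n)

end Pool.Agent.Helper8.PW
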