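import Pool.Agent.Helper52.Tao.MX1
import Pool.Agent.Helper8.PW.LDef

/-!
# Block LDB: one step of the fine-scale mixing, with more levels than non-zero digits

The proof of `Helper52.Tao.mixing_step` (helper14), from `FourierDecayS`.
-/

set_option autoImplicit false

namespace Pool.Agent.Helper8.PW

open Pool.Agent.Helper68.Moeller Pool.Agent.Helper52.Tao ComplexConjugate

/-- One typical word: the inner sum is small. -/
theorem inner_boundS {d m : ℕ} (hm1 : 2 ≤ m) {r : ℤ → ℤ} {C1 A' : ℝ}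
    (hC1 : 0 < C1) (hA' : 0 ≤ A')
    {κ : ℝ} (hfd : ∀ N : ℕ, 1 ≤ N → ∀ e : ℤ, (m : ℤ) ^ N ∣ (d : ℤ) * e - 1 →
      ∀ ζ : ℤ, ¬ (m : ℤ) ∣ ζ → ∀ t S : ℕ, (1 - κ) * N ≤ (S : ℝ) →
      ‖Gs d m r e t 0 S ((ζ : ℝ) / (m : ℝ) ^ N)‖ ≤ C1 * (d : ℝ) ^ t * (N : ℝ) ^ (-A'))
    {N k : ℕ} (hN : 1 ≤ N) (hk : k ≤ N) {c : ℝ} (hc : 0 < c) (hkc : (1 - c) * N ≤ k)
    {c' : ℝ} (hc'c : c' ≤ c) (hc' : c' ≤ 3 * c * κ) (hκ : 0 < κ)
    {e : ℤ} (he : (m : ℤ) ^ N ∣ (d : ℤ) * e - 1) {t' S : ℕ} (hS : (1 - c') * N ≤ (S : ℝ)) {j σ : ℕ}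
    (hσ : (σ : ℝ) ≤ (1 - 4 * c) * N) {ξ : ℕ} (hξ : ¬ m ^ (N - k) ∣ ξ) :
    ‖∑ v ∈ (W d t').filter (fun v => σ + sg v = S),
        ex (-((ξ : ℝ) * ((m : ℝ) ^ σ * (e : ℝ) ^ j * F m r e v) / (m : ℝ) ^ N))‖ ≤
      C1 * (d : ℝ) ^ t' * (3 * c * N) ^ (-A') := by
  have hm0 : (0 : ℝ) < m := by
    have : 0 < m := by omega
    exact_mod_cast this
  have hN' : (1 : ℝ) ≤ N := by exact_mod_cast hN
  have hξ0 : ξ ≠ 0 := by
    rintro rfl
    exact hξ (dvd_zero _)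
  obtain ⟨e0, ξ0, hnd, hξe⟩ := Nat.exists_eq_pow_mul_and_not_dvd hξ0 m (by omega)
  have he0 : e0 < N - k := by
    by_contra hcon
    push Not at hcon
    exact hξ (hξe ▸ Dvd.dvd.mul_right (pow_dvd_pow m hcon) _)
  have he0' : (e0 : ℝ) ≤ c * N := by
    have h1 : (e0 : ℝ) + k < N := by
      have : e0 + k < N := by omega
      exact_mod_cast this
    linarith
  have hsum : ((σ + e0 : ℕ) : ℝ) ≤ (1 - 3 * c) * N := by
    push_cast; linarith
  have hlt : σ + e0 < N := by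
    have h0 : 0 < 3 * c * N := by positivity
    have : ((σ + e0 : ℕ) : ℝ) < N := by linarith
    exact_mod_cast this
  obtain ⟨N', hN'eq⟩ : ∃ N', N = N' + (e0 + σ) := ⟨N - (e0 + σ), by omega⟩
  have hN'1 : 1 ≤ N' := by omega
  have hN'c : 3 * c * N ≤ (N' : ℝ) := by
    have h1 : (N : ℝ) = N' + ((σ + e0 : ℕ) : ℝ) := by
      rw [hN'eq]; push_cast; ring
    linarith
  have hdvd : (m : ℤ) ^ N' ∣ (d : ℤ) * e - 1 :=
    (pow_dvd_pow (m : ℤ) (by omega : N' ≤ N)).trans he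
  have hζ : ¬ (m : ℤ) ∣ (ξ0 : ℤ) * e ^ j := by
    intro h1
    have h2 : IsCoprime (m : ℤ) (e ^ j) := by
      have h3 : IsCoprime ((m : ℤ) ^ N) e := coprime_e he
      exact ((IsCoprime.pow_left_iff (by omega)).1 h3).pow_right
    have h3 := h2.dvd_of_dvd_mul_right h1
    exact hnd (by exact_mod_cast h3)
  have hσS : σ ≤ S := by
    have h1 : (1 - 4 * c) * (N : ℝ) ≤ (1 - c') * N :=
      mul_le_mul_of_nonneg_right (by linarith) (by linarith)
    have h2 : (σ : ℝ) ≤ S := by linarith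
    exact_mod_cast h2
  have hcast : ((S - σ : ℕ) : ℝ) = S - σ := by push_cast [hσS]; ring
  have hNN : (N : ℝ) = N' + (e0 + σ) := by exact_mod_cast hN'eq
  have hfin : (1 - κ) * (N' : ℝ) ≤ ((S - σ : ℕ) : ℝ) := by
    rw [hcast]
    have h1 : c' * (N : ℝ) ≤ 3 * c * κ * N := mul_le_mul_of_nonneg_right hc' (by linarith)
    have h2 : κ * (3 * c * N) ≤ κ * (N' : ℝ) := mul_le_mul_of_nonneg_left hN'c hκ.le
    have h3 : (0 : ℝ) ≤ (e0 : ℝ) := Nat.cast_nonneg _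
    have h4 : (1 - c') * (N : ℝ) = N - c' * N := by ring
    have h5 : 3 * c * κ * (N : ℝ) = κ * (3 * c * N) := by ring
    have h6 : (1 - κ) * (N' : ℝ) = N' - κ * N' := by ring
    linarith
  have h4 := hfd N' hN'1 e hdvd ((ξ0 : ℤ) * e ^ j) hζ t' (S - σ) hfin
  have h5 : ∑ v ∈ (W d t').filter (fun v => σ + sg v = S),
        ex (-((ξ : ℝ) * ((m : ℝ) ^ σ * (e : ℝ) ^ j * F m r e v) / (m : ℝ) ^ N)) =
      Gs d m r e t' 0 (S - σ) ((((ξ0 : ℤ) * e ^ j : ℤ) : ℝ) / (m : ℝ) ^ N') := by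
    unfold Gs
    refine Finset.sum_congr ?_ fun v _ => ?_
    · refine Finset.filter_congr fun v _ => ?_
      omega
    · congr 2
      rw [hN'eq, hξe]
      push_cast
      rw [pow_add, pow_add]
      field_simp
  rw [h5]
  refine h4.trans (mul_le_mul_of_nonneg_left ?_ (by positivity))
  exact Real.rpow_le_rpow_of_nonpos (by positivity) hN'c (by linarith)

theorem mixing_stepS {d m : ℕ} (hd : 2 ≤ d) (hdm : d < m) (hco : Nat.Coprime m d)
    (hm : (m : ℝ) ≤ (d : ℝ) ^ ((d : ℝ) / ((d : ℝ) - 1))) {r : ℤ → ℤ} (hr : Admissible d m r)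
    (h1 : FourierDecayS d m r) (A0 : ℝ) : ∃ C c : ℝ, 0 < C ∧ 0 < c ∧ c < 1 ∧
      ∀ N k : ℕ, 1 ≤ N → (1 - c) * N ≤ k → k ≤ N →
    ∀ e : ℤ, (m : ℤ) ^ N ∣ (d : ℤ) * e - 1 → ∀ t S : ℕ, (1 - c) * N ≤ (S : ℝ) →
      Osc d m r e t S N k ≤ C * (d : ℝ) ^ t * (N : ℝ) ^ (-A0) := by
  classical
  have hld := log_d_pos hd
  have hlm := log_m_gt hd hdm
  have hlt := log_m_lt hd hdm hco hm
  have hd' : (2 : ℝ) ≤ d := by exact_mod_cast hd
  have hd0 : (0 : ℝ) < d := by linarith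
  have hm2 : 2 ≤ m := by omega
  have hm0 : (0 : ℝ) < m := by
    have : 0 < m := by omega
    exact_mod_cast this
  have hm1 : (1 : ℝ) < m := by
    have : 1 < m := by omega
    exact_mod_cast this
  set A : ℝ := max A0 0 with hA
  have hA0 : 0 ≤ A := le_max_right _ _
  set θ : ℝ := Real.log m / Real.log d with hθ
  have hθ0 : 0 < θ := div_pos (hld.trans hlm) hld
  set b : ℝ := (1 - 1 / (d : ℝ)) * θ with hb
  have hb1 : b < 1 := by
    have e1 : b = ((d : ℝ) - 1) * Real.log m / (d * Real.log d) := by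
      rw [hb, hθ]; field_simp
    rw [e1, div_lt_one (by positivity)]
    exact hlt
  have hb0 : 0 < b := by
    refine mul_pos ?_ hθ0
    have : 1 / (d : ℝ) ≤ 1 / 2 := one_div_le_one_div_of_le (by norm_num) hd'
    linarith
  set c : ℝ := (1 - b) / 8 with hc
  have hc0 : 0 < c := by rw [hc]; linarith
  have hc1 : c < 1 := by rw [hc]; linarith
  obtain ⟨B, hB1, hB⟩ := exists_B d r
  have hB1' : (1 : ℝ) ≤ B := by exact_mod_cast hB1
  obtain ⟨κ, C2, hκ, hC2, hoff⟩ := off_tail hd hdm hco hm hB1 hB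
  obtain ⟨c2, hc2', hch2⟩ := chernoff hd hθ0 (a := 1 - 4 * c) (by rw [← hb, hc]; linarith)
  set A' : ℝ := (1 + A / κ + 2 * A) / 2 with hA'
  have hAk : 0 ≤ A / κ := div_nonneg hA0 hκ.le
  have hA'0 : 0 ≤ A' := by rw [hA']; positivity
  obtain ⟨κF, C1, hκF, hκF1, hC1, hfd⟩ := h1 A'
  obtain ⟨E2, hE2, hexp2⟩ := MX1_exp_neg_le (A := A) hc2'
  obtain ⟨E3, hE3, hexp3⟩ := MX1_exp_neg_le (A := A / κ + 1) (hld.trans hlm)
  obtain ⟨N₀, hN₀⟩ := exists_nat_gt (2 * B * E3)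
  set K2 : ℝ := (θ + 1) * (2 * B) * d * C1 ^ 2 * (3 * c) ^ (-(2 * A')) with hK2
  have hK20 : 0 < K2 := by positivity
  set E1 : ℝ := E2 with hE1def
  have hE1 : 0 < E1 := hE2
  set c' : ℝ := min c (3 * c * κF) with hc'
  have hc'0 : 0 < c' := lt_min hc0 (by positivity)
  have hc'c : c' ≤ c := min_le_left _ _
  have hc'κ : c' ≤ 3 * c * κF := min_le_right _ _
  refine ⟨2 * ((N₀ : ℝ) + 1) ^ A + 2 * E1 + 2 * C2 + 2 * E2 + Real.sqrt K2, c', by positivity, hc'0,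
    by linarith, ?_⟩
  intro N k hN hk1' hk2 e he t S hS
  have hk1 : (1 - c) * (N : ℝ) ≤ k := by
    have h0 : (0 : ℝ) ≤ (N : ℝ) := Nat.cast_nonneg _
    have : (1 - c) * (N : ℝ) ≤ (1 - c') * N := mul_le_mul_of_nonneg_right (by linarith) h0
    linarith
  have hS4 : (1 - 4 * c) * (N : ℝ) ≤ S := by
    have h0 : (0 : ℝ) ≤ (N : ℝ) := Nat.cast_nonneg _
    have : (1 - 4 * c) * (N : ℝ) ≤ (1 - c') * N := mul_le_mul_of_nonneg_right (by linarith) h0
    linarith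
  have hN' : (1 : ℝ) ≤ N := by exact_mod_cast hN
  have hN0 : (0 : ℝ) < N := by linarith
  have hq : 0 < m ^ k := pow_pos (by omega) k
  have hQ : 0 < m ^ (N - k) := pow_pos (by omega) _
  have hqQ : m ^ k * m ^ (N - k) = m ^ N := by rw [← pow_add, Nat.add_sub_cancel' hk2]
  have hdt : (0 : ℝ) < (d : ℝ) ^ t := by positivity
  have hNA : (0 : ℝ) < (N : ℝ) ^ (-A) := Real.rpow_pos_of_pos hN0 _
  -- reduce the exponent
  suffices hmain : Osc d m r e t S N k ≤ (2 * ((N₀ : ℝ) + 1) ^ A + 2 * E1 + 2 * C2 + 2 * E2 +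
      Real.sqrt K2) * (d : ℝ) ^ t * (N : ℝ) ^ (-A) by
    refine hmain.trans (mul_le_mul_of_nonneg_left ?_ (by positivity))
    exact Real.rpow_le_rpow_of_exponent_le hN' (by have := le_max_left A0 0; linarith)
  have hexpand : (2 * ((N₀ : ℝ) + 1) ^ A + 2 * E1 + 2 * C2 + 2 * E2 +
      Real.sqrt K2) * (d : ℝ) ^ t * (N : ℝ) ^ (-A) =
      2 * ((N₀ : ℝ) + 1) ^ A * ((d : ℝ) ^ t * (N : ℝ) ^ (-A)) +
      2 * E1 * ((d : ℝ) ^ t * (N : ℝ) ^ (-A)) + 2 * C2 * ((d : ℝ) ^ t * (N : ℝ) ^ (-A)) +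
      2 * E2 * ((d : ℝ) ^ t * (N : ℝ) ^ (-A)) +
      Real.sqrt K2 * ((d : ℝ) ^ t * (N : ℝ) ^ (-A)) := by ring
  have hp : (0 : ℝ) < (d : ℝ) ^ t * (N : ℝ) ^ (-A) := by positivity
  have hp1 : 0 ≤ 2 * ((N₀ : ℝ) + 1) ^ A * ((d : ℝ) ^ t * (N : ℝ) ^ (-A)) := by positivity
  have hp2 : 0 ≤ 2 * E1 * ((d : ℝ) ^ t * (N : ℝ) ^ (-A)) := by positivity
  have hp3 : 0 ≤ 2 * C2 * ((d : ℝ) ^ t * (N : ℝ) ^ (-A)) := by positivity
  have hp4 : 0 ≤ 2 * E2 * ((d : ℝ) ^ t * (N : ℝ) ^ (-A)) := by positivity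
  have hp5 : 0 ≤ Real.sqrt K2 * ((d : ℝ) ^ t * (N : ℝ) ^ (-A)) := by positivity
  rw [Osc_eq hk2, hexpand]
  set s : Finset (List ℕ) := (W d t).filter (fun w => sg w = S) with hs
  have hcW : ∀ (P : List ℕ → Prop) [DecidablePred P], (((W d t).filter P).card : ℝ) =
      cW d t P := by
    intro P _
    unfold cW
    congr!
  have htriv := oscI_le s (F m r e) hq hQ
  have hscard : (s.card : ℝ) ≤ (d : ℝ) ^ t := by
    rw [hs, hcW]
    exact cW_le_pow d t _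
  by_cases hsmall : N ≤ N₀
  · -- small N
    have h2 : (1 : ℝ) ≤ ((N₀ : ℝ) + 1) ^ A * (N : ℝ) ^ (-A) := by
      rw [Real.rpow_neg hN0.le, ← div_eq_mul_inv, one_le_div (by positivity)]
      refine Real.rpow_le_rpow hN0.le ?_ hA0
      have : (N : ℝ) ≤ N₀ := by exact_mod_cast hsmall
      linarith
    have h3 : (d : ℝ) ^ t ≤ (d : ℝ) ^ t * (((N₀ : ℝ) + 1) ^ A * (N : ℝ) ^ (-A)) :=
      le_mul_of_one_le_right hdt.le h2
    have h4 : 2 * ((N₀ : ℝ) + 1) ^ A * ((d : ℝ) ^ t * (N : ℝ) ^ (-A)) =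
        2 * ((d : ℝ) ^ t * (((N₀ : ℝ) + 1) ^ A * (N : ℝ) ^ (-A))) := by ring
    linarith
  push Not at hsmall
  -- the scale
  set Λ : ℝ := (N : ℝ) ^ (A / κ) with hΛ
  have hΛ1 : 1 ≤ Λ := Real.one_le_rpow hN' hAk
  have hΛ0 : 0 < Λ := by linarith
  have hL1 : 1 ≤ 2 * B * Λ := by
    have h2 : 1 ≤ (B : ℝ) * Λ := one_le_mul_of_one_le_of_one_le hB1' hΛ1
    linarith
  have hmN : (m : ℝ) ^ N = Real.exp (Real.log m * N) := by
    rw [← Real.rpow_natCast, Real.rpow_def_of_pos hm0]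
  have hLM : 2 * B * Λ < (m : ℝ) ^ N := by
    have h2 := hexp3 N hN
    have h3 : (N : ℝ) ^ (-(A / κ + 1)) = (Λ * N)⁻¹ := by
      rw [Real.rpow_neg hN0.le, Real.rpow_add hN0, Real.rpow_one]
    rw [h3, Real.exp_neg, ← hmN, ← div_eq_mul_inv, inv_eq_one_div,
      div_le_div_iff₀ (by positivity) (by positivity)] at h2
    -- Λ * N ≤ E3 * m ^ N
    have h4 : 2 * B * E3 < N := by
      have : (N₀ : ℝ) < N := by exact_mod_cast hsmall
      linarith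
    have h5 : (0 : ℝ) < (m : ℝ) ^ N := by positivity
    by_contra hcon
    push Not at hcon
    have h6 : 2 * B * E3 * (m : ℝ) ^ N < N * (m : ℝ) ^ N := mul_lt_mul_of_pos_right h4 h5
    have h7 : 2 * B * (Λ * N) ≤ 2 * B * (E3 * (m : ℝ) ^ N) :=
      mul_le_mul_of_nonneg_left (by linarith) (by positivity)
    have h8 : (m : ℝ) ^ N * N ≤ 2 * B * Λ * N := mul_le_mul_of_nonneg_right hcon hN0.le
    linarith
  obtain ⟨j, hj1, hj2⟩ := exists_level hd (by linarith : 0 < 2 * (B : ℝ) * Λ) hLM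
  have hjθ : (j : ℝ) ≤ θ * N := by
    have h2 : (d : ℝ) ^ j < (m : ℝ) ^ N := by
      have h3 : (0 : ℝ) < (d : ℝ) ^ j := by positivity
      exact (le_mul_of_one_le_left h3.le hL1).trans_lt hj1
    have h3 := Real.log_lt_log (by positivity) h2
    rw [Real.log_pow, Real.log_pow] at h3
    rw [hθ, div_mul_eq_mul_div, le_div_iff₀ hld]
    linarith
  rcases le_or_gt t j with htj | htj
  · -- few digits
    have h2 : (s.card : ℝ) ≤ cW d t (fun w => (1 - 4 * c) * (N : ℝ) ≤ (sg w : ℝ)) := by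
      rw [hs, hcW]
      refine cW_mono fun w _ hw => ?_
      rw [hw]
      exact hS4
    have h3 := hch2 N t (by
      have : (t : ℝ) ≤ j := by exact_mod_cast htj
      linarith)
    have h4 := mul_le_mul_of_nonneg_left (hexp2 N hN) hdt.le
    have h5 : 2 * E1 * ((d : ℝ) ^ t * (N : ℝ) ^ (-A)) =
      2 * ((d : ℝ) ^ t * (E1 * (N : ℝ) ^ (-A))) := by ring
    linarith
  -- many digits
  obtain ⟨t', rfl⟩ : ∃ t', t = j + t' := ⟨t - j, by omega⟩
  set Ty : List ℕ → Prop := fun u => |(Off d m r u : ℝ)| ≤ B * Λ * (d : ℝ) ^ j ∧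
    (sg u : ℝ) ≤ (1 - 4 * c) * N with hTy
  have hsplit := oscI_split s (F m r e) (m ^ k) (m ^ (N - k)) (fun w => Ty (w.take j))
  -- atypical words
  have hatyp : oscI (s.filter (fun w => ¬ Ty (w.take j))) (F m r e) (m ^ k) (m ^ (N - k)) ≤
      2 * C2 * ((d : ℝ) ^ (j + t') * (N : ℝ) ^ (-A)) +
        2 * E2 * ((d : ℝ) ^ (j + t') * (N : ℝ) ^ (-A)) := by
    refine (oscI_le _ _ hq hQ).trans ?_
    have h2 : ((s.filter (fun w => ¬ Ty (w.take j))).card : ℝ) ≤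
        cW d (j + t') (fun w => ¬ Ty (w.take j)) := by
      rw [← hcW, hs, Finset.filter_filter]
      exact_mod_cast Finset.card_le_card (fun w hw => by
        rw [Finset.mem_filter] at hw ⊢
        exact ⟨hw.1, hw.2.2⟩)
    have h3 := cW_take d j t' (fun u => ¬ Ty u)
    have h4 : cW d j (fun u => ¬ Ty u) ≤
        cW d j (fun u => B * Λ * (d : ℝ) ^ j < |(Off d m r u : ℝ)|) +
          cW d j (fun u => (1 - 4 * c) * (N : ℝ) ≤ (sg u : ℝ)) := by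
      refine (cW_mono fun u _ hu => ?_).trans (cW_or_le d j _ _)
      by_contra hcon
      push Not at hcon
      exact hu ⟨hcon.1, hcon.2.le⟩
    have h5 := hoff j Λ hΛ1
    have h6 : Λ ^ (-κ) = (N : ℝ) ^ (-A) := by
      rw [hΛ, ← Real.rpow_mul hN0.le]
      congr 1
      field_simp
    have h7 := hch2 N j hjθ
    have h8 := mul_le_mul_of_nonneg_left (hexp2 N hN) (by positivity : (0 : ℝ) ≤ (d : ℝ) ^ j)
    rw [h6] at h5
    have h9 : cW d j (fun u => ¬ Ty u) * (d : ℝ) ^ t' ≤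
        (C2 * (d : ℝ) ^ j * (N : ℝ) ^ (-A) + (d : ℝ) ^ j * (E2 * (N : ℝ) ^ (-A))) *
          (d : ℝ) ^ t' := mul_le_mul_of_nonneg_right (by linarith) (by positivity)
    rw [← h3] at h9
    have h10 : (C2 * (d : ℝ) ^ j * (N : ℝ) ^ (-A) + (d : ℝ) ^ j * (E2 * (N : ℝ) ^ (-A))) *
        (d : ℝ) ^ t' = C2 * ((d : ℝ) ^ (j + t') * (N : ℝ) ^ (-A)) +
        E2 * ((d : ℝ) ^ (j + t') * (N : ℝ) ^ (-A)) := by rw [pow_add]; ring
    linarith
  -- typical words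
  have htyp : oscI (s.filter (fun w => Ty (w.take j))) (F m r e) (m ^ k) (m ^ (N - k)) ≤
      Real.sqrt K2 * ((d : ℝ) ^ (j + t') * (N : ℝ) ^ (-A)) := by
    have hcore := core (d := d) (m := m) (r := r) (e := e) (j := j) (t' := t') (S := S) hq hQ Ty
      (C1 * (d : ℝ) ^ t' * (3 * c * N) ^ (-A')) ?_ ?_ (s.filter (fun w => Ty (w.take j)))
      (fun w => by rw [Finset.mem_filter, hs, Finset.mem_filter, and_assoc])
    · have h2 : 0 ≤ Real.sqrt K2 * ((d : ℝ) ^ (j + t') * (N : ℝ) ^ (-A)) := by positivity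
      refine (sq_le_sq₀ (Finset.sum_nonneg fun _ _ => abs_nonneg _) h2).1 (hcore.trans ?_)
      have h3 : ((m ^ k * m ^ (N - k) : ℕ) : ℝ) = (m : ℝ) ^ N := by rw [hqQ]; push_cast; rfl
      rw [h3, mul_pow (Real.sqrt K2), Real.sq_sqrt hK20.le]
      have h4 : (j : ℝ) + 1 ≤ (θ + 1) * N := by
        have h40 : (θ + 1) * (N : ℝ) = θ * N + N := by ring
        linarith
      have h5 : ((3 * c * (N : ℝ)) ^ (-A')) ^ 2 =
          (3 * c) ^ (-(2 * A')) * (N : ℝ) ^ (-(2 * A')) := by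
        rw [← Real.mul_rpow (by positivity) hN0.le, ← Real.rpow_natCast, ← Real.rpow_mul
          (by positivity)]
        congr 1
        push_cast; ring
      have h6 : (N : ℝ) * Λ * (N : ℝ) ^ (-(2 * A')) = ((N : ℝ) ^ (-A)) ^ 2 := by
        rw [hΛ, ← Real.rpow_natCast, ← Real.rpow_mul hN0.le]
        nth_rewrite 1 [← Real.rpow_one (N : ℝ)]
        rw [← Real.rpow_add hN0, ← Real.rpow_add hN0]
        congr 1
        rw [hA']
        push_cast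
        ring
      calc ((j : ℝ) + 1) * (m : ℝ) ^ N * (d : ℝ) ^ j *
            (C1 * (d : ℝ) ^ t' * (3 * c * (N : ℝ)) ^ (-A')) ^ 2
          ≤ ((θ + 1) * N) * (2 * B * Λ * (d : ℝ) ^ (j + 1)) * (d : ℝ) ^ j *
            (C1 * (d : ℝ) ^ t' * (3 * c * (N : ℝ)) ^ (-A')) ^ 2 := by
            gcongr
        _ = ((θ + 1) * (2 * B) * d * C1 ^ 2) * (((d : ℝ) ^ j) ^ 2 * ((d : ℝ) ^ t') ^ 2) *
            ((N : ℝ) * Λ * ((3 * c * (N : ℝ)) ^ (-A')) ^ 2) := by ring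
        _ = ((θ + 1) * (2 * B) * d * C1 ^ 2 * (3 * c) ^ (-(2 * A'))) *
            (((d : ℝ) ^ j) ^ 2 * ((d : ℝ) ^ t') ^ 2) *
            ((N : ℝ) * Λ * (N : ℝ) ^ (-(2 * A'))) := by rw [h5]; ring
        _ = K2 * ((d : ℝ) ^ (j + t') * (N : ℝ) ^ (-A)) ^ 2 := by
            rw [h6, ← hK2, pow_add]; ring
    · -- injectivity
      intro u hu u' hu' hTu hTu' hsg hdvd
      have h3 : ((m ^ k * m ^ (N - k) : ℕ) : ℤ) = (m : ℤ) ^ N := by rw [hqQ]; push_cast; rfl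
      rw [h3] at hdvd
      have h4 := F_modEq (m := m) (r := r) he u
      have h5 := F_modEq (m := m) (r := r) he u'
      rw [length_of_mem_W hu] at h4
      rw [length_of_mem_W hu'] at h5
      have h6 : (m : ℤ) ^ N ∣ e ^ j * (Off d m r u - Off d m r u') := by
        have h7 := dvd_sub (dvd_sub h4 h5) hdvd
        have h8 : (F m r e u + e ^ j * Off d m r u - (F m r e u' + e ^ j * Off d m r u')) -
          (F m r e u - F m r e u') = e ^ j * (Off d m r u - Off d m r u') := by ring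
        rwa [h8] at h7
      have h7 : (m : ℤ) ^ N ∣ Off d m r u - Off d m r u' :=
        ((coprime_e he).pow_right).dvd_of_dvd_mul_left h6
      have h8 : |Off d m r u - Off d m r u'| < (m : ℤ) ^ N := by
        have h9 : (|Off d m r u - Off d m r u'| : ℝ) < (m : ℝ) ^ N := by
          refine (abs_sub _ _).trans_lt ?_
          have := hTu.1
          have := hTu'.1
          linarith
        exact_mod_cast h9
      have h9 := Int.eq_zero_of_abs_lt_dvd h7 h8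
      exact Off_inj hd hco hr hu hu' hsg (by linarith)
    · -- decay
      intro ξ _ hξ u _ hTu
      have h3 : ((m ^ k * m ^ (N - k) : ℕ) : ℝ) = (m : ℝ) ^ N := by rw [hqQ]; push_cast; rfl
      rw [h3]
      exact inner_boundS hm2 hC1 hA'0 hfd hN hk2 hc0 hk1 hc'c hc'κ hκF he hS hTu.2 hξ
  linarith



/-- Block LDB. -/
theorem mixS {d m : ℕ} (hd : 2 ≤ d) (hdm : d < m) (hco : Nat.Coprime m d)
    (hm : (m : ℝ) ≤ (d : ℝ) ^ ((d : ℝ) / ((d : ℝ) - 1))) {r : ℤ → ℤ} (hr : Admissible d m r)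
    (h1 : FourierDecayS d m r) : MixS d m r := by
  intro A0
  set A : ℝ := max A0 0 with hA
  have hA0 : 0 ≤ A := le_max_right _ _
  obtain ⟨C, c, hC, hc, hc1, h⟩ := mixing_stepS hd hdm hco hm hr h1 A
  refine ⟨c, C, hc, hC, fun S k hS hk e he t => ?_⟩
  have hS1 : (1 : ℝ) ≤ S := by exact_mod_cast hS
  have hk0 : (0 : ℝ) ≤ (k : ℝ) := Nat.cast_nonneg _
  have h2 : (1 - c) * ((S + k : ℕ) : ℝ) ≤ (S : ℝ) := by
    push_cast
    nlinarith
  refine (h (S + k) S (by omega) h2 (Nat.le_add_right _ _) e he t S h2).trans ?_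
  have h3 : ((S + k : ℕ) : ℝ) ^ (-A) ≤ (S : ℝ) ^ (-A0) := by
    calc ((S + k : ℕ) : ℝ) ^ (-A) ≤ (S : ℝ) ^ (-A) := by
          refine Real.rpow_le_rpow_of_nonpos (by linarith) ?_ (by linarith)
          push_cast
          linarith
      _ ≤ (S : ℝ) ^ (-A0) := Real.rpow_le_rpow_of_exponent_le hS1 (by
          have := le_max_left A0 0
          linarith)
  gcongr

end Pool.Agent.Helper8.PW
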