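import Pool.Agent.Helper52.Tao.U3
import Pool.Agent.Helper8.PW.FDs
import Pool.Agent.Helper8.PW.MIXs

/-!
# `MixS` for all the admissible maps
-/

set_option autoImplicit false

namespace Pool.Agent.Helper8.PW

open Pool.Agent.Helper68.Moeller Pool.Agent.Helper52.Tao

theorem mixS_std {d m : ℕ} {r : ℤ → ℤ} (h : Pool.Agent.Helper28.POSB.Std d m r) : MixS d m r :=
  mixS h.hd h.hdm h.hco h.hw h.hr
    (fourier_decayS h.hd h.hdm h.hco h.hw h.hr (one_block h.hd h.hdm h.hco h.hw))

end Pool.Agent.Helper8.PW
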