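import Pool.Agent.Helper8.PW.Fin

/-!
# The level of distribution with the natural density; windows above `B`
-/

set_option autoImplicit false

namespace Pool.Agent.Helper8.PW

open Pool.Agent.Helper68.Moeller Pool.Agent.Helper52.Tao Pool.Agent.Helper8.ND Pool.Agent.Helper8.CO
  Pool.Agent.Helper28 Pool.Agent.Helper91 Filter Topology

variable {d m : ℕ} {r : ℤ → ℤ}

/-- The level of distribution, with the density of the set. -/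
theorem level_dens (h : POSB.Std d m r) (hl : LevelD d m r) : ∃ θ : ℝ, 0 < θ ∧ ∀ z ε : ℝ, 0 < ε →
    ∃ X : ℝ, 1 ≤ X ∧ ∀ G : Set ℤ, TInv d m r G z → ∀ x : ℝ, X ≤ x → ∀ i j : ℕ,
      (d : ℝ) ^ i * (m : ℝ) ^ j ≤ x ^ θ → ∀ b : ℤ, |fdc G (d ^ i * m ^ j) b x - PL.dens G| ≤ ε := by
  obtain ⟨θ, hθ, hl⟩ := hl
  refine ⟨θ, hθ, fun z ε hε => ?_⟩
  obtain ⟨X, hX⟩ := hl z (ε / 2) (by linarith)
  refine ⟨max X 1, le_max_right _ _, fun G hG x hx i j hij b => ?_⟩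
  obtain ⟨D, hD0, hD⟩ := hX G hG
  have h1 := (hD x ((le_max_left _ _).trans hx)).2 i j hij b
  have h2 : |PL.dens G - D| ≤ ε / 2 := by
    have ht := PL.stab_tendsto h.hd h.hdm h.hco h.hr h.gam h.mix hG
    have ht2 : Tendsto (fun A : ℝ => |fd G A - D|) atTop (𝓝 |PL.dens G - D|) := (ht.sub_const D).abs
    refine le_of_tendsto ht2 ?_
    filter_upwards [eventually_ge_atTop X] with y hy
    exact (hD y hy).1
  calc |fdc G (d ^ i * m ^ j) b x - PL.dens G| = |(fdc G (d ^ i * m ^ j) b x - D) - (PL.dens G - D)| := by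
        congr 1; ring
    _ ≤ |fdc G (d ^ i * m ^ j) b x - D| + |PL.dens G - D| := abs_sub _ _
    _ ≤ ε := by linarith

/-- The number itself. -/
theorem level_count (h : POSB.Std d m r) (hl : LevelD d m r) : ∃ θ : ℝ, 0 < θ ∧ ∀ ε : ℝ, 0 < ε →
    ∃ X : ℝ, ∀ (G : Set ℤ) (D : ℝ), POSB.Inv d m r G → Tendsto (fun x : ℝ => cN G x / x) atTop (𝓝 D) →
      ∀ x : ℝ, X ≤ x → ∀ i j : ℕ, (d : ℝ) ^ i * (m : ℝ) ^ j ≤ x ^ θ → ∀ b : ℤ,
        |({n : ℤ | x ≤ n ∧ (n : ℝ) < 2 * x ∧ n ∈ G ∧ ((d : ℤ) ^ i * (m : ℤ) ^ j) ∣ n - b}.ncard : ℝ) -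
          D * x / ((d : ℝ) ^ i * (m : ℝ) ^ j)| ≤ ε * x / ((d : ℝ) ^ i * (m : ℝ) ^ j) := by
  obtain ⟨θ, hθ, hl⟩ := level_dens h hl
  refine ⟨θ, hθ, fun ε hε => ?_⟩
  obtain ⟨X, hX1, hX⟩ := hl 0 ε hε
  refine ⟨X, fun G D hG hD x hx i j hij b => ?_⟩
  have hdens : PL.dens G = D := tendsto_nhds_unique (POSB.tendsto_dens h hG.tinv) hD
  have h1 := hX G hG.tinv x hx i j hij b
  rw [hdens] at h1
  have hx0 : 0 < x := by linarith
  have hd0 : (0 : ℝ) < d := by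
    have := h.hd
    exact_mod_cast (by omega : 0 < d)
  have hm0 : (0 : ℝ) < m := by
    have h2 := h.hd
    have h3 := h.hdm
    exact_mod_cast (by omega : 0 < m)
  have hN : (0 : ℝ) < (d : ℝ) ^ i * (m : ℝ) ^ j := by positivity
  have hset : {n : ℤ | x ≤ n ∧ (n : ℝ) < 2 * x ∧ n ∈ G ∧ ((d : ℤ) ^ i * (m : ℤ) ^ j) ∣ n - b} =
      {n : ℤ | x ≤ n ∧ (n : ℝ) < 2 * x ∧ ((d ^ i * m ^ j : ℕ) : ℤ) ∣ n - b ∧ n ∈ G} := by
    ext n
    simp only [Set.mem_ofPred_eq]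
    push_cast
    tauto
  rw [hset]
  unfold fdc at h1
  push_cast at h1 ⊢
  set c : ℝ := ({n : ℤ | x ≤ n ∧ (n : ℝ) < 2 * x ∧ ((d : ℤ) ^ i * (m : ℤ) ^ j) ∣ n - b ∧ n ∈ G}.ncard : ℝ) with hc
  set N : ℝ := (d : ℝ) ^ i * (m : ℝ) ^ j with hNd
  have e : c - D * x / N = (c * N / x - D) * (x / N) := by
    field_simp
  rw [e, abs_mul, abs_of_pos (div_pos hx0 hN)]
  calc |c * N / x - D| * (x / N) ≤ ε * (x / N) := mul_le_mul_of_nonneg_right h1 (div_pos hx0 hN).le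
    _ = ε * x / N := by ring

/-- If the exceptional set is infinite then there are whole windows above `B`. -/
theorem exc_win {r : ℤ → ℤ} (hr : Admissible 2 3 r) {ε δ₀ : ℝ}
    (key : ∀ z η : ℝ, 0 ≤ z → 0 < η → ∃ X : ℝ, ∀ G : Set ℤ, TInv 2 3 r G z → η ≤ PL.dens G →
      ∀ δ : ℝ, δ ≤ δ₀ → ∀ x : ℝ, X ≤ x → x ^ (1 - ε) ≤ ((Win (r 1) δ G x).ncard : ℝ))
    (hE : (E 2 3 r).Infinite) (B : ℝ) : ∃ X : ℝ, ∀ x : ℝ, X ≤ x →
      x ^ (1 - ε) ≤ ((Win (r 1) δ₀ {n : ℤ | ∀ t : ℕ, B < ((T 2 3 r)^[t] n : ℝ)} x).ncard : ℝ) := by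
  have hstd : POSB.Std 2 3 r := ⟨le_refl 2, by norm_num, by norm_num, POS.three_hyp.1, hr⟩
  obtain ⟨β, hβ, hEβ⟩ := POSB.above hstd
  have hβ0 : β (max B 0) ≠ 0 := fun h0 => hE (hEβ.2 ⟨_, h0⟩)
  have hβ1 : 0 < β (max B 0) := by
    refine lt_of_le_of_ne (ge_of_tendsto (hβ (max B 0)) ?_) hβ0.symm
    filter_upwards [eventually_gt_atTop 0] with x hx
    exact div_nonneg (cN_nonneg _ x) hx.le
  have hti := POSB.tinv_Above (d := 2) (m := 3) (r := r) (max B 0)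
  have hdens : PL.dens (POSB.Above 2 3 r (max B 0)) = β (max B 0) :=
    tendsto_nhds_unique (POSB.tendsto_dens hstd hti) (hβ (max B 0))
  obtain ⟨X, hX⟩ := key (max B 0) (β (max B 0)) (le_max_right _ _) hβ1
  refine ⟨X, fun x hx => (hX _ hti hdens.ge δ₀ le_rfl x hx).trans ?_⟩
  have hsub : Win (r 1) δ₀ (POSB.Above 2 3 r (max B 0)) x ⊆
      Win (r 1) δ₀ {n : ℤ | ∀ t : ℕ, B < ((T 2 3 r)^[t] n : ℝ)} x := by
    rintro n ⟨h1, h2, h3⟩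
    refine ⟨h1, h2, fun h hh hd hle t => ?_⟩
    exact lt_of_le_of_lt (le_max_left B 0) (h3 h hh hd hle t)
  exact_mod_cast Set.ncard_le_ncard hsub (Win_finite δ₀ _ x)

end Pool.Agent.Helper8.PW
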