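import Pool.Agent.Helper8.CO.Def

/-!
# Power intervals: the tilted chain

As in `Helper8/CO/Def`, the state of a pair `(y, y')`, `y' = 3 ^ c y + ρ β`, is `(c, β)`; the digit is the parity of `y`. Here the
digit `1` has the probability `(1 + α) / 2`. `b1 α M k s` is the probability that the chain neither visits a state `(0, β)` in `k` steps,
or that it reaches the level `M` before; `b2 j k s` is the (untilted) probability that it visits a state `(0, β)` in the first `k`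
steps and that the orbits have not merged after `k + j` steps. `om α ρ k y` is the density of the first `k` digits of `y`.

Blocks.
* P1 `b1_le`: there is `C` with `b1 α M k s ≤ C (c + α M) / (α k) + c / M` if `α (log (M + 1) + 1) ≤ 1 / C`, `c ≤ M`.
* P2 `b2_le`. P3 `weighted`. P4 `CL`: one word for the base point merges most of a family of states.
* P5 `KeyK`: windows.
-/

set_option autoImplicit false

namespace Pool.Agent.Helper8.PW

open Pool.Agent.Helper68.Moeller Pool.Agent.Helper8.CO Finset Classical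

/-- The mean after one step, if the digit `1` has the probability `(1 + α) / 2`. -/
noncomputable def av1 (α : ℝ) (f : ℕ × ℤ → ℝ) (s : ℕ × ℤ) : ℝ :=
  ((1 - α) * f (nx0 s) + (1 + α) * f (nx1 s)) / 2

/-- No visit of the level `0` in `k` steps, or the level `M` is reached before. -/
noncomputable def b1 (α : ℝ) (M : ℕ) : ℕ → ℕ × ℤ → ℝ
  | 0 => fun s => if s.1 = 0 then 0 else 1
  | k + 1 => fun s => if s.1 = 0 then 0 else if M ≤ s.1 then 1 else av1 α (b1 α M k) s

/-- A visit of the level `0` in the first `k` steps, but no merging in `k + j` steps. -/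
noncomputable def b2 (j : ℕ) : ℕ → ℕ × ℤ → ℝ
  | 0 => fun s => if s.1 = 0 then uu j s else 0
  | k + 1 => fun s => if s.1 = 0 then uu (j + (k + 1)) s else av (b2 j k) s

theorem b1_zero (α : ℝ) (M : ℕ) (s : ℕ × ℤ) : b1 α M 0 s = if s.1 = 0 then 0 else 1 := rfl

theorem b1_succ (α : ℝ) (M k : ℕ) (s : ℕ × ℤ) :
    b1 α M (k + 1) s = if s.1 = 0 then 0 else if M ≤ s.1 then 1 else av1 α (b1 α M k) s := rfl

theorem b2_zero (j : ℕ) (s : ℕ × ℤ) : b2 j 0 s = if s.1 = 0 then uu j s else 0 := rfl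

theorem b2_succ (j k : ℕ) (s : ℕ × ℤ) :
    b2 j (k + 1) s = if s.1 = 0 then uu (j + (k + 1)) s else av (b2 j k) s := rfl

/-- The density of the first `k` digits of `y`. -/
noncomputable def om (α : ℝ) (ρ : ℤ) : ℕ → ℤ → ℝ
  | 0, _ => 1
  | k + 1, y => (if (2 : ℤ) ∣ y then 1 - α else 1 + α) * om α ρ k (T 2 3 (fun _ => ρ) y)

/-- P4: one word for the base point merges most of the states of a family. -/
def CLP (ρ : ℤ) : Prop := ∀ ε K : ℝ, 0 < ε → 1 ≤ K → ∃ S₀ : ℕ, ∀ S : ℕ, S₀ ≤ S → ∀ (I : Finset ℕ) (st : ℕ → ℕ × ℤ),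
  (∀ i ∈ I, ((st i).1 : ℝ) ≤ K * Real.sqrt S ∧ Zs (st i) ≤ K * S) →
    ∃ Y : ℤ, ({i ∈ I | ¬ MM ρ S (st i).1 Y (3 ^ (st i).1 * Y + ρ * (st i).2)}.card : ℝ) ≤ ε * I.card

/-- P5: in a suitable residue class modulo `2 ^ S` the orbits of most of the points `a + ρ η`, `η ≤ H`, merge, `H ^ 50 ≤ 2 ^ S`. -/
def KeyK (ρ : ℤ) : Prop := ∀ ε : ℝ, 0 < ε → ∃ S₀ : ℕ, ∀ S : ℕ, S₀ ≤ S → ∀ H : ℕ, (H : ℝ) ^ 50 ≤ 2 ^ S →
  ∃ (a : ℤ) (η₀ : ℕ), η₀ ≤ H ∧
    ({η ∈ range (H + 1) | ¬ MM ρ S 0 (a + ρ * η₀) (a + ρ * η)}.card : ℝ) ≤ ε * (H + 1)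

end Pool.Agent.Helper8.PW
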