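import Pool.Agent.Helper8.PW.Def
import Pool.Agent.Helper8.CO.Zz

/-!
# P2: the bound for `b2`
-/

set_option autoImplicit false

namespace Pool.Agent.Helper8.PW

open Pool.Agent.Helper68.Moeller Pool.Agent.Helper8.CO Finset

theorem b2_nonneg (j k : ℕ) (s : ℕ × ℤ) : 0 ≤ b2 j k s := by
  induction k generalizing s with
  | zero => rw [b2_zero]; split_ifs; exacts [uu_nonneg _ _, le_refl _]
  | succ k ih =>
    rw [b2_succ]
    split_ifs
    · exact uu_nonneg _ _
    · unfold av; linarith [ih (nx0 s), ih (nx1 s)]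

theorem b2_le {j : ℕ} {e q : ℝ} (he : 0 ≤ e) (hq : 0 < q)
    (h : ∀ β : ℤ, qq (0, β) ≤ q → uu j (0, β) ≤ e) (k : ℕ) (s : ℕ × ℤ) :
    b2 j k s ≤ e + (qq s + k) / q := by
  have hz : ∀ (i : ℕ) (s : ℕ × ℤ), s.1 = 0 → uu (j + i) s ≤ e + (qq s + i) / q := by
    intro i s hs
    obtain ⟨c, β⟩ := s
    simp only at hs
    subst hs
    have h0 : 0 ≤ qq (0, β) := qq_nonneg _
    rcases le_or_gt (qq (0, β)) q with h1 | h1
    · have h2 := h β h1
      have h3 : uu (j + i) (0, β) ≤ uu j (0, β) := uu_anti (by omega) _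
      have : 0 ≤ (qq (0, β) + i) / q := by positivity
      linarith
    · have h3 := uu_le_one (j + i) (0, β)
      have h4 : 1 ≤ (qq (0, β) + i) / q := by
        rw [le_div_iff₀ hq]
        have : (0 : ℝ) ≤ i := by positivity
        linarith
      linarith
  induction k generalizing s with
  | zero =>
    rw [b2_zero]
    split_ifs with h0
    · exact hz 0 s h0
    · have := qq_nonneg s
      positivity
  | succ k ih =>
    rw [b2_succ]
    split_ifs with h0
    · exact hz (k + 1) s h0
    · have h1 := ih (nx0 s)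
      have h2 := ih (nx1 s)
      have h3 := av_qq s
      unfold av at h3 ⊢
      have h4 := qq_nonneg s
      have e1 : (e + (qq (nx0 s) + k) / q + (e + (qq (nx1 s) + k) / q)) / 2 =
          e + ((qq (nx0 s) + qq (nx1 s)) / 2 + k) / q := by
        field_simp
        ring
      have h5 : ((qq (nx0 s) + qq (nx1 s)) / 2 + k) / q ≤ (qq s + ((k + 1 : ℕ) : ℝ)) / q := by
        apply div_le_div_of_nonneg_right _ hq.le
        push_cast
        linarith
      linarith

end Pool.Agent.Helper8.PW
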