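import Pool.Agent.Helper8.PW.Fin2

/-!
# Draft of the statement of `PowerIntervals`
-/

set_option autoImplicit false

namespace Pool.Agent.Helper8.PW.ResDraft

open Pool.Agent.Helper68.Moeller Pool.Agent.Helper8 Pool.Agent.Helper28 Pool.Agent.Helper8.PW
  Pool.Agent.Helper8.ND Pool.Agent.Helper91 Filter Topology

/-- The natural density (in the positive integers). -/
def HasDensity (A : Set ℤ) (D : ℝ) : Prop :=
  Tendsto (fun x : ℝ => ({n : ℤ | n ∈ A ∧ 0 < n ∧ (n : ℝ) ≤ x}.ncard : ℝ) / x) atTop (𝓝 D)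

/-- `G` is invariant under `T`, in the positive integers. -/
def Inv (d m : ℕ) (r : ℤ → ℤ) (G : Set ℤ) : Prop := ∀ n : ℤ, 0 < n → (n ∈ G ↔ T d m r n ∈ G)

/-- The number of the `n ∈ [x, 2x)` with the property `P`. -/
noncomputable def num (P : ℤ → Prop) (x : ℝ) : ℝ := ({n : ℤ | x ≤ n ∧ (n : ℝ) < 2 * x ∧ P n}.ncard : ℝ)

/-- The number of the odd integers among the first `t` points of the orbit of `n`. -/
def odds (r : ℤ → ℤ) (t : ℕ) (n : ℤ) : ℕ :=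
  ((Finset.range t).filter (fun i => ¬ (2 : ℤ) ∣ (T 2 3 r)^[i] n)).card

/-- The orbits of `n` and `n'` meet after `t` steps, with equally many odd points before. -/
def Meet (r : ℤ → ℤ) (t : ℕ) (n n' : ℤ) : Prop :=
  (T 2 3 r)^[t] n = (T 2 3 r)^[t] n' ∧ odds r t n = odds r t n'

/-- The map `(3x + 1) / 2`, `x / 2`. -/
def T3 : ℤ → ℤ := T 2 3 (fun _ => -1)

theorem odds_eq (ρ : ℤ) (t : ℕ) (n : ℤ) : odds (fun _ => ρ) t n = cnt 2 3 (fun _ => ρ) t n := by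
  induction t generalizing n with
  | zero => rfl
  | succ t ih =>
    rw [cnt, ← ih]
    unfold odds
    rw [Finset.card_filter, Finset.card_filter, Finset.sum_range_succ', add_comm]
    congr 1
    rw [Function.iterate_zero, id_eq]
    rcases em ((2 : ℤ) ∣ n) with h | h
    · rw [if_neg (not_not.2 h), if_pos (by exact_mod_cast h)]
    · rw [if_pos h, if_neg (by exact_mod_cast h)]

theorem odds_const (r : ℤ → ℤ) (t : ℕ) (n : ℤ) : odds r t n = odds (fun _ => r 1) t n := by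
  unfold odds
  rw [CO.T_eq (r := r)]

theorem meet_iff (r : ℤ → ℤ) (t : ℕ) (n n' : ℤ) : Meet r t n n' ↔ CO.MM (r 1) t 0 n n' := by
  unfold Meet CO.MM
  rw [odds_const r t n, odds_const r t n', odds_eq, odds_eq, CO.T_eq (r := r), add_zero]

/-- **Invariant sets in residue classes and in short intervals.** -/
theorem result_of
    (hLD : ∀ (d m : ℕ) (r : ℤ → ℤ), POSB.Std d m r → LevelD d m r)
    (hSW : ∀ ρ : ℤ, Odd ρ → SW ρ) :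
    -- level of distribution
    (∀ (d m : ℕ), 2 ≤ d → d < m → Nat.Coprime m d →
      (m : ℝ) ≤ (d : ℝ) ^ ((d : ℝ) / ((d : ℝ) - 1)) → ∀ r : ℤ → ℤ, Admissible d m r →
      ∃ θ : ℝ, 0 < θ ∧ ∀ ε : ℝ, 0 < ε → ∃ X : ℝ, ∀ (G : Set ℤ) (D : ℝ), Inv d m r G → HasDensity G D →
        ∀ x : ℝ, X ≤ x → ∀ i j : ℕ, (d : ℝ) ^ i * (m : ℝ) ^ j ≤ x ^ θ → ∀ b : ℤ,
          |num (fun n => n ∈ G ∧ n ≡ b [ZMOD (d : ℤ) ^ i * (m : ℤ) ^ j]) x -
            D * x / ((d : ℝ) ^ i * (m : ℝ) ^ j)| ≤ ε * x / ((d : ℝ) ^ i * (m : ℝ) ^ j)) ∧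
    -- windows
    (∀ r : ℤ → ℤ, Admissible 2 3 r → ∀ ε : ℝ, 0 < ε → ∃ δ : ℝ, 0 < δ ∧
      (∀ (G : Set ℤ) (D : ℝ), Inv 2 3 r G → HasDensity G D → 0 < D → ∃ X : ℝ, ∀ x : ℝ, X ≤ x →
        x ^ (1 - ε) ≤ num (fun n => ∃ t : ℕ, (2 : ℝ) ^ t ≤ x ^ ε ∧ ∀ h : ℤ, 0 ≤ h → r 1 ∣ h →
          (h : ℝ) ≤ (n : ℝ) ^ δ → n + h ∈ G ∧ Meet r t n (n + h)) x) ∧
      -- the exceptional set
      List.TFAE [(E 2 3 r).Finite,
        ∃ B N : ℝ, ∀ n : ℤ, N ≤ n → ∃ (h : ℤ) (t : ℕ), 0 ≤ h ∧ r 1 ∣ h ∧ (h : ℝ) ≤ (n : ℝ) ^ δ ∧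
          ((T 2 3 r)^[t] (n + h) : ℝ) ≤ B,
        ∃ B : ℝ, ∀ X : ℝ, ∃ x : ℝ, X ≤ x ∧ num (fun n => ∀ h : ℤ, 0 ≤ h → r 1 ∣ h → (h : ℝ) ≤ (n : ℝ) ^ δ →
          ∀ t : ℕ, B < ((T 2 3 r)^[t] (n + h) : ℝ)) x < x ^ (1 - ε)]) ∧
    -- the map `3x + 1`
    (∀ ε : ℝ, 0 < ε → ∃ δ : ℝ, 0 < δ ∧
      (∃ X : ℝ, ∀ x : ℝ, X ≤ x → x ^ (1 - ε) ≤ num (fun n => ∃ s : ℕ, ∀ h : ℤ, 0 ≤ h →
        (h : ℝ) ≤ (n : ℝ) ^ δ → T3^[s] (n + h) = 1 ∧ ∀ i < s, T3^[i] (n + h) ≠ 1) x) ∧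
      List.TFAE [∀ n : ℤ, 0 < n → ∃ t : ℕ, T3^[t] n = 1,
        ∃ N : ℝ, ∀ n : ℤ, N ≤ n → ∃ (h : ℤ) (t : ℕ), 0 ≤ h ∧ (h : ℝ) ≤ (n : ℝ) ^ δ ∧ T3^[t] (n + h) = 1,
        ∀ X : ℝ, ∃ x : ℝ, X ≤ x ∧ num (fun n => ∀ h : ℤ, 0 ≤ h → (h : ℝ) ≤ (n : ℝ) ^ δ →
          ∀ t : ℕ, T3^[t] (n + h) ≠ 1) x < x ^ (1 - ε)]) := by
  refine ⟨?_, ?_, ?_⟩
  · intro d m hd hdm hco hw r hr
    have hstd : POSB.Std d m r := ⟨hd, hdm, hco, hw, hr⟩
    obtain ⟨θ, hθ, h⟩ := level_count hstd (hLD d m r hstd)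
    refine ⟨θ, hθ, fun ε hε => ?_⟩
    obtain ⟨X, hX⟩ := h ε hε
    refine ⟨X, fun G D hG hD x hx i j hij b => ?_⟩
    have h1 := hX G D hG hD x hx i j hij b
    have e : {n : ℤ | x ≤ n ∧ (n : ℝ) < 2 * x ∧ n ∈ G ∧ n ≡ b [ZMOD (d : ℤ) ^ i * (m : ℤ) ^ j]} =
        {n : ℤ | x ≤ n ∧ (n : ℝ) < 2 * x ∧ n ∈ G ∧ ((d : ℤ) ^ i * (m : ℤ) ^ j) ∣ n - b} := by
      ext n
      simp only [Set.mem_ofPred_eq]
      have : n ≡ b [ZMOD (d : ℤ) ^ i * (m : ℤ) ^ j] ↔ ((d : ℤ) ^ i * (m : ℤ) ^ j) ∣ n - b :=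
        ⟨fun h => h.symm.dvd, fun h => (Int.modEq_iff_dvd.2 h).symm⟩
      rw [this]
    unfold num
    rw [e]
    exact h1
  · intro r hr ε hε
    have hρ : Odd (r 1) := CO.odd_of_adm hr
    have hstd : POSB.Std 2 3 r := ⟨le_refl 2, by norm_num, by norm_num, POS.three_hyp.1, hr⟩
    have hl : LevelD 2 3 (fun _ => r 1) := by
      refine hLD 2 3 _ ⟨le_refl 2, by norm_num, by norm_num, POS.three_hyp.1, ?_⟩
      intro j hj hj2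
      have : j = 1 := by
        push_cast at hj2
        omega
      subst this
      exact hr 1 hj hj2
    obtain ⟨δ, hδ, hM, hK, hE⟩ := exc_iffp hr (swr hρ (hSW _ hρ)) hl hε
    refine ⟨δ, hδ, ?_, ?_⟩
    swap
    · tfae_have 1 ↔ 2 := hE δ le_rfl
      tfae_have 2 → 3 := by
        rintro ⟨B, N, hBN⟩
        refine ⟨B, fun X => ⟨max (max X N) 1, (le_max_left _ _).trans (le_max_left _ _), ?_⟩⟩
        have h2 : (0 : ℝ) < (max (max X N) 1) ^ (1 - ε) := Real.rpow_pos_of_pos (by positivity) _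
        have h3 : {n : ℤ | max (max X N) 1 ≤ n ∧ (n : ℝ) < 2 * max (max X N) 1 ∧
            ∀ h : ℤ, 0 ≤ h → r 1 ∣ h → (h : ℝ) ≤ (n : ℝ) ^ δ → ∀ t : ℕ, B < ((T 2 3 r)^[t] (n + h) : ℝ)} = ∅ := by
          rw [Set.eq_empty_iff_forall_notMem]
          rintro n ⟨h4, -, h5⟩
          obtain ⟨h, t, hh0, hhd, hhc, ht⟩ := hBN n (((le_max_right X N).trans (le_max_left _ _)).trans h4)
          have := h5 h hh0 hhd hhc t
          linarith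
        unfold num
        rw [h3, Set.ncard_empty, Nat.cast_zero]
        exact h2
      tfae_have 3 → 1 := by
        rintro ⟨B, hB⟩
        by_contra hinf
        obtain ⟨X, hX⟩ := exc_win hr hK hinf B
        obtain ⟨x, hx, hlt⟩ := hB X
        have h1 := hX x hx
        exact absurd (h1.trans_lt hlt) (lt_irrefl _)
      tfae_finish
    intro G D hG hD hD0
    obtain ⟨X, hX⟩ := hM 0 D le_rfl hD0
    refine ⟨X, fun x hx => ?_⟩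
    have hGi : POSB.Inv 2 3 r G := hG
    have hdens : PL.dens G = D := tendsto_nhds_unique (POSB.tendsto_dens hstd hGi.tinv) hD
    refine (hX G hGi.tinv hdens.ge δ le_rfl x hx).trans ?_
    unfold num
    have hfin : {n : ℤ | x ≤ n ∧ (n : ℝ) < 2 * x ∧ ∃ t : ℕ, (2 : ℝ) ^ t ≤ x ^ ε ∧ ∀ h : ℤ, 0 ≤ h → r 1 ∣ h →
          (h : ℝ) ≤ (n : ℝ) ^ δ → n + h ∈ G ∧ Meet r t n (n + h)}.Finite := by
      refine (Set.finite_Icc ⌈x⌉ ⌊2 * x⌋).subset ?_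
      rintro n ⟨h1, h2, -⟩
      exact ⟨Int.ceil_le.2 h1, Int.le_floor.2 h2.le⟩
    have hsub : WinM (r 1) ε δ G x ⊆ {n : ℤ | x ≤ n ∧ (n : ℝ) < 2 * x ∧ ∃ t : ℕ, (2 : ℝ) ^ t ≤ x ^ ε ∧
        ∀ h : ℤ, 0 ≤ h → r 1 ∣ h → (h : ℝ) ≤ (n : ℝ) ^ δ → n + h ∈ G ∧ Meet r t n (n + h)} := by
      rintro n ⟨h1, h2, t, ht, -, h3⟩
      refine ⟨h1, h2, t, ht, fun h hh hd hle => ?_⟩
      rw [meet_iff]
      exact h3 h hh hd hle
    exact_mod_cast Set.ncard_le_ncard hsub hfin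
  · intro ε hε
    have hl : LevelD 2 3 (fun _ => (-1 : ℤ)) := hLD 2 3 _ POSB.std_three
    obtain ⟨δ, hδ, h⟩ := three_p (swr (by decide) (hSW (-1) (by decide))) hl hε
    obtain ⟨h1, h2, h3⟩ := h δ le_rfl
    refine ⟨δ, hδ, h1, ?_⟩
    tfae_have 1 ↔ 2 := h2
    tfae_have 1 → 3 := by
      intro hall X
      refine ⟨max X 1, le_max_left _ _, ?_⟩
      have h4 : (0 : ℝ) < (max X 1) ^ (1 - ε) := Real.rpow_pos_of_pos (by positivity) _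
      have h5 : {n : ℤ | max X 1 ≤ n ∧ (n : ℝ) < 2 * max X 1 ∧
          ∀ h : ℤ, 0 ≤ h → (h : ℝ) ≤ (n : ℝ) ^ δ → ∀ t : ℕ, T3^[t] (n + h) ≠ 1} = ∅ := by
        rw [Set.eq_empty_iff_forall_notMem]
        rintro n ⟨h6, -, h7⟩
        have h8 : (1 : ℝ) ≤ n := (le_max_right X 1).trans h6
        obtain ⟨t, ht⟩ := hall n (by
          have : (1 : ℤ) ≤ n := by exact_mod_cast h8
          omega)
        refine h7 0 le_rfl (by
          push_cast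
          exact Real.rpow_nonneg (by linarith) _) t ?_
        rw [add_zero]
        exact ht
      unfold num
      rw [h5, Set.ncard_empty, Nat.cast_zero]
      exact h4
    tfae_have 3 → 1 := by
      intro h4
      rcases h3 with h5 | ⟨X, hX⟩
      · exact h5
      · exfalso
        obtain ⟨x, hx, hlt⟩ := h4 X
        exact absurd ((hX x hx).trans_lt hlt) (lt_irrefl _)
    tfae_finish

end Pool.Agent.Helper8.PW.ResDraft
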