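import Pool.Agent.Helper8.CO.Def

/-!
# Whole windows: the biased mean and the statement
-/

set_option autoImplicit false

namespace Pool.Agent.Helper8.PW

open Pool.Agent.Helper68.Moeller Pool.Agent.Helper8.CO

/-- The mean of `f` after one step if the higher point `y'` is even with the probability `51 / 100`. -/
noncomputable def avb (f : ℕ × ℤ → ℝ) (s : ℕ × ℤ) : ℝ :=
  if Even s.2 then (51 * f (nx0 s) + 49 * f (nx1 s)) / 100 else (49 * f (nx0 s) + 51 * f (nx1 s)) / 100

/-- Whole windows: for some `K` and all large `t` there is a class `a` modulo `2 ^ (K * t)` such that the orbits of all the points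
`a + ρ j`, `j ≤ exp (t / K)`, merge in `K t` steps. -/
def SW (ρ : ℤ) : Prop := ∃ K : ℕ, 0 < K ∧ ∀ᶠ t : ℕ in Filter.atTop, ∃ a : ℤ,
  ∀ j : ℕ, (j : ℝ) ≤ Real.exp (t / K) → MM ρ (K * t) 0 a (a + ρ * j)

end Pool.Agent.Helper8.PW
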